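import Pool.Agent.P.MP_baf437_nt.Box

/-! Reduction of the exceptional set to the pair count. -/

namespace Pool.Agent.P.MP_baf437_nt

open Finset

/-- the product of the primes dividing `n` to exactly the first power -/
def ap (n : ℕ) : ℕ := ∏ p ∈ n.primeFactors.filter (fun p => n.factorization p = 1), p

theorem ap_pos (n : ℕ) : 0 < ap n :=
  prod_pos fun _ hp => (Nat.prime_of_mem_primeFactors (mem_filter.1 hp).1).pos

theorem exists_decomp {n : ℕ} (hn : n ≠ 0) :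
    ∃ u v : ℕ, 0 < u ∧ 0 < v ∧ n = ap n * u ^ 2 * v ^ 3 := by
  refine ⟨∏ p ∈ n.primeFactors, p ^ (if n.factorization p % 2 = 0 then n.factorization p / 2
      else (n.factorization p - 3) / 2),
    ∏ p ∈ n.primeFactors, p ^ (if n.factorization p % 2 = 1 ∧ n.factorization p ≠ 1 then 1 else 0),
    prod_pos fun _ hp => pow_pos (Nat.prime_of_mem_primeFactors hp).pos _,
    prod_pos fun _ hp => pow_pos (Nat.prime_of_mem_primeFactors hp).pos _, ?_⟩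
  conv_lhs => rw [← Nat.prod_factorization_pow_eq_self hn]
  rw [Finsupp.prod, Nat.support_factorization, ap, prod_filter, ← prod_pow, ← prod_pow,
    ← prod_mul_distrib, ← prod_mul_distrib]
  refine prod_congr rfl fun p _ => ?_
  generalize n.factorization p = e
  have : (if e = 1 then p else 1) = p ^ (if e = 1 then 1 else 0) := by split_ifs <;> simp
  rw [this, ← pow_mul, ← pow_mul, ← pow_add, ← pow_add]
  congr 1
  split_ifs <;> omega

/-- no prime above `k` divides the product to exactly the first power -/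
def Exc (k m : ℕ) : Prop :=
  ¬ ∃ p : ℕ, p.Prime ∧ k < p ∧ (∏ i ∈ Icc 1 k, (m + i)).factorization p = 1

theorem Exc.le {k m : ℕ} (h : Exc k m) {i p : ℕ} (hi : i ∈ Icc 1 k) (hp : p.Prime)
    (h1 : (m + i).factorization p = 1) : p ≤ k := by
  by_contra hk
  push Not at hk
  refine h ⟨p, hp, hk, ?_⟩
  rw [Nat.factorization_prod fun j hj => by rw [mem_Icc] at hj; omega, Finsupp.finsetSum_apply,
    sum_eq_single_of_mem i hi, h1]
  intro j hj hne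
  refine Nat.factorization_eq_zero_of_not_dvd fun hd => hne ?_
  have hd2 : p ∣ m + i := Nat.dvd_of_factorization_pos (by omega)
  rw [mem_Icc] at hi hj
  rcases le_total i j with l | l
  · have : p ∣ j - i := by simpa [Nat.add_sub_add_left] using Nat.dvd_sub hd hd2
    have := Nat.eq_zero_of_dvd_of_lt this (by omega)
    omega
  · have : p ∣ i - j := by simpa [Nat.add_sub_add_left] using Nat.dvd_sub hd2 hd
    have := Nat.eq_zero_of_dvd_of_lt this (by omega)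
    omega

theorem prod_filter_dvd (I S : Finset ℕ) (f : ℕ → ℕ) :
    ∏ i ∈ I, ∏ p ∈ S.filter (· ∣ f i), p = ∏ p ∈ S, p ^ (I.filter fun i => p ∣ f i).card := by
  simp only [prod_filter]
  rw [prod_comm]
  refine prod_congr rfl fun p _ => ?_
  rw [← prod_filter, prod_const]

theorem card_dvd_le (k m p : ℕ) : ((Icc 1 k).filter fun i => p ∣ m + i).card ≤ k / p + 1 := by
  rw [← card_range (k / p + 1)]
  refine card_le_card_of_injOn (· / p) (fun i hi => ?_) fun i hi j hj e => ?_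
  · simp only [coe_filter, mem_Icc, Set.mem_ofPred_eq] at hi
    simp only [coe_range, Set.mem_Iio]
    exact Nat.lt_succ_of_le (Nat.div_le_div_right hi.1.2)
  · simp only [coe_filter, mem_Icc, Set.mem_ofPred_eq] at hi hj
    have h1 : m + i ≡ m + j [MOD p] :=
      ((Nat.modEq_zero_iff_dvd.2 hi.2).trans (Nat.modEq_zero_iff_dvd.2 hj.2).symm)
    have h2 : i % p = j % p := Nat.ModEq.add_left_cancel' m h1
    rw [← Nat.div_add_mod i p, ← Nat.div_add_mod j p, h2]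
    simp only at e
    rw [e]

theorem Exc.prod_le {k m : ℕ} (h : Exc k m) : ∏ i ∈ Icc 1 k, ap (m + i) ≤ (4 * k) ^ k := by
  set S := (range (k + 1)).filter Nat.Prime with hS
  have pos : ∀ p ∈ S, 0 < p := fun p hp => (mem_filter.1 hp).2.pos
  have h1 : ∏ i ∈ Icc 1 k, ap (m + i) ≤ ∏ i ∈ Icc 1 k, ∏ p ∈ S.filter (· ∣ m + i), p := by
    refine prod_le_prod' fun i hi => prod_le_prod_of_subset_of_one_le' (fun p hp => ?_)
      fun p hp _ => pos p (mem_filter.1 hp).1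
    rw [mem_filter] at hp
    have pp := Nat.prime_of_mem_primeFactors hp.1
    exact mem_filter.2 ⟨mem_filter.2 ⟨mem_range.2 (Nat.lt_succ_of_le (h.le hi pp hp.2)), pp⟩,
      Nat.dvd_of_mem_primeFactors hp.1⟩
  have h2 : ∏ p ∈ S, p ^ (k / p) ≤ k ^ k := by
    have e := prod_filter_dvd (Ioc 0 k) S id
    simp only [id, Nat.Ioc_filter_dvd_card_eq_div] at e
    rw [← e]
    refine (prod_le_pow_card _ _ k fun x hx => ?_).trans (by simp)
    rw [mem_Ioc] at hx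
    refine le_trans (Nat.le_of_dvd hx.1 ?_) hx.2
    exact Finset.prod_primes_dvd x (fun p hp => (mem_filter.1 (mem_filter.1 hp).1).2.prime)
      fun p hp => (mem_filter.1 hp).2
  rw [prod_filter_dvd] at h1
  calc _ ≤ _ := h1
    _ ≤ ∏ p ∈ S, p * p ^ (k / p) := prod_le_prod' fun p hp => by
        rw [← pow_succ']; exact Nat.pow_le_pow_right (pos p hp) (card_dvd_le k m p)
    _ = primorial k * ∏ p ∈ S, p ^ (k / p) := by rw [prod_mul_distrib]; rfl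
    _ ≤ 4 ^ k * k ^ k := Nat.mul_le_mul (primorial_le_four_pow k) h2
    _ = _ := by rw [mul_pow]

theorem Exc.two {k m : ℕ} (h : Exc k m) (hk : 2 ≤ k) : ∃ i ∈ Icc 1 k, ∃ j ∈ Icc 1 k, i ≠ j ∧
    ap (m + i) ≤ 16 * k ^ 2 ∧ ap (m + j) ≤ 16 * k ^ 2 := by
  by_contra hc
  have h1 : ((Icc 1 k).filter fun i => ap (m + i) ≤ 16 * k ^ 2).card ≤ 1 :=
    Finset.card_le_one.2 fun i hi j hj => by
      by_contra hne
      rw [mem_filter] at hi hj
      exact hc ⟨i, hi.1, j, hj.1, hne, hi.2, hj.2⟩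
  have h2 := card_filter_add_card_filter_not (s := Icc 1 k) fun i => ap (m + i) ≤ 16 * k ^ 2
  rw [Nat.card_Icc] at h2
  set G := (Icc 1 k).filter fun i => ¬ ap (m + i) ≤ 16 * k ^ 2
  have h3 : (16 * k ^ 2 + 1) ^ G.card ≤ ∏ i ∈ G, ap (m + i) :=
    pow_card_le_prod _ _ _ fun i hi => by have := (mem_filter.1 hi).2; omega
  have h4 : ∏ i ∈ G, ap (m + i) ≤ ∏ i ∈ Icc 1 k, ap (m + i) :=
    prod_le_prod_of_subset_of_one_le' (filter_subset _ _) fun i _ _ => ap_pos _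
  have h5 := h.prod_le
  have h6 : (4 * k) ^ k ≤ (16 * k ^ 2) ^ G.card := by
    rw [show 16 * k ^ 2 = (4 * k) ^ 2 by ring, ← pow_mul]
    exact Nat.pow_le_pow_right (by omega) (by omega)
  have h7 : (16 * k ^ 2) ^ G.card < (16 * k ^ 2 + 1) ^ G.card :=
    Nat.pow_lt_pow_left (by omega) (by omega)
  omega

theorem exists_sol {n1 n2 a1 a2 u1 u2 v1 v2 w : ℕ} (e1 : n1 = a1 * u1 ^ 2 * v1 ^ 3)
    (e2 : n2 = a2 * u2 ^ 2 * v2 ^ 3) (h1 : 0 < n1) (h2 : 0 < n2) (b1 : n1 ≤ 2 ^ w)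
    (b2 : n2 ≤ 2 ^ w) : ∃ (d : ℕ) (P : Pt), 0 < d ∧ (d : ℤ) ∣ (n1 : ℤ) - n2 ∧
      Sol 2 3 (a1 * d) (a2 * d) ((n1 : ℤ) - n2) w P ∧
      (n1 : ℤ) = a1 * d * P.1.1 ^ 2 * P.2.1 ^ 3 ∧ (n2 : ℤ) = a2 * d * P.1.2 ^ 2 * P.2.2 ^ 3 := by
  have pos : ∀ {n a u v : ℕ}, n = a * u ^ 2 * v ^ 3 → 0 < n → 0 < a ∧ 0 < u ∧ 0 < v := by
    intro n a u v e hn
    refine ⟨Nat.pos_of_ne_zero ?_, Nat.pos_of_ne_zero ?_, Nat.pos_of_ne_zero ?_⟩ <;>
      rintro rfl <;> simp at e <;> omega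
  obtain ⟨p1, p2, p3⟩ := pos e1 h1
  obtain ⟨p4, p5, p6⟩ := pos e2 h2
  obtain ⟨d, x1, x2, d0, cx, rfl, rfl⟩ := Nat.exists_coprime' (Nat.gcd_pos_of_pos_left u2 p2)
  obtain ⟨e, y1, y2, e0, cy, rfl, rfl⟩ := Nat.exists_coprime' (Nat.gcd_pos_of_pos_left v2 p3)
  have f1 : n1 = a1 * (d ^ 2 * e ^ 3) * x1 ^ 2 * y1 ^ 3 := by rw [e1]; ring
  have f2 : n2 = a2 * (d ^ 2 * e ^ 3) * x2 ^ 2 * y2 ^ 3 := by rw [e2]; ring
  obtain ⟨-, q2, q3⟩ := pos f1 h1
  obtain ⟨-, q5, q6⟩ := pos f2 h2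
  have le : ∀ {n a u v : ℕ}, n = a * u ^ 2 * v ^ 3 → 0 < n → n ≤ 2 ^ w →
      (u : ℤ) ≤ 2 ^ w ∧ (v : ℤ) ≤ 2 ^ w := by
    intro n a u v e hn hw
    have k1 : u ≤ n := Nat.le_of_dvd hn ⟨a * u * v ^ 3, by rw [e]; ring⟩
    have k2 : v ≤ n := Nat.le_of_dvd hn ⟨a * u ^ 2 * v ^ 2, by rw [e]; ring⟩
    exact ⟨by exact_mod_cast k1.trans hw, by exact_mod_cast k2.trans hw⟩
  refine ⟨d ^ 2 * e ^ 3, ((x1, x2), (y1, y2)), by positivity,
    ⟨a1 * x1 ^ 2 * y1 ^ 3 - a2 * x2 ^ 2 * y2 ^ 3, by rw [f1, f2]; push_cast; ring⟩,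
    ⟨⟨Int.natCast_pos.2 q2, Int.natCast_pos.2 q5, (le f1 h1 b1).1, (le f2 h2 b2).1,
      Nat.isCoprime_iff_coprime.2 cx⟩, ⟨Int.natCast_pos.2 q3, Int.natCast_pos.2 q6,
      (le f1 h1 b1).2, (le f2 h2 b2).2, Nat.isCoprime_iff_coprime.2 cy⟩,
      by rw [f1, f2]; push_cast; ring⟩, by rw [f1]; push_cast; ring, by rw [f2]; push_cast; ring⟩

theorem exc_count {ε : ℝ} (hε : 0 < ε) : ∃ C : ℝ, 0 < C ∧ ∀ k X : ℕ, 2 ≤ k → ∀ E : Finset ℕ,
    (∀ m ∈ E, m ≤ X ∧ Exc k m) →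
      (E.card : ℝ) ≤ C * (k : ℝ) ^ 28 * ((X + k : ℕ) : ℝ) ^ (13 / 50 + ε) := by
  classical
  obtain ⟨C, C0, hC⟩ := sub_poly hε
  have D2 := two_le_DD
  refine ⟨256 * (600 * DD ^ 15) * (C * 2 ^ ε), by positivity, fun k X hk E hE => ?_⟩
  set w := Nat.log 2 (X + k) + 1 with hw
  have w1 : X + k ≤ 2 ^ w := (Nat.lt_pow_succ_log_self (by norm_num) _).le
  have w2 : 2 ^ w ≤ 2 * (X + k) := by
    have := Nat.pow_log_le_self 2 (show X + k ≠ 0 by omega)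
    rw [hw, pow_succ]; omega
  obtain ⟨τ, hτ, hb⟩ := hC w
  have N1 : (1 : ℝ) ≤ ((X + k : ℕ) : ℝ) := by exact_mod_cast (by omega : 1 ≤ X + k)
  set Z : ℝ := ((X + k : ℕ) : ℝ) ^ (1 / 50 : ℝ) with hZ
  have Z1 : 1 ≤ Z := Real.one_le_rpow N1 (by norm_num)
  have Z50 : Z ^ 50 = ((X + k : ℕ) : ℝ) := by
    rw [hZ, ← Real.rpow_natCast, ← Real.rpow_mul (by linarith)]; norm_num
  have Z13 : Z ^ 13 = ((X + k : ℕ) : ℝ) ^ (13 / 50 : ℝ) := by
    rw [hZ, ← Real.rpow_natCast, ← Real.rpow_mul (by linarith)]; norm_num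
  have ex : ∀ m ∈ E, ∃ (c : (ℕ × ℕ) × ℕ × ℕ) (P : Pt),
      c ∈ (Icc 1 k ×ˢ Icc 1 k) ×ˢ (Icc 1 (16 * k ^ 3) ×ˢ Icc 1 (16 * k ^ 3)) ∧ c.1.1 ≠ c.1.2 ∧
      Sol 2 3 c.2.1 c.2.2 ((c.1.1 : ℤ) - c.1.2) w P ∧
      ((m + c.1.2 : ℕ) : ℤ) = c.2.2 * P.1.2 ^ 2 * P.2.2 ^ 3 := by
    intro m hm
    obtain ⟨hX, hx⟩ := hE m hm
    obtain ⟨i, hi, j, hj, ne, a1, a2⟩ := hx.two hk
    have hi' := mem_Icc.1 hi
    have hj' := mem_Icc.1 hj
    obtain ⟨u1, v1, -, -, e1⟩ := exists_decomp (n := m + i) (by omega)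
    obtain ⟨u2, v2, -, -, e2⟩ := exists_decomp (n := m + j) (by omega)
    obtain ⟨d, P, d0, d1, s, -, f⟩ := exists_sol (w := w) e1 e2 (by omega) (by omega) (by omega)
      (by omega)
    have e : ((m + i : ℕ) : ℤ) - (m + j : ℕ) = i - j := by push_cast; ring
    rw [e] at d1 s
    have dk : d ≤ k := by
      have := Int.le_of_dvd (abs_pos.2 (sub_ne_zero.2 (by exact_mod_cast ne))) ((dvd_abs _ _).2 d1)
      have : |(i : ℤ) - j| ≤ k := by rw [abs_le]; omega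
      omega
    have mem : ∀ a : ℕ, 0 < a → a ≤ 16 * k ^ 2 → a * d ∈ Icc 1 (16 * k ^ 3) := fun a h0 h1 =>
      mem_Icc.2 ⟨Nat.mul_pos h0 d0, (Nat.mul_le_mul h1 dk).trans (le_of_eq (by ring))⟩
    exact ⟨((i, j), ap (m + i) * d, ap (m + j) * d), P, mem_product.2 ⟨mem_product.2 ⟨hi, hj⟩,
      mem_product.2 ⟨mem _ (ap_pos _) a1, mem _ (ap_pos _) a2⟩⟩, ne, by exact_mod_cast s,
      by exact_mod_cast f⟩
  choose! c P hc hne hs hf using ex
  have E1 := one_le_EE w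
  have := (Col.of_fun E _ c hc).card_le
    (K := 600 * DD ^ 15 * (k : ℝ) ^ 20 * Z ^ 13 * ((w + 1) ^ 4 * τ ^ 4 * EE w)) (by positivity)
    fun U hU hr => by
      rcases U.eq_empty_or_nonempty with rfl | ⟨m0, h0⟩
      · simp only [card_empty, Nat.cast_zero]; positivity
      have inj : Set.InjOn P U := fun m hm m' hm' e => by
        have f1 := hf m (hU hm)
        have f2 := hf m' (hU hm')
        rw [hr m hm m' hm', e, ← f2] at f1
        omega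
      rw [← card_image_of_injOn inj]
      have c0 := hc m0 (hU h0)
      simp only [mem_product, mem_Icc] at c0
      refine pair_count (a1 := (c m0).2.1) (a2 := (c m0).2.2) (h := ((c m0).1.1 : ℤ) - (c m0).1.2)
        (by exact_mod_cast c0.2.1.1) (by exact_mod_cast c0.2.2.1)
        (sub_ne_zero.2 (by exact_mod_cast hne m0 (hU h0))) ?_ Z1 hτ _ (fun Q hQ => ?_)
        fun Q hQ => ?_
      · have : |((c m0).1.1 : ℤ) - (c m0).1.2| ≤ k := by rw [abs_le]; omega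
        exact_mod_cast this
      · obtain ⟨m, hm, rfl⟩ := mem_image.1 hQ
        rw [← hr m hm m0 h0]; exact hs m (hU hm)
      · obtain ⟨m, hm, rfl⟩ := mem_image.1 hQ
        have f1 := hf m (hU hm)
        rw [hr m hm m0 h0] at f1
        have f2 : (((c m0).2.2 : ℕ) : ℤ) * (P m).1.2 ^ 2 * (P m).2.2 ^ 3 ≤ (X + k : ℕ) := by
          have := (hE m (hU hm)).1
          omega
        rw [Z50]; exact_mod_cast f2
  refine this.trans ?_
  have hb2 : ((2 : ℝ) ^ w) ^ ε ≤ 2 ^ ε * ((X + k : ℕ) : ℝ) ^ ε := by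
    rw [← Real.mul_rpow (by norm_num) (by linarith)]
    gcongr
    exact_mod_cast w2
  simp only [card_product, Nat.card_Icc, add_tsub_cancel_right]
  rw [Real.rpow_add (by linarith), Z13]
  push_cast at hb2 ⊢
  calc _ ≤ (k : ℝ) * k * (16 * k ^ 3 * (16 * k ^ 3)) * (600 * DD ^ 15 * (k : ℝ) ^ 20 *
        ((X : ℝ) + k) ^ (13 / 50 : ℝ) * (C * (2 ^ ε * ((X : ℝ) + k) ^ ε))) := by
        have hb3 : ((w : ℝ) + 1) ^ 4 * τ ^ 4 * EE w ≤ C * (2 ^ ε * ((X : ℝ) + k) ^ ε) :=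
          hb.trans (by gcongr)
        gcongr
    _ = _ := by ring

end Pool.Agent.P.MP_baf437_nt
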