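import Mathlib
import Pool.Agent.P.MP_0ad054_nt.Div

/-! Colourings of finite sets, and a small modulus coprime to a given integer. -/

namespace Pool.Agent.P.MP_baf437_nt

open Finset
open Pool.Agent.P.MP_0ad054_nt (tau two_pow_le_tau one_le_tau)

/-- `S` can be coloured with at most `M` colours so that points of one colour are `r`-related. -/
def Col {α : Type} (S : Finset α) (r : α → α → Prop) (M : ℝ) : Prop :=
  ∃ (ι : Type) (B : Finset ι) (c : α → ι), (B.card : ℝ) ≤ M ∧ (∀ s ∈ S, c s ∈ B) ∧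
    ∀ s ∈ S, ∀ s' ∈ S, c s = c s' → r s s'

variable {α : Type}

theorem Col.of_fun {ι : Type} (S : Finset α) (B : Finset ι) (c : α → ι) (h : ∀ s ∈ S, c s ∈ B) :
    Col S (fun s s' => c s = c s') B.card :=
  ⟨ι, B, c, le_rfl, h, fun _ _ _ _ h => h⟩

theorem Col.mono {S : Finset α} {r r' : α → α → Prop} {M M' : ℝ} (h : Col S r M)
    (hr : ∀ s ∈ S, ∀ s' ∈ S, r s s' → r' s s') (hM : M ≤ M') : Col S r' M' := by
  obtain ⟨ι, B, c, h1, h2, h3⟩ := h
  exact ⟨ι, B, c, h1.trans hM, h2, fun s hs s' hs' e => hr s hs s' hs' (h3 s hs s' hs' e)⟩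

theorem Col.nonneg {S : Finset α} {r : α → α → Prop} {M : ℝ} (h : Col S r M) : 0 ≤ M := by
  obtain ⟨ι, B, c, h1, -, -⟩ := h
  exact le_trans (Nat.cast_nonneg _) h1

theorem Col.mul {S : Finset α} {r r' : α → α → Prop} {M M' : ℝ} (h : Col S r M)
    (h' : Col S r' M') : Col S (fun s s' => r s s' ∧ r' s s') (M * M') := by
  have hM := h.nonneg
  obtain ⟨ι, B, c, h1, h2, h3⟩ := h
  obtain ⟨ι', B', c', h1', h2', h3'⟩ := h'
  refine ⟨ι × ι', B ×ˢ B', fun s => (c s, c' s), ?_, fun s hs => mem_product.2 ⟨h2 s hs, h2' s hs⟩,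
    fun s hs s' hs' e => ⟨h3 s hs s' hs' (congrArg Prod.fst e), h3' s hs s' hs' (congrArg Prod.snd e)⟩⟩
  rw [card_product]; push_cast
  exact mul_le_mul h1 h1' (Nat.cast_nonneg _) hM

theorem Col.triv (S : Finset α) : Col S (fun _ _ => True) 1 :=
  ⟨Unit, univ, fun _ => (), by simp, fun _ _ => mem_univ _, fun _ _ _ _ _ => trivial⟩

theorem Col.multiset {β : Type} {S : Finset α} (r : β → α → α → Prop) {M : ℝ} (l : Multiset β)
    (h : ∀ b ∈ l, Col S (r b) M) : Col S (fun s s' => ∀ b ∈ l, r b s s') (M ^ l.card) := by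
  induction l using Multiset.induction_on with
  | empty => exact (Col.triv S).mono (by simp) (by simp)
  | cons a l ih =>
    have h1 := (h a (Multiset.mem_cons_self _ _)).mul
      (ih fun b hb => h b (Multiset.mem_cons_of_mem hb))
    refine h1.mono (fun s _ s' _ hh b hb => ?_) (by rw [Multiset.card_cons, pow_succ'])
    rcases Multiset.mem_cons.1 hb with rfl | hb
    exacts [hh.1, hh.2 b hb]

theorem Col.card_le {S : Finset α} {r : α → α → Prop} {M K : ℝ} (h : Col S r M) (hK0 : 0 ≤ K)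
    (hK : ∀ T ⊆ S, (∀ s ∈ T, ∀ s' ∈ T, r s s') → (T.card : ℝ) ≤ K) : (S.card : ℝ) ≤ M * K := by
  classical
  obtain ⟨ι, B, c, h1, h2, h3⟩ := h
  rw [card_eq_sum_card_fiberwise (f := c) (t := B) h2]
  push_cast
  calc ∑ b ∈ B, ((S.filter fun s => c s = b).card : ℝ) ≤ ∑ b ∈ B, K := by
        refine sum_le_sum fun b _ => hK _ (filter_subset _ _) fun s hs s' hs' => ?_
        rw [mem_filter] at hs hs'
        exact h3 s hs.1 s' hs'.1 (hs.2.trans hs'.2.symm)
    _ = B.card * K := by simp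
    _ ≤ M * K := by gcongr

theorem Col.card_le_one {S : Finset α} {M : ℝ} (h : Col S (fun s s' => s = s') M) :
    (S.card : ℝ) ≤ M := by
  have := h.card_le (K := 1) zero_le_one fun T _ hT => by
    exact_mod_cast Finset.card_le_one.2 hT
  simpa using this

/-- dyadic colouring by the size of a positive quantity -/
theorem Col.ratio (S : Finset α) (u : α → ℝ) {lo : ℝ} (hlo : 0 < lo) (M : ℕ)
    (h : ∀ s ∈ S, lo ≤ u s ∧ u s ≤ lo * 2 ^ M) :
    Col S (fun s s' => u s' ≤ 2 * u s) (M + 1 : ℕ) := by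
  have key : ∀ s ∈ S, lo * 2 ^ Nat.log 2 ⌊u s / lo⌋₊ ≤ u s ∧
      u s < lo * 2 ^ (Nat.log 2 ⌊u s / lo⌋₊ + 1) := by
    intro s hs
    have h1 : 1 ≤ u s / lo := by rw [le_div_iff₀ hlo]; linarith [(h s hs).1]
    have h2 : ⌊u s / lo⌋₊ ≠ 0 := by
      have := Nat.one_le_floor_iff (u s / lo) |>.2 h1
      omega
    have h3 : ((2 ^ Nat.log 2 ⌊u s / lo⌋₊ : ℕ) : ℝ) ≤ ⌊u s / lo⌋₊ := by
      exact_mod_cast Nat.pow_log_le_self 2 h2
    have h4 : ((⌊u s / lo⌋₊ + 1 : ℕ) : ℝ) ≤ (2 ^ (Nat.log 2 ⌊u s / lo⌋₊ + 1) : ℕ) := by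
      exact_mod_cast Nat.lt_pow_succ_log_self (by norm_num : 1 < 2) _
    have h5 := Nat.floor_le (show 0 ≤ u s / lo by linarith)
    have h6 := Nat.lt_floor_add_one (u s / lo)
    push_cast at h3 h4
    constructor
    · have : (2 : ℝ) ^ Nat.log 2 ⌊u s / lo⌋₊ ≤ u s / lo := h3.trans h5
      rw [le_div_iff₀ hlo] at this; linarith
    · have : u s / lo < 2 ^ (Nat.log 2 ⌊u s / lo⌋₊ + 1) := h6.trans_le h4
      rw [div_lt_iff₀ hlo] at this; linarith
  have := Col.of_fun S (range (M + 1)) (fun s => Nat.log 2 ⌊u s / lo⌋₊) fun s hs => by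
    rw [mem_range, Nat.lt_succ_iff]
    have h1 : lo * 2 ^ Nat.log 2 ⌊u s / lo⌋₊ ≤ lo * 2 ^ M := (key s hs).1.trans (h s hs).2
    have h2 := le_of_mul_le_mul_left h1 hlo
    exact (pow_le_pow_iff_right₀ (by norm_num)).1 h2
  refine this.mono (fun s hs s' hs' e => ?_) (by simp)
  have h1 := (key s hs).1
  have h2 := (key s' hs').2
  rw [← e, pow_succ] at h2
  linarith

/-- colouring by windows of length `l` -/
theorem Col.window (S : Finset α) (u : α → ℝ) {l : ℝ} (hl : 0 < l) (U : ℝ) (hU : 0 ≤ U)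
    (h : ∀ s ∈ S, 0 ≤ u s ∧ u s ≤ U) :
    Col S (fun s s' => |u s' - u s| ≤ l) (U / l + 1) := by
  have := Col.of_fun S (range (⌊U / l⌋₊ + 1)) (fun s => ⌊u s / l⌋₊) fun s hs => by
    rw [mem_range, Nat.lt_succ_iff]
    exact Nat.floor_le_floor (by gcongr; exact (h s hs).2)
  refine this.mono (fun s hs s' hs' e => ?_) ?_
  · have a1 := Nat.floor_le (div_nonneg (h s hs).1 hl.le)
    have a2 := Nat.lt_floor_add_one (u s / l)
    have b1 := Nat.floor_le (div_nonneg (h s' hs').1 hl.le)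
    have b2 := Nat.lt_floor_add_one (u s' / l)
    rw [e] at a1 a2
    have c1 : |u s' / l - u s / l| ≤ 1 := by rw [abs_le]; constructor <;> linarith
    rw [← sub_div, abs_div, abs_of_pos hl, div_le_one hl] at c1
    exact c1
  · rw [card_range]; push_cast
    have := Nat.floor_le (div_nonneg hU hl.le)
    linarith

/-- colouring by distance to a fixed complex number, for separated real points -/
theorem Col.dist (S : Finset α) (t : α → ℝ) (ξ : ℂ) (w : ℕ)
    (hsep : ∀ s ∈ S, ∀ s' ∈ S, s ≠ s' → 1 ≤ 2 ^ (2 * w) * |t s - t s'|)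
    (hdiam : ∀ s ∈ S, ∀ s' ∈ S, |t s - t s'| ≤ 2 ^ w) :
    Col S (fun s s' => ‖(t s' : ℂ) - ξ‖ ≤ 2 * ‖(t s : ℂ) - ξ‖) (2 * (3 * w + 3)) := by
  classical
  rcases S.eq_empty_or_nonempty with rfl | hne
  · exact (Col.triv _).mono (by simp) (by have : (0 : ℝ) ≤ w := Nat.cast_nonneg _; linarith)
  obtain ⟨s0, hs0, hmin⟩ := exists_min_image S (fun s => ‖(t s : ℂ) - ξ‖) hne
  have tri : ∀ s s', ‖(t s : ℂ) - ξ‖ ≤ ‖(t s' : ℂ) - ξ‖ + |t s - t s'| := by
    intro s s'
    have : (t s : ℂ) - ξ = ((t s' : ℂ) - ξ) + ((t s - t s' : ℝ) : ℂ) := by push_cast; ring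
    rw [this]
    refine (norm_add_le _ _).trans ?_
    rw [Complex.norm_real, Real.norm_eq_abs]
  have tri2 : ∀ s s', |t s - t s'| ≤ ‖(t s : ℂ) - ξ‖ + ‖(t s' : ℂ) - ξ‖ := by
    intro s s'
    have : ((t s - t s' : ℝ) : ℂ) = ((t s : ℂ) - ξ) - ((t s' : ℂ) - ξ) := by push_cast; ring
    rw [← Real.norm_eq_abs, ← Complex.norm_real, this]
    exact norm_sub_le _ _
  by_cases hbig : 2 ^ w ≤ ‖(t s0 : ℂ) - ξ‖
  · refine (Col.triv S).mono (fun s hs s' hs' _ => ?_)
      (by have : (0 : ℝ) ≤ w := Nat.cast_nonneg _; linarith)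
    have := tri s' s
    have := hdiam s' hs' s hs
    have := hmin s hs
    linarith
  push Not at hbig
  set lo : ℝ := 1 / 2 ^ (2 * w + 1) with hlo
  have lo0 : 0 < lo := by positivity
  have c1 := Col.ratio S (fun s => if s = s0 then lo else ‖(t s : ℂ) - ξ‖) lo0 (3 * w + 2)
    fun s hs => by
      have e : lo * 2 ^ (3 * w + 2) = 2 * 2 ^ w := by
        rw [hlo, show 3 * w + 2 = (2 * w + 1) + (w + 1) by ring, pow_add 2 (2 * w + 1), pow_succ 2 w]
        field_simp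
      have one : (1 : ℝ) ≤ 2 ^ (3 * w + 2) := one_le_pow₀ (by norm_num)
      by_cases e0 : s = s0
      · simp only [e0, if_true]
        exact ⟨le_rfl, by nlinarith⟩
      · simp only [e0, if_false]
        constructor
        · have h1 := hsep s hs s0 hs0 e0
          have h2 := tri2 s s0
          have h3 := hmin s hs
          rw [hlo, div_le_iff₀ (by positivity), pow_succ]
          have : (0 : ℝ) < 2 ^ (2 * w) := by positivity
          nlinarith
        · have := tri s s0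
          have := hdiam s hs s0 hs0
          linarith
  have c2 := Col.of_fun S (univ : Finset Bool) (fun s => decide (s = s0)) fun _ _ => mem_univ _
  refine (c2.mul c1).mono (fun s _ s' _ hh => ?_) (by simp; ring_nf; rfl)
  obtain ⟨e1, e2⟩ := hh
  by_cases e0 : s = s0
  · have : s' = s0 := by simpa [e0] using e1
    rw [this, e0]
    linarith [norm_nonneg ((t s0 : ℂ) - ξ)]
  · have : s' ≠ s0 := by simpa [e0] using e1
    simpa [e0, this] using e2

theorem exists_prime_not_dvd {g : ℕ} (hg : g ≠ 0) :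
    ∃ r : ℕ, r.Prime ∧ ¬ r ∣ g ∧ (r : ℝ) ≤ 2 * tau g := by
  choose f hf using fun i : ℕ => Nat.exists_prime_lt_and_le_two_mul (2 ^ i) (by positivity)
  have mono : StrictMono f := strictMono_nat_of_lt_succ fun i => by
    have := (hf i).2.2
    have := (hf (i + 1)).2.1
    rw [pow_succ] at this
    omega
  by_contra hc
  push Not at hc
  set n := g.primeFactors.card
  have h1 : ∀ i ∈ range (n + 1), f i ∈ g.primeFactors := by
    intro i hi
    rw [mem_range, Nat.lt_succ_iff] at hi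
    by_contra hh
    have h2 : ¬ f i ∣ g := fun hd => hh (Nat.mem_primeFactors.2 ⟨(hf i).1, hd, hg⟩)
    have h3 := hc _ (hf i).1 h2
    have h4 := two_pow_le_tau hg
    have h5 : (f i : ℝ) ≤ 2 * 2 ^ i := by exact_mod_cast (hf i).2.2
    have h6 : (2 : ℝ) ^ i ≤ 2 ^ n := pow_le_pow_right₀ (by norm_num) hi
    linarith
  have := card_le_card_of_injOn f h1 mono.injective.injOn
  simp only [card_range] at this
  omega

theorem exists_modulus {g : ℤ} (hg : g ≠ 0) (Z : ℕ) (hZ : 1 ≤ Z) :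
    ∃ Q : ℕ, Z < Q ∧ IsCoprime (Q : ℤ) g ∧ (Q : ℝ) ≤ 2 * tau g.natAbs * Z := by
  obtain ⟨r, hr, hd, hle⟩ := exists_prime_not_dvd (Int.natAbs_ne_zero.2 hg)
  refine ⟨r ^ (Nat.log r Z + 1), Nat.lt_pow_succ_log_self hr.one_lt _, ?_, ?_⟩
  · push_cast
    refine IsCoprime.pow_left ?_
    rw [Int.isCoprime_iff_gcd_eq_one, Int.gcd_eq_natAbs_gcd_natAbs, Int.natAbs_natCast]
    exact (Nat.Prime.coprime_iff_not_dvd hr).2 hd
  · have h1 : r ^ Nat.log r Z ≤ Z := Nat.pow_log_le_self r (by omega)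
    have h2 : ((r ^ Nat.log r Z : ℕ) : ℝ) ≤ Z := by exact_mod_cast h1
    push_cast at h2 ⊢
    rw [pow_succ, mul_comm]
    exact mul_le_mul hle h2 (by positivity) (by linarith [Nat.cast_nonneg (α := ℝ) r])

end Pool.Agent.P.MP_baf437_nt
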