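import Mathlib

/-! Determinant estimates. -/

namespace Pool.Agent.P.MP_baf437_nt

open Finset Matrix

theorem det_mul_le {n : ℕ} {S : Type} [Fintype S] [DecidableEq S] (c : Matrix (Fin n) S ℝ)
    (b : Matrix S (Fin n) ℝ) (lam : S → ℝ) {B ρ : ℝ} (hρ : 0 < ρ) (hB : 0 ≤ B)
    (hb : ∀ m j, |b m j| ≤ B) (hc : ∀ i m, |c i m| ≤ lam m) :
    |det (c * b)| ≤ (Fintype.card S : ℝ) ^ n *
      (n.factorial * (B ^ n * (ρ ^ n * ∏ m, max 1 (lam m / ρ)))) := by
  have e : det (c * b) = ∑ p : Fin n → S, det (c.submatrix id p) * ∏ i, b (p i) i := by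
    simp only [det_apply', mul_apply, prod_univ_sum, mul_sum, Fintype.piFinset_univ]
    rw [Finset.sum_comm]
    refine sum_congr rfl fun p _ => ?_
    rw [sum_mul]
    refine sum_congr rfl fun σ _ => ?_
    rw [prod_mul_distrib, mul_assoc]; rfl
  have one : ∀ m, (1 : ℝ) ≤ max 1 (lam m / ρ) := fun m => le_max_left _ _
  have P0 : 0 ≤ ∏ m, max 1 (lam m / ρ) := prod_nonneg fun m _ => zero_le_one.trans (one m)
  rw [e]
  refine (abs_sum_le_sum_abs _ _).trans ?_
  refine (sum_le_card_nsmul _ _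
    (n.factorial * (B ^ n * (ρ ^ n * ∏ m, max 1 (lam m / ρ)))) fun p _ => ?_).trans ?_
  swap
  · simp
  by_cases hp : Function.Injective p
  swap
  · obtain ⟨i, j, h1, h2⟩ := Function.not_injective_iff.1 hp
    rw [det_zero_of_column_eq h2 (fun k => by simp [h1]), zero_mul, abs_zero]
    positivity
  have k1 : |∏ i, b (p i) i| ≤ B ^ n := by
    rw [abs_prod]
    refine (prod_le_prod (fun _ _ => abs_nonneg _) fun i _ => hb (p i) i).trans ?_
    simp
  have k2 : ∀ σ : Equiv.Perm (Fin n), |∏ i, c (σ i) (p i)| ≤ ρ ^ n * ∏ m, max 1 (lam m / ρ) := by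
    intro σ
    rw [abs_prod]
    calc ∏ i, |c (σ i) (p i)| ≤ ∏ i, ρ * max 1 (lam (p i) / ρ) := by
          refine prod_le_prod (fun _ _ => abs_nonneg _) fun i _ => (hc _ _).trans ?_
          calc lam (p i) = ρ * (lam (p i) / ρ) := by field_simp
            _ ≤ _ := by gcongr; exact le_max_right _ _
      _ = ρ ^ n * ∏ m ∈ univ.image p, max 1 (lam m / ρ) := by
          rw [prod_mul_distrib, prod_image fun _ _ _ _ h => hp h]; simp
      _ ≤ _ := by
          gcongr ρ ^ n * ?_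
          exact prod_le_prod_of_subset_of_one_le (subset_univ _)
            (fun m _ => zero_le_one.trans (one m)) fun m _ _ => one m
  have k3 : |det (c.submatrix id p)| ≤ n.factorial * (ρ ^ n * ∏ m, max 1 (lam m / ρ)) := by
    rw [det_apply']
    refine (abs_sum_le_sum_abs _ _).trans ?_
    refine (sum_le_card_nsmul _ _ (ρ ^ n * ∏ m, max 1 (lam m / ρ)) fun σ _ => ?_).trans ?_
    · rw [abs_mul]
      have : |((Equiv.Perm.sign σ : ℤ) : ℝ)| = 1 := by
        rcases Int.units_eq_one_or (Equiv.Perm.sign σ) with h | h <;> simp [h]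
      rw [this, one_mul]
      exact k2 σ
    · simp [Fintype.card_perm]
  rw [abs_mul]
  calc _ ≤ (n.factorial * (ρ ^ n * ∏ m, max 1 (lam m / ρ))) * B ^ n :=
        mul_le_mul k3 k1 (abs_nonneg _) (by positivity)
    _ = _ := by ring

theorem binom_tail {τ l : ℝ} (h : |τ| ≤ l) (hl : l ≤ 1) {e : ℕ} (he : e ≤ 9) (k : ℕ) :
    |(1 + τ) ^ e - ∑ m ∈ range k, τ ^ m * (e.choose m : ℝ)| ≤ 512 * l ^ k := by
  have l0 : 0 ≤ l := (abs_nonneg _).trans h
  have ext : ∀ x : ℝ, (1 + x) ^ e = ∑ m ∈ range (k + (e + 1)), x ^ m * (e.choose m : ℝ) := by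
    intro x
    rw [add_comm 1 x, add_pow]
    simp only [one_pow, mul_one]
    refine sum_subset (range_subset_range.2 (by omega)) fun m _ hm => ?_
    rw [Nat.choose_eq_zero_of_lt (by simpa using hm)]; simp
  have h2 : ∑ m ∈ range (e + 1), (e.choose (k + m) : ℝ) ≤ 512 := by
    have := ext 1
    rw [sum_range_add] at this
    simp only [one_pow, one_mul] at this
    have h3 : 0 ≤ ∑ m ∈ range k, (e.choose m : ℝ) := by positivity
    have h4 : ((1 : ℝ) + 1) ^ e ≤ (1 + 1) ^ 9 := pow_le_pow_right₀ (by norm_num) he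
    norm_num at h4 this
    linarith
  rw [ext τ, sum_range_add, add_sub_cancel_left]
  refine (abs_sum_le_sum_abs _ _).trans ?_
  calc _ ≤ ∑ m ∈ range (e + 1), (e.choose (k + m) : ℝ) * l ^ k := by
        refine sum_le_sum fun m _ => ?_
        rw [abs_mul, abs_pow, Nat.abs_cast, mul_comm, pow_add]
        have : |τ| ^ m ≤ 1 := pow_le_one₀ (abs_nonneg _) (h.trans hl)
        calc _ ≤ (e.choose (k + m) : ℝ) * (l ^ k * 1) := by gcongr
          _ = _ := by ring
    _ ≤ _ := by rw [← sum_mul]; gcongr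

/-- the constant in the analytic determinant estimate -/
def C1 : ℝ := 11 ^ 6 * (720 * 1024 ^ 6)

theorem det_small (ω ρ : Fin 6 → ℝ) (e : Fin 6 → ℕ) (he : ∀ c, e c ≤ 9) (s : Fin 6 → Bool)
    {l η : ℝ} (l0 : 0 < l) (l1 : l ≤ 1) (hη : η ≤ l ^ 3) (hω : ∀ i, |ω i - 1| ≤ l)
    (hρ : ∀ i, |ρ i - 1| ≤ η) :
    |det (of fun i c => (if s c then ρ i else 1) * ω i ^ e c)| ≤ C1 * (l ^ 14 + η * l ^ 10) := by
  have η0 : 0 ≤ η := (abs_nonneg _).trans (hρ 0)
  set r : Fin 6 → Fin 6 → ℝ := fun i c => (if s c then ρ i else 1) * ω i ^ e c -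
    ∑ m : Fin 4, (ω i - 1) ^ (m : ℕ) * ((e c).choose m : ℝ) - (ρ i - 1) * (if s c then 1 else 0)
    with hr
  have rb : ∀ i c, |r i c / 1024| ≤ l ^ 4 := by
    intro i c
    have t4 := binom_tail (hω i) l1 (he c) 4
    have t1 := binom_tail (hω i) l1 (he c) 1
    rw [add_sub_cancel] at t4 t1
    rw [← Fin.sum_univ_eq_sum_range (fun m => (ω i - 1) ^ m * ((e c).choose m : ℝ))] at t4
    simp only [range_one, sum_singleton, pow_zero, Nat.choose_zero_right, Nat.cast_one, mul_one,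
      pow_one] at t1
    rw [abs_div, div_le_iff₀ (by norm_num), abs_of_pos (by norm_num : (0 : ℝ) < 1024)]
    have l4 : 0 < l ^ 4 := by positivity
    cases hs : s c
    · simp only [hr, hs, Bool.false_eq_true, if_false, one_mul, mul_zero, sub_zero]
      linarith
    · simp only [hr, hs, if_true, mul_one]
      have : ρ i * ω i ^ e c - ∑ m : Fin 4, (ω i - 1) ^ (m : ℕ) * ((e c).choose m : ℝ) -
          (ρ i - 1) = (ω i ^ e c - ∑ m : Fin 4, (ω i - 1) ^ (m : ℕ) * ((e c).choose m : ℝ)) +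
          (ρ i - 1) * (ω i ^ e c - 1) := by ring
      rw [this]
      refine (abs_add_le _ _).trans ?_
      rw [abs_mul]
      have : |ρ i - 1| * |ω i ^ e c - 1| ≤ l ^ 3 * (512 * l) :=
        mul_le_mul ((hρ i).trans hη) t1 (abs_nonneg _) (by positivity)
      nlinarith
  set c : Matrix (Fin 6) (Fin 4 ⊕ Unit ⊕ Fin 6) ℝ := of fun i =>
    Sum.elim (fun m => (ω i - 1) ^ (m : ℕ)) (Sum.elim (fun _ => ρ i - 1) fun c => r i c / 1024)
    with hc
  set b : Matrix (Fin 4 ⊕ Unit ⊕ Fin 6) (Fin 6) ℝ := of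
    (Sum.elim (fun m c => ((e c).choose m : ℝ)) (Sum.elim (fun _ c => if s c then 1 else 0)
      fun c' c => if c' = c then 1024 else 0)) with hb
  have eq : (of fun i c => (if s c then ρ i else 1) * ω i ^ e c) = c * b := by
    ext i j
    simp only [mul_apply, Fintype.sum_sum_type, hc, hb, of_apply, Sum.elim_inl, Sum.elim_inr,
      Fintype.sum_unique, mul_ite, mul_zero, sum_ite_eq', mem_univ, if_true, hr]
    split_ifs <;> ring
  have := det_mul_le c b (Sum.elim (fun m => l ^ (m : ℕ)) (Sum.elim (fun _ => η) fun _ => l ^ 4))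
    (B := 1024) (ρ := l ^ 4) (by positivity) (by norm_num) ?_ ?_
  · rw [eq]
    refine this.trans ?_
    have m0 : ∀ m : ℕ, m ≤ 4 → max 1 (l ^ m / l ^ 4) = l ^ m / l ^ 4 := fun m hm =>
      max_eq_right ((one_le_div (by positivity)).2 (pow_le_pow_of_le_one l0.le l1 hm))
    have m1 : max 1 (η / l ^ 4) ≤ 1 + η / l ^ 4 :=
      max_le (le_add_of_nonneg_right (by positivity)) (by linarith)
    simp only [Fintype.prod_sum_type, Sum.elim_inl, Sum.elim_inr, Fintype.prod_unique,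
      Fin.prod_univ_four, div_self (show l ^ 4 ≠ 0 by positivity), max_self, prod_const_one,
      mul_one, Fintype.card_sum, Fintype.card_fin, Fintype.card_unique]
    rw [m0 _ (by simp), m0 _ (by simp), m0 _ (by simp), m0 _ (by simp)]
    unfold C1
    calc _ ≤ ((4 + (1 + 6) : ℕ) : ℝ) ^ 6 * ((Nat.factorial 6 : ℕ) * (1024 ^ 6 * ((l ^ 4) ^ 6 *
          (l ^ 0 / l ^ 4 * (l ^ 1 / l ^ 4) * (l ^ 2 / l ^ 4) * (l ^ 3 / l ^ 4) *
            (1 + η / l ^ 4))))) := by
          refine mul_le_mul_of_nonneg_left (mul_le_mul_of_nonneg_left (mul_le_mul_of_nonneg_left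
            (mul_le_mul_of_nonneg_left (mul_le_mul_of_nonneg_left m1 ?_) ?_) ?_) ?_) ?_ <;>
            positivity
      _ = _ := by
          norm_num [Nat.factorial]
          field_simp
          ring
  · rintro (m | m | m) j
    · simp only [hb, of_apply, Sum.elim_inl, Nat.abs_cast]
      have h1 := Nat.choose_le_two_pow (e j) m
      have h2 : 2 ^ e j ≤ 2 ^ 9 := Nat.pow_le_pow_right (by norm_num) (he j)
      exact_mod_cast (by omega : (e j).choose m ≤ 1024)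
    · simp only [hb, of_apply, Sum.elim_inl, Sum.elim_inr]
      split_ifs <;> norm_num
    · simp only [hb, of_apply, Sum.elim_inr]
      split_ifs <;> norm_num
  · rintro i (m | m | m)
    · simp only [hc, of_apply, Sum.elim_inl, abs_pow]
      gcongr; exact hω i
    · exact hρ i
    · exact rb i m

theorem abs_sub_one_le {ω : ℝ} (h : 0 < ω) {p : ℕ} (hp : p ≠ 0) : |ω - 1| ≤ |ω ^ p - 1| := by
  rcases le_total 1 ω with h1 | h1
  · have := le_self_pow₀ h1 hp
    rw [abs_of_nonneg (by linarith), abs_of_nonneg (by linarith)]; linarith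
  · have := pow_le_of_le_one h.le h1 hp
    rw [abs_of_nonpos (by linarith), abs_of_nonpos (by linarith)]; linarith

theorem exists_root {z : ℝ} (h : 0 < z) {p : ℕ} (hp : p ≠ 0) : ∃ ω : ℝ, 0 < ω ∧ ω ^ p = z :=
  ⟨z ^ (p⁻¹ : ℝ), by positivity, Real.rpow_inv_natCast_pow h.le hp⟩

/-- the six monomials of bidegree `(1, 2)` -/
def mono {R : Type} [CommRing R] (x1 x2 y1 y2 : R) : Fin 6 → R :=
  ![x2 * y1 ^ 2, x2 * y1 * y2, x2 * y2 ^ 2, x1 * y1 ^ 2, x1 * y1 * y2, x1 * y2 ^ 2]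

theorem window_det {p q : ℕ} (hp : p ≠ 0) (hp3 : p ≤ 3) (hq3 : q ≤ 3) {a1 a2 h : ℝ}
    (ha1 : 0 < a1) (ha2 : 0 < a2) (x1 x2 y1 y2 : Fin 6 → ℝ) {X1 X2 Y1 Y2 l η : ℝ}
    (X10 : 0 < X1) (X20 : 0 < X2) (Y10 : 0 < Y1) (Y20 : 0 < Y2)
    (hx1 : ∀ i, X1 ≤ x1 i ∧ x1 i ≤ 4 * X1) (hx2 : ∀ i, X2 ≤ x2 i ∧ x2 i ≤ 4 * X2)
    (hy1 : ∀ i, Y1 ≤ y1 i ∧ y1 i ≤ 4 * Y1) (hy2 : ∀ i, Y2 ≤ y2 i ∧ y2 i ≤ 4 * Y2)
    (eq : ∀ i, a1 * x1 i ^ p * y1 i ^ q - a2 * x2 i ^ p * y2 i ^ q = h)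
    (l0 : 0 < l) (l1 : l ≤ 1 / 2) (hη : η ≤ l ^ 3)
    (hh : ∀ i, |h| ≤ η * (a2 * x2 i ^ p * y2 i ^ q))
    (ht : ∀ i, |y2 i / y1 i - y2 0 / y1 0| ≤ l * (y2 0 / y1 0)) :
    |det (of fun i => mono (x1 i) (x2 i) (y1 i) (y2 i))| ≤
      2 ^ 57 * C1 * ((X1 * X2) ^ 3 * (Y1 * Y2) ^ 6) * (l ^ 14 + η * l ^ 10) := by
  have x10 : ∀ i, 0 < x1 i := fun i => X10.trans_le (hx1 i).1
  have x20 : ∀ i, 0 < x2 i := fun i => X20.trans_le (hx2 i).1
  have y10 : ∀ i, 0 < y1 i := fun i => Y10.trans_le (hy1 i).1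
  have y20 : ∀ i, 0 < y2 i := fun i => Y20.trans_le (hy2 i).1
  obtain ⟨t0, ht0⟩ : ∃ t, t = y2 0 / y1 0 := ⟨_, rfl⟩
  have t00 : 0 < t0 := ht0 ▸ div_pos (y20 0) (y10 0)
  choose ω ω0 hω using fun i => exists_root (z := y2 i / y1 i / t0)
    (div_pos (div_pos (y20 i) (y10 i)) t00) hp
  choose ρ ρ0 hρ using fun i => exists_root
    (z := (a1 * x1 i ^ p * y1 i ^ q) / (a2 * x2 i ^ p * y2 i ^ q))
    (by have := x10 i; have := x20 i; have := y10 i; have := y20 i; positivity) hp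
  have ωb : ∀ i, |ω i - 1| ≤ l := fun i => (abs_sub_one_le (ω0 i) hp).trans (by
    rw [hω, div_sub_one t00.ne', abs_div, abs_of_pos t00, div_le_iff₀ t00, ht0]; exact ht i)
  have ρb : ∀ i, |ρ i - 1| ≤ η := fun i => (abs_sub_one_le (ρ0 i) hp).trans (by
    have : 0 < a2 * x2 i ^ p * y2 i ^ q := by have := x20 i; have := y20 i; positivity
    rw [hρ, div_sub_one this.ne', abs_div, abs_of_pos this, div_le_iff₀ this, eq]; exact hh i)
  obtain ⟨s0, hs0⟩ : ∃ s, s = x1 0 / x2 0 / ρ 0 := ⟨_, rfl⟩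
  have s00 : 0 < s0 := hs0 ▸ div_pos (div_pos (x10 0) (x20 0)) (ρ0 0)
  have ey : ∀ i, y2 i = y1 i * t0 * ω i ^ p := fun i => by
    have := y10 i
    rw [hω]; field_simp
  have ex : ∀ i, x1 i = x2 i * s0 * ρ i * ω i ^ q := fun i => by
    have := x10 i; have := x20 i; have := y10 i; have := y20 i
    have := x10 0; have := x20 0; have := y10 0; have := y20 0
    have := ρ0 i; have := ω0 i
    refine (pow_left_inj₀ (by positivity) (by positivity) hp).1 ?_
    rw [mul_pow, mul_pow, mul_pow, ← pow_mul, mul_comm q p, pow_mul, hω, hρ, hs0, div_pow, hρ, ht0]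
    simp only [div_pow]
    field_simp
  have key := det_small ω ρ ![0, p, 2 * p, q, q + p, q + 2 * p]
    (fun c => by fin_cases c <;> simp <;> omega) ![false, false, false, true, true, true] l0
    (by linarith) hη ωb ρb
  have e : (of fun i => mono (x1 i) (x2 i) (y1 i) (y2 i)) = of fun i c => (x2 i * y1 i ^ 2) *
      (of fun i c => ![1, t0, t0 ^ 2, s0, s0 * t0, s0 * t0 ^ 2] c *
        (of fun i c => (if ![false, false, false, true, true, true] c then ρ i else 1) *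
          ω i ^ ![0, p, 2 * p, q, q + p, q + 2 * p] c) i c) i c := by
    ext i c
    have e1 := ex i
    have e2 := ey i
    fin_cases c <;> simp [mono] <;> (try rw [e1]) <;> (try rw [e2]) <;> ring
  rw [e, det_mul_column, det_mul_row, abs_mul, abs_mul]
  have η0 : 0 ≤ η := (abs_nonneg _).trans (ρb 0)
  have b1 : |∏ i, x2 i * y1 i ^ 2| ≤ (64 * (X2 * Y1 ^ 2)) ^ 6 := by
    rw [abs_prod]
    refine (prod_le_prod (fun _ _ => abs_nonneg _) (g := fun _ => 64 * (X2 * Y1 ^ 2))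
      fun i _ => ?_).trans (by simp)
    have := x20 i; have := y10 i
    rw [abs_of_pos (by positivity)]
    calc x2 i * y1 i ^ 2 ≤ (4 * X2) * (4 * Y1) ^ 2 := by gcongr; exacts [(hx2 i).2, (hy1 i).2]
      _ = _ := by ring
  have b2 : t0 ≤ 4 * Y2 / Y1 := by
    rw [ht0]; gcongr; exacts [(hy2 0).2, (hy1 0).1]
  have b3 : s0 ≤ 8 * X1 / X2 := by
    have r1 : 1 / 2 ≤ ρ 0 := by
      have := (abs_le.1 (ρb 0)).1
      have : l ^ 3 ≤ (1 / 2) ^ 3 := by gcongr
      linarith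
    rw [hs0]
    calc _ ≤ 4 * X1 / X2 / (1 / 2) := by gcongr; exacts [(hx1 0).2, (hx2 0).1]
      _ = _ := by ring
  have b4 : |∏ c, ![1, t0, t0 ^ 2, s0, s0 * t0, s0 * t0 ^ 2] c| ≤
      (8 * X1 / X2) ^ 3 * (4 * Y2 / Y1) ^ 6 := by
    have : ∏ c, ![1, t0, t0 ^ 2, s0, s0 * t0, s0 * t0 ^ 2] c = s0 ^ 3 * t0 ^ 6 := by
      simp [Fin.prod_univ_six]; ring
    rw [this, abs_of_pos (by positivity)]
    gcongr
  have C0 : 0 ≤ C1 := by unfold C1; positivity
  calc _ ≤ (64 * (X2 * Y1 ^ 2)) ^ 6 * ((8 * X1 / X2) ^ 3 * (4 * Y2 / Y1) ^ 6 *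
        (C1 * (l ^ 14 + η * l ^ 10))) := by gcongr
    _ = _ := by field_simp; ring

theorem exists_form (S : Finset (Fin 6 → ℤ)) {H : ℕ} (hH : 1 ≤ H)
    (hS : ∀ v ∈ S, ∀ c, |v c| ≤ H) (hdet : ∀ f : Fin 6 → Fin 6 → ℤ, (∀ i, f i ∈ S) → det (of f) = 0) :
    ∃ t : Fin 6 → ℤ, t ≠ 0 ∧ (∀ c, |t c| ≤ ((6 * H) ^ 5 : ℕ)) ∧ ∀ v ∈ S, v ⬝ᵥ t = 0 := by
  classical
  let φ : (Fin 6 → ℤ) → Fin 6 → ℚ := fun v c => v c
  obtain ⟨b, hb1, hb2, hb3⟩ := exists_linearIndependent ℚ (φ '' S)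
  have fb : b.Finite := (S.finite_toSet.image φ).subset hb1
  let _ := fb.fintype
  choose pre pre1 pre2 using fun x : b => hb1 x.2
  have c6 : Fintype.card b ≤ 6 := by simpa using hb3.fintype_card_le_finrank
  have c5 : Fintype.card b ≤ Fintype.card (Fin 5) := by
    by_contra hc
    have e : Fin 6 ≃ b := (Fintype.equivFinOfCardEq (by rw [Fintype.card_fin] at hc; omega)).symm
    have d0 := hdet (fun i => pre (e i)) fun i => pre1 _
    have li : LinearIndependent ℚ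
        ((Int.castRingHom ℚ).mapMatrix (of fun i => pre (e i))).row := by
      have : ((Int.castRingHom ℚ).mapMatrix (of fun i => pre (e i))).row = Subtype.val ∘ e :=
        funext fun i => pre2 (e i)
      rw [this]
      exact hb3.comp e e.injective
    have := (isUnit_iff_isUnit_det _).1 (linearIndependent_rows_iff_isUnit.1 li)
    rw [← RingHom.map_det, d0] at this
    simp at this
  obtain ⟨emb⟩ := Function.Embedding.nonempty_of_card_le c5
  let A : Matrix (Fin 5) (Fin 6) ℤ := of (Function.extend emb pre 0)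
  let _ : SeminormedAddCommGroup (Matrix (Fin 5) (Fin 6) ℤ) := Matrix.seminormedAddCommGroup
  obtain ⟨t, t0, t1, t2⟩ := Int.Matrix.exists_ne_zero_int_vec_norm_le A (by simp) (by simp)
  have H1 : (1 : ℝ) ≤ H := by exact_mod_cast hH
  have nA : ‖A‖ ≤ H := by
    refine (Matrix.norm_le_iff (by linarith)).2 fun i j => ?_
    rw [Int.norm_eq_abs]
    simp only [A, of_apply, Function.extend_def]
    split_ifs with hi
    · exact_mod_cast hS _ (pre1 _) j
    · simp
  refine ⟨t, t0, fun c => ?_, fun v hv => ?_⟩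
  · have h1 : ‖t c‖ ≤ ‖t‖ := norm_le_pi_norm t c
    rw [Int.norm_eq_abs] at h1
    have h2 : max 1 ‖A‖ ≤ H := max_le H1 nA
    have h3 : ((Fintype.card (Fin 5) : ℝ) / (Fintype.card (Fin 6) - Fintype.card (Fin 5))) =
        (5 : ℕ) := by simp; norm_num
    rw [h3, Real.rpow_natCast] at t2
    have h4 : |(t c : ℝ)| ≤ (6 * H) ^ 5 := by
      refine h1.trans (t2.trans ?_)
      simp only [Fintype.card_fin, Nat.cast_ofNat]
      gcongr
    exact_mod_cast h4
  · have h1 : φ v ∈ Submodule.span ℚ b := hb2 ▸ Submodule.subset_span ⟨v, hv, rfl⟩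
    have h2 : ∀ u ∈ Submodule.span ℚ b, u ⬝ᵥ φ t = 0 := by
      intro u hu
      induction hu using Submodule.span_induction with
      | mem x hx =>
        have k1 := congrFun t1 (emb ⟨x, hx⟩)
        simp only [A, mulVec, Pi.zero_apply] at k1
        have k2 : (Function.extend emb pre 0 : Fin 5 → Fin 6 → ℤ) (emb ⟨x, hx⟩) = pre ⟨x, hx⟩ :=
          emb.injective.extend_apply _ _ _
        have k3 : pre ⟨x, hx⟩ ⬝ᵥ t = 0 := by rw [← k2]; exact k1
        have k4 : φ (pre ⟨x, hx⟩) = x := pre2 ⟨x, hx⟩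
        rw [← k4]
        simp only [φ, dotProduct] at k3 ⊢
        exact_mod_cast k3
      | zero => simp
      | add x y _ _ hx hy => rw [add_dotProduct, hx, hy, add_zero]
      | smul a x _ hx => rw [smul_dotProduct, hx, smul_zero]
    have h3 := h2 _ h1
    simp only [φ, dotProduct] at h3 ⊢
    exact_mod_cast h3

end Pool.Agent.P.MP_baf437_nt
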