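import Pool.Agent.P.MP_baf437_nt.Curve
import Pool.Agent.P.MP_baf437_nt.Det

/-! The number of solutions in a box. -/

namespace Pool.Agent.P.MP_baf437_nt

open Finset Matrix
open Pool.Agent.P.MP_0ad054_nt (tau one_le_tau tau_nonneg tau_le one_add_log_le)

/-- all four coordinates lie in prescribed ranges -/
def InBox (X1 X2 Y1 Y2 : ℝ) (P : Pt) : Prop :=
  (X1 ≤ P.1.1 ∧ (P.1.1 : ℝ) ≤ 4 * X1) ∧ (X2 ≤ P.1.2 ∧ (P.1.2 : ℝ) ≤ 4 * X2) ∧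
    (Y1 ≤ P.2.1 ∧ (P.2.1 : ℝ) ≤ 4 * Y1) ∧ (Y2 ≤ P.2.2 ∧ (P.2.2 : ℝ) ≤ 4 * Y2)

theorem box_count {p q : ℕ} (hp : 2 ≤ p) (hq : 2 ≤ q) (hp3 : p ≤ 3) (hq3 : q ≤ 3) {a1 a2 h : ℤ}
    (ha1 : 0 < a1) (ha2 : 0 < a2) (hh : h ≠ 0) {w : ℕ} {τ : ℝ}
    (hτ : ∀ n : ℕ, 1 ≤ n → n ≤ 8 * ((6 * 2 ^ (3 * w)) ^ 5) ^ 6 → tau n ≤ τ)
    (T : Finset Pt) (hT : ∀ P ∈ T, Sol p q a1 a2 h w P) {X1 X2 Y1 Y2 l η : ℝ}
    (X10 : 0 < X1) (X20 : 0 < X2) (Y10 : 0 < Y1) (Y20 : 0 < Y2)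
    (hbox : ∀ P ∈ T, InBox X1 X2 Y1 Y2 P) (l0 : 0 < l) (l1 : l ≤ 1 / 2) (hη : η ≤ l ^ 3)
    (hhη : ∀ P ∈ T, |(h : ℝ)| ≤ η * (a2 * (P.1.2 : ℝ) ^ p * (P.2.2 : ℝ) ^ q))
    (small : 2 ^ 57 * C1 * ((X1 * X2) ^ 3 * (Y1 * Y2) ^ 6) * (l ^ 14 + η * l ^ 10) < 1) :
    (T.card : ℝ) ≤ (16 / l + 1) * (4 * τ ^ 4 * (EE w * (h : ℝ) ^ 2)) := by
  classical
  have E0 := EE_nonneg w
  have tb : ∀ P ∈ T, Y2 / (4 * Y1) ≤ (P.2.2 : ℝ) / P.2.1 ∧ (P.2.2 : ℝ) / P.2.1 ≤ 4 * Y2 / Y1 := by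
    intro P hP
    obtain ⟨-, -, ⟨b1, b2⟩, b3, b4⟩ := hbox P hP
    have := Y10.trans_le b1
    have := Y20.trans_le b3
    constructor <;> gcongr
  have c := Col.window T (fun P => (P.2.2 : ℝ) / P.2.1) (l := l * (Y2 / (4 * Y1))) (by positivity)
    (4 * Y2 / Y1) (by positivity) fun P hP => ⟨le_trans (by positivity) (tb P hP).1, (tb P hP).2⟩
  rw [show 4 * Y2 / Y1 / (l * (Y2 / (4 * Y1))) = 16 / l by field_simp; norm_num] at c
  refine c.card_le (by positivity) fun U hU hr => ?_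
  have one : 1 ≤ 2 ^ (3 * w) := Nat.one_le_two_pow
  obtain ⟨t, t0, t1, t2⟩ := exists_form (U.image fun P => mono P.1.1 P.1.2 P.2.1 P.2.2) one
    (fun v hv c => by
      obtain ⟨P, hP, rfl⟩ := mem_image.1 hv
      obtain ⟨⟨s1, s2, s3, s4, -⟩, ⟨s5, s6, s7, s8, -⟩, -⟩ := hT P (hU hP)
      have aux : ∀ x y z : ℤ, 0 < x → 0 < y → 0 < z → x ≤ 2 ^ w → y ≤ 2 ^ w → z ≤ 2 ^ w →
          |x * y * z| ≤ ((2 ^ (3 * w) : ℕ) : ℤ) := by
        intro x y z _ _ _ _ _ _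
        rw [abs_of_pos (by positivity)]
        calc x * y * z ≤ 2 ^ w * 2 ^ w * 2 ^ w := by gcongr
          _ = _ := by push_cast; ring
      fin_cases c <;> simp only [mono, sq, ← mul_assoc] <;> apply aux <;> assumption)
    (fun f hf => by
      choose P hP e using fun i => mem_image.1 (hf i)
      have k := window_det (p := p) (q := q) (by omega) hp3 hq3 (a1 := a1) (a2 := a2) (h := h)
        (by exact_mod_cast ha1) (by exact_mod_cast ha2) (fun i => (P i).1.1) (fun i => (P i).1.2)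
        (fun i => (P i).2.1) (fun i => (P i).2.2) X10 X20 Y10 Y20
        (fun i => (hbox _ (hU (hP i))).1) (fun i => (hbox _ (hU (hP i))).2.1)
        (fun i => (hbox _ (hU (hP i))).2.2.1) (fun i => (hbox _ (hU (hP i))).2.2.2)
        (fun i => by exact_mod_cast (hT _ (hU (hP i))).2.2) l0 l1 hη (fun i => hhη _ (hU (hP i)))
        (fun i => (hr _ (hP 0) _ (hP i)).trans (mul_le_mul_of_nonneg_left (tb _ (hU (hP 0))).1 l0.le))
      have e2 : (of fun i => mono (((P i).1.1 : ℤ) : ℝ) (P i).1.2 (P i).2.1 (P i).2.2) =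
          (Int.castRingHom ℝ).mapMatrix (of f) := by
        ext i c
        have := congrFun (e i) c
        simp only [of_apply, RingHom.mapMatrix_apply, map_apply, eq_intCast, ← this]
        fin_cases c <;> simp [mono]
      rw [e2, ← RingHom.map_det, eq_intCast] at k
      have : |det (of f)| < 1 := by exact_mod_cast k.trans_lt small
      exact Int.abs_lt_one_iff.1 this)
  refine curve_count hp hq hp3 hq3 ha1.ne' ha2.ne' hh (V := (6 * 2 ^ (3 * w)) ^ 5)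
    (Nat.one_le_pow _ _ (by omega)) hτ U (fun P hP => hT P (hU hP))
    (u0 := t 3) (u1 := t 4) (u2 := t 5) (v0 := t 0) (v1 := t 1) (v2 := t 2)
    (fun e => t0 (funext fun c => by fin_cases c <;> simp [e]))
    (t1 3) (t1 4) (t1 5) (t1 0) (t1 1) (t1 2) fun P hP => ?_
  have := t2 _ (mem_image_of_mem _ hP)
  simp only [dotProduct, Fin.sum_univ_six, mono] at this
  simp at this
  linarith

/-- the constant in the length of the windows -/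
@[irreducible] noncomputable def DD : ℝ := 2 ^ 61 * C1

theorem two_le_DD : 2 ≤ DD := by unfold DD C1; norm_num

theorem one_le_EE (w : ℕ) : 1 ≤ EE w := by
  unfold EE
  have : (0 : ℝ) ≤ w := Nat.cast_nonneg _
  exact one_le_mul_of_one_le_of_one_le (one_le_pow₀ (by linarith)) (by norm_num)

theorem dyadic_count {p q : ℕ} (hpq : (p = 2 ∧ q = 3) ∨ (p = 3 ∧ q = 2)) {a1 a2 h : ℤ}
    (ha1 : 0 < a1) (ha2 : 0 < a2) (hh : h ≠ 0) {w : ℕ} {τ K Z : ℝ} (hK : |(h : ℝ)| ≤ K)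
    (Z1 : 1 ≤ Z) (hτ : ∀ n : ℕ, 1 ≤ n → n ≤ 8 * ((6 * 2 ^ (3 * w)) ^ 5) ^ 6 → tau n ≤ τ)
    (T : Finset Pt) (hT : ∀ P ∈ T, Sol p q a1 a2 h w P) {P0 : Pt} (h0 : P0 ∈ T)
    (hbox : ∀ P ∈ T, InBox (P0.1.1 / 2) (P0.1.2 / 2) (P0.2.1 / 2) (P0.2.2 / 2) P)
    (hor : P0.2.1 * P0.2.2 ≤ P0.1.1 * P0.1.2)
    (hZ : (a2 * (P0.1.2 : ℝ) ^ p * (P0.2.2 : ℝ) ^ q) ≤ Z ^ 50) :
    (T.card : ℝ) ≤ 600 * DD ^ 15 * K ^ 20 * Z ^ 13 * (τ ^ 4 * EE w) := by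
  have hp : 2 ≤ p := by omega
  have hq : 2 ≤ q := by omega
  have D2 := two_le_DD
  have D0 : 0 < DD := by linarith
  have Z0 : 0 < Z := by linarith
  have E1 := one_le_EE w
  have τ1 : 1 ≤ τ := (one_le_tau one_ne_zero).trans (hτ 1 le_rfl (Nat.mul_pos (by norm_num)
    (by positivity)))
  have τ4 : 1 ≤ τ ^ 4 := one_le_pow₀ τ1
  have K1 : 1 ≤ K := le_trans (by exact_mod_cast Int.one_le_abs hh) hK
  have K0 : 0 < K := by linarith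
  obtain ⟨⟨s1, s2, -⟩, ⟨s3, s4, -⟩, s5⟩ := hT P0 h0
  have a1' : (1 : ℝ) ≤ a1 := by exact_mod_cast ha1
  have a2' : (1 : ℝ) ≤ a2 := by exact_mod_cast ha2
  have hor' : (P0.2.1 : ℝ) * P0.2.2 ≤ P0.1.1 * P0.1.2 := by exact_mod_cast hor
  have s5' : (a1 : ℝ) * (P0.1.1 : ℝ) ^ p * (P0.2.1 : ℝ) ^ q -
      a2 * (P0.1.2 : ℝ) ^ p * (P0.2.2 : ℝ) ^ q = h := by exact_mod_cast s5
  have x1 : (1 : ℝ) ≤ P0.1.1 := by exact_mod_cast s1
  have x2 : (1 : ℝ) ≤ P0.1.2 := by exact_mod_cast s2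
  have y1 : (1 : ℝ) ≤ P0.2.1 := by exact_mod_cast s3
  have y2 : (1 : ℝ) ≤ P0.2.2 := by exact_mod_cast s4
  have n1 : (P0.1.1 : ℝ) ^ p * (P0.2.1 : ℝ) ^ q ≤ a1 * (P0.1.1 : ℝ) ^ p * (P0.2.1 : ℝ) ^ q := by
    rw [mul_assoc]; exact le_mul_of_one_le_left (by positivity) a1'
  have n2 : (P0.1.2 : ℝ) ^ p * (P0.2.2 : ℝ) ^ q ≤ a2 * (P0.1.2 : ℝ) ^ p * (P0.2.2 : ℝ) ^ q := by
    rw [mul_assoc]; exact le_mul_of_one_le_left (by positivity) a2'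
  have hK' := (abs_le.1 hK).2
  obtain ⟨z, z0, hz⟩ := exists_root (z := a2 * (P0.1.2 : ℝ) ^ p * (P0.2.2 : ℝ) ^ q / 32)
    (by positivity) (p := 50) (by norm_num)
  have zZ : z ≤ Z := by
    refine (pow_le_pow_iff_left₀ z0.le (by linarith) (by norm_num : (50 : ℕ) ≠ 0)).1 ?_
    have : 0 < z ^ 50 := by positivity
    linarith
  have Z13 : 1 ≤ Z ^ 13 := one_le_pow₀ Z1
  have K20 : K ≤ K ^ 20 := le_self_pow₀ K1 (by norm_num)
  have D15 : 1 ≤ DD ^ 15 := one_le_pow₀ (by linarith)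
  rcases lt_or_ge (z ^ 10) (DD ^ 3 * K ^ 4) with hs | hs
  · have b1 : z ^ 50 ≤ DD ^ 15 * K ^ 20 := by
      calc z ^ 50 = (z ^ 10) ^ 5 := by ring
        _ ≤ (DD ^ 3 * K ^ 4) ^ 5 := by gcongr
        _ = _ := by ring
    have sub : T ⊆ (Icc 1 (2 * P0.1.1) ×ˢ Icc 1 (2 * P0.1.2)) ×ˢ
        (Icc 1 (2 * P0.2.1) ×ˢ Icc 1 (2 * P0.2.2)) := by
      intro P hP
      obtain ⟨⟨r1, r2, -⟩, ⟨r3, r4, -⟩, -⟩ := hT P hP
      obtain ⟨⟨-, c1⟩, ⟨-, c2⟩, ⟨-, c3⟩, -, c4⟩ := hbox P hP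
      have aux : ∀ u v : ℤ, (u : ℝ) ≤ 4 * (v / 2) → u ≤ 2 * v := fun u v huv => by
        have : (u : ℝ) ≤ 2 * v := by linarith
        exact_mod_cast this
      simp only [mem_product, mem_Icc]
      exact ⟨⟨⟨r1, aux _ _ c1⟩, r2, aux _ _ c2⟩, ⟨r3, aux _ _ c3⟩, r4, aux _ _ c4⟩
    have b2 : (T.card : ℝ) ≤ (2 * P0.1.1) * (2 * P0.1.2) * ((2 * P0.2.1) * (2 * P0.2.2)) := by
      have := card_le_card sub
      simp only [card_product, Int.card_Icc, add_sub_cancel_right] at this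
      have h2 : ((T.card : ℕ) : ℤ) ≤ (2 * P0.1.1) * (2 * P0.1.2) * ((2 * P0.2.1) * (2 * P0.2.2)) := by
        zify at this
        rwa [Int.toNat_of_nonneg (by positivity), Int.toNat_of_nonneg (by positivity),
          Int.toNat_of_nonneg (by positivity), Int.toNat_of_nonneg (by positivity)] at this
      exact_mod_cast h2
    have b3 : ((P0.1.1 : ℝ) * P0.2.1) ^ 2 ≤ (P0.1.1 : ℝ) ^ p * (P0.2.1 : ℝ) ^ q := by
      rw [mul_pow]; gcongr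
    have b4 : ((P0.1.2 : ℝ) * P0.2.2) ^ 2 ≤ (P0.1.2 : ℝ) ^ p * (P0.2.2 : ℝ) ^ q := by
      rw [mul_pow]; gcongr
    have b5 : (T.card : ℝ) ≤ 600 * DD ^ 15 * K ^ 20 := by
      have : K ^ 20 ≤ DD ^ 15 * K ^ 20 := le_mul_of_one_le_left (by positivity) D15
      nlinarith [sq_nonneg ((P0.1.1 : ℝ) * P0.2.1 - P0.1.2 * P0.2.2)]
    refine b5.trans ?_
    rw [mul_assoc _ (Z ^ 13)]
    exact le_mul_of_one_le_right (by positivity)
      (one_le_mul_of_one_le_of_one_le Z13 (one_le_mul_of_one_le_of_one_le τ4 E1))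
  have DK : 1 ≤ DD ^ 3 * K ^ 4 :=
    one_le_mul_of_one_le_of_one_le (one_le_pow₀ (by linarith)) (one_le_pow₀ K1)
  have z1 : 1 ≤ z := (one_le_pow_iff_of_nonneg z0.le (by norm_num)).1 (DK.trans hs)
  have z13 : 1 ≤ z ^ 13 := one_le_pow₀ z1
  have Kz : K ≤ z ^ 50 := by
    calc K ≤ K ^ 4 := le_self_pow₀ K1 (by norm_num)
      _ ≤ DD ^ 3 * K ^ 4 := le_mul_of_one_le_left (by positivity) (one_le_pow₀ (by linarith))
      _ ≤ z ^ 10 := hs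
      _ ≤ _ := pow_le_pow_right₀ z1 (by norm_num)
  have L2 : 2 ≤ DD * K * z ^ 13 := by
    calc (2 : ℝ) = 2 * 1 * 1 := by norm_num
      _ ≤ _ := by gcongr
  have half : ∀ u v : ℝ, (u / 2) ^ p * (v / 2) ^ q = u ^ p * v ^ q / 32 := by
    intro u v
    rcases hpq with ⟨rfl, rfl⟩ | ⟨rfl, rfl⟩ <;> ring
  have S : ((P0.1.1 : ℝ) / 2 * (P0.1.2 / 2)) ^ 3 * ((P0.2.1 : ℝ) / 2 * (P0.2.2 / 2)) ^ 6 ≤
      4 * z ^ 180 := by
    set α := (P0.1.1 : ℝ) / 2 * (P0.1.2 / 2) with hα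
    set β := (P0.2.1 : ℝ) / 2 * (P0.2.2 / 2) with hβ
    have α0 : 0 < α := by positivity
    have β0 : 0 < β := by positivity
    have βα : β ≤ α := by rw [hα, hβ]; linarith
    have k1 : α ^ p * β ^ q ≤ 2 * z ^ 50 * z ^ 50 := by
      have : α ^ p * β ^ q = ((P0.1.1 : ℝ) ^ p * (P0.2.1 : ℝ) ^ q / 32) *
          ((P0.1.2 : ℝ) ^ p * (P0.2.2 : ℝ) ^ q / 32) := by
        rw [← half, ← half, hα, hβ, mul_pow, mul_pow]; ring
      rw [this]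
      exact mul_le_mul (by linarith) (by linarith) (by positivity) (by positivity)
    have k2 : (α ^ 3 * β ^ 6) ^ 5 ≤ (α ^ p * β ^ q) ^ 9 := by
      rcases hpq with ⟨rfl, rfl⟩ | ⟨rfl, rfl⟩
      · calc _ = α ^ 15 * β ^ 27 * β ^ 3 := by ring
          _ ≤ α ^ 15 * β ^ 27 * α ^ 3 := by gcongr
          _ = _ := by ring
      · calc _ = α ^ 15 * β ^ 18 * β ^ 12 := by ring
          _ ≤ α ^ 15 * β ^ 18 * α ^ 12 := by gcongr
          _ = _ := by ring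
    refine (pow_le_pow_iff_left₀ (by positivity) (by positivity) (by norm_num : (5 : ℕ) ≠ 0)).1 ?_
    calc _ ≤ (2 * z ^ 50 * z ^ 50) ^ 9 := k2.trans (by gcongr)
      _ = 512 * z ^ 900 := by ring
      _ ≤ 1024 * z ^ 900 := by gcongr; norm_num
      _ = _ := by ring
  have key := box_count hp hq (by omega) (by omega) ha1 ha2 hh hτ T hT (by positivity)
    (by positivity) (by positivity) (by positivity) hbox (l := 1 / (DD * K * z ^ 13))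
    (η := K / z ^ 50) (by positivity) (by gcongr) ?_ (fun P hP => ?_) ?_
  · refine key.trans ?_
    have e1 : 16 / (1 / (DD * K * z ^ 13)) + 1 ≤ 17 * (DD * K * Z ^ 13) := by
      have : DD * K * z ^ 13 ≤ DD * K * Z ^ 13 := by gcongr
      rw [div_div_eq_mul_div, div_one]; linarith
    have e2 : (h : ℝ) ^ 2 ≤ K ^ 2 := by rw [← sq_abs]; gcongr
    have e3 : DD ≤ DD ^ 15 := le_self_pow₀ (by linarith) (by norm_num)
    have e4 : K ^ 3 ≤ K ^ 20 := pow_le_pow_right₀ K1 (by norm_num)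
    calc _ ≤ 17 * (DD * K * Z ^ 13) * (4 * τ ^ 4 * (EE w * K ^ 2)) := by gcongr
      _ = 68 * DD * K ^ 3 * Z ^ 13 * (τ ^ 4 * EE w) := by ring
      _ ≤ _ := by gcongr; norm_num
  · rw [div_pow, div_le_div_iff₀ (by positivity) (by positivity)]
    calc K * (DD * K * z ^ 13) ^ 3 = DD ^ 3 * K ^ 4 * z ^ 39 := by ring
      _ ≤ z ^ 10 * z ^ 40 := by gcongr; norm_num
      _ = _ := by ring
  · obtain ⟨-, ⟨c1, -⟩, -, c2, -⟩ := hbox P hP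
    have : z ^ 50 ≤ a2 * (P.1.2 : ℝ) ^ p * (P.2.2 : ℝ) ^ q := by
      rw [hz, mul_assoc, mul_div_assoc, ← half, mul_assoc]
      have : (0 : ℝ) ≤ P.1.2 := by linarith
      gcongr
    calc _ ≤ K / z ^ 50 * z ^ 50 := by rw [div_mul_cancel₀ _ (by positivity)]; exact hK
      _ ≤ _ := by gcongr
  · have C0 : 0 < C1 := by unfold C1; positivity
    have k1 : z ^ 180 * (1 / (DD * K * z ^ 13)) ^ 14 ≤ 1 / DD := by
      rw [div_pow, ← mul_div_assoc, div_le_div_iff₀ (by positivity) (by positivity)]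
      calc z ^ 180 * 1 ^ 14 * DD = DD ^ 1 * 1 * z ^ 180 := by ring
        _ ≤ DD ^ 14 * K ^ 14 * z ^ 182 := by
          gcongr
          · linarith
          · norm_num
          · exact one_le_pow₀ K1
          · norm_num
        _ = _ := by ring
    have k2 : z ^ 180 * (K / z ^ 50 * (1 / (DD * K * z ^ 13)) ^ 10) ≤ 1 / DD := by
      rw [div_pow, div_mul_div_comm, ← mul_div_assoc,
        div_le_div_iff₀ (by positivity) (by positivity)]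
      calc z ^ 180 * (K * 1 ^ 10) * DD = DD ^ 1 * K ^ 1 * z ^ 180 := by ring
        _ ≤ DD ^ 10 * K ^ 10 * z ^ 180 := by
          gcongr
          · linarith
          · norm_num
          · norm_num
        _ = _ := by ring
    calc _ ≤ 2 ^ 57 * C1 * (4 * z ^ 180) * ((1 / (DD * K * z ^ 13)) ^ 14 +
          K / z ^ 50 * (1 / (DD * K * z ^ 13)) ^ 10) := by gcongr
      _ = 2 ^ 59 * C1 * (z ^ 180 * (1 / (DD * K * z ^ 13)) ^ 14 +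
          z ^ 180 * (K / z ^ 50 * (1 / (DD * K * z ^ 13)) ^ 10)) := by ring
      _ ≤ 2 ^ 59 * C1 * (1 / DD + 1 / DD) := by gcongr
      _ = 1 / 2 := by unfold DD; field_simp; norm_num
      _ < 1 := by norm_num

theorem pair_count {a1 a2 h : ℤ} (ha1 : 0 < a1) (ha2 : 0 < a2) (hh : h ≠ 0) {w : ℕ} {τ K Z : ℝ}
    (hK : |(h : ℝ)| ≤ K) (Z1 : 1 ≤ Z)
    (hτ : ∀ n : ℕ, 1 ≤ n → n ≤ 8 * ((6 * 2 ^ (3 * w)) ^ 5) ^ 6 → tau n ≤ τ)
    (T : Finset Pt) (hT : ∀ P ∈ T, Sol 2 3 a1 a2 h w P)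
    (hZ : ∀ P ∈ T, (a2 * (P.1.2 : ℝ) ^ 2 * (P.2.2 : ℝ) ^ 3) ≤ Z ^ 50) :
    (T.card : ℝ) ≤ 600 * DD ^ 15 * K ^ 20 * Z ^ 13 * ((w + 1) ^ 4 * τ ^ 4 * EE w) := by
  have c : ∀ u : Pt → ℤ, (∀ P ∈ T, 0 < u P ∧ u P ≤ 2 ^ w) →
      Col T (fun P P' => (u P' : ℝ) ≤ 2 * u P) (w + 1 : ℕ) := fun u hu =>
    Col.ratio T (fun P => (u P : ℝ)) one_pos w fun P hP =>
      ⟨by exact_mod_cast (hu P hP).1, by rw [one_mul]; exact_mod_cast (hu P hP).2⟩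
  have c1 := c (fun P => P.1.1) fun P hP => ⟨(hT P hP).1.1, (hT P hP).1.2.2.1⟩
  have c2 := c (fun P => P.1.2) fun P hP => ⟨(hT P hP).1.2.1, (hT P hP).1.2.2.2.1⟩
  have c3 := c (fun P => P.2.1) fun P hP => ⟨(hT P hP).2.1.1, (hT P hP).2.1.2.2.1⟩
  have c4 := c (fun P => P.2.2) fun P hP => ⟨(hT P hP).2.1.2.1, (hT P hP).2.1.2.2.2.1⟩
  have D2 := two_le_DD
  have E1 := one_le_EE w
  have K0 : 0 ≤ K := (abs_nonneg _).trans hK
  have := (c1.mul (c2.mul (c3.mul c4))).card_le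
    (K := 600 * DD ^ 15 * K ^ 20 * Z ^ 13 * (τ ^ 4 * EE w)) (by positivity) fun U hU hr => by
      rcases U.eq_empty_or_nonempty with rfl | ⟨P0, h0⟩
      · simp only [card_empty, Nat.cast_zero]; positivity
      have hbox : ∀ P ∈ U, InBox (P0.1.1 / 2) (P0.1.2 / 2) (P0.2.1 / 2) (P0.2.2 / 2) P := by
        intro P hP
        obtain ⟨r1, r2, r3, r4⟩ := hr P hP P0 h0
        obtain ⟨r5, r6, r7, r8⟩ := hr P0 h0 P hP
        refine ⟨⟨?_, ?_⟩, ⟨?_, ?_⟩, ⟨?_, ?_⟩, ⟨?_, ?_⟩⟩ <;> linarith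
      rcases le_total (P0.2.1 * P0.2.2) (P0.1.1 * P0.1.2) with l | l
      · exact dyadic_count (Or.inl ⟨rfl, rfl⟩) ha1 ha2 hh hK Z1 hτ U (fun P hP => hT P (hU hP)) h0
          hbox l (hZ P0 (hU h0))
      · have := dyadic_count (Or.inr ⟨rfl, rfl⟩) ha1 ha2 hh hK Z1 hτ
          (U.map ⟨Prod.swap, Prod.swap_injective⟩) (P0 := P0.swap)
          (fun P hP => by
            obtain ⟨P', hP', rfl⟩ := mem_map.1 hP
            exact (hT P' (hU hP')).swap)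
          (mem_map_of_mem _ h0)
          (fun P hP => by
            obtain ⟨P', hP', rfl⟩ := mem_map.1 hP
            obtain ⟨r1, r2, r3, r4⟩ := hbox P' hP'
            exact ⟨r3, r4, r1, r2⟩) l
          (by have := hZ P0 (hU h0); simp only [Prod.fst_swap, Prod.snd_swap]; linarith)
        rwa [card_map] at this
  refine this.trans (le_of_eq ?_)
  push_cast; ring

theorem sub_poly {ε : ℝ} (hε : 0 < ε) : ∃ C : ℝ, 0 < C ∧ ∀ w : ℕ, ∃ τ : ℝ,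
    (∀ n : ℕ, 1 ≤ n → n ≤ 8 * ((6 * 2 ^ (3 * w)) ^ 5) ^ 6 → tau n ≤ τ) ∧
      (w + 1) ^ 4 * τ ^ 4 * EE w ≤ C * ((2 : ℝ) ^ w) ^ ε := by
  obtain ⟨C, C0, hC⟩ := tau_le (ε := ε / 720) (by positivity)
  obtain ⟨C', C0', hC'⟩ := one_add_log_le (ε := ε / 28) (by positivity)
  refine ⟨(C * (8 * 6 ^ 30) ^ (ε / 720)) ^ 4 * (2 * C') ^ 14 * (6 ^ 10 * (2 * (50 ^ 9 + 1)) ^ 2),
    by positivity, fun w => ⟨C * (8 * 6 ^ 30) ^ (ε / 720) * ((2 : ℝ) ^ w) ^ (ε / 8),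
      fun n _ hn => (hC n).trans ?_, ?_⟩⟩
  · have : (n : ℝ) ≤ 8 * 6 ^ 30 * ((2 : ℝ) ^ w) ^ 90 := by
      have h2 : (n : ℝ) ≤ ((8 * ((6 * 2 ^ (3 * w)) ^ 5) ^ 6 : ℕ) : ℝ) := by exact_mod_cast hn
      refine h2.trans (le_of_eq ?_)
      push_cast; ring
    calc C * (n : ℝ) ^ (ε / 720) ≤ C * (8 * 6 ^ 30 * ((2 : ℝ) ^ w) ^ 90) ^ (ε / 720) := by gcongr
      _ = _ := by
        rw [Real.mul_rpow (by positivity) (by positivity), ← Real.rpow_natCast _ 90,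
          ← Real.rpow_mul (by positivity), mul_assoc]
        congr 3; push_cast; ring
  · have h1 : (w : ℝ) + 1 ≤ 2 * C' * ((2 : ℝ) ^ w) ^ (ε / 28) := by
      have := hC' (2 ^ w) (one_le_pow₀ (by norm_num))
      rw [Real.log_pow] at this
      have l2 := Real.log_two_gt_d9
      have : (0 : ℝ) ≤ w := Nat.cast_nonneg _
      nlinarith
    have h2 : ∀ (a : ℝ) (k : ℕ), (((2 : ℝ) ^ w) ^ a) ^ k = ((2 : ℝ) ^ w) ^ (a * k) := fun a k => by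
      rw [← Real.rpow_natCast, ← Real.rpow_mul (by positivity)]
    have h3 : ((2 : ℝ) ^ w) ^ ε = (((2 : ℝ) ^ w) ^ (ε / 8)) ^ 4 * (((2 : ℝ) ^ w) ^ (ε / 28)) ^ 14 := by
      rw [h2, h2, ← Real.rpow_add (by positivity)]
      congr 1; push_cast; ring
    calc _ = (C * (8 * 6 ^ 30) ^ (ε / 720) * ((2 : ℝ) ^ w) ^ (ε / 8)) ^ 4 * ((w : ℝ) + 1) ^ 14 *
          (6 ^ 10 * (2 * (50 ^ 9 + 1)) ^ 2) := by unfold EE; ring
      _ ≤ (C * (8 * 6 ^ 30) ^ (ε / 720) * ((2 : ℝ) ^ w) ^ (ε / 8)) ^ 4 *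
          (2 * C' * ((2 : ℝ) ^ w) ^ (ε / 28)) ^ 14 * (6 ^ 10 * (2 * (50 ^ 9 + 1)) ^ 2) := by gcongr
      _ = _ := by rw [h3]; ring

end Pool.Agent.P.MP_baf437_nt
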