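import Pool.Agent.P.MP_baf437_nt.Basic

/-! Counting chains of blocks linked by common cofactors. -/

namespace Pool.Agent.P.MP_baf437_nt

open Finset
open Pool.Agent.P.MP_0ad054_nt (tau)

theorem exists_core {N : Finset ℕ} (b r : ℕ → ℕ) {d1 d2 : ℝ} (h1 : 0 ≤ d1) (h2 : 0 ≤ d2)
    (h : d1 * (N.image b).card + d2 * (N.image r).card < N.card) :
    ∃ N' ⊆ N, N'.Nonempty ∧ ∀ n ∈ N', d1 ≤ (N'.filter fun x => b x = b n).card ∧
      d2 ≤ (N'.filter fun x => r x = r n).card := by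
  obtain ⟨S, hS, hmax⟩ := exists_max_image N.powerset
    (fun S => (S.card : ℝ) - d1 * (S.image b).card - d2 * (S.image r).card) ⟨∅, by simp⟩
  rw [mem_powerset] at hS
  have aux : ∀ (c : ℕ → ℕ), ∀ n ∈ S,
      (((S.filter fun x => ¬ c x = c n).image c).card : ℝ) + 1 ≤ (S.image c).card ∧
      ((S.filter fun x => c x = c n).card : ℝ) + (S.filter fun x => ¬ c x = c n).card = S.card := by
    intro c n hn
    refine ⟨?_, by exact_mod_cast card_filter_add_card_filter_not (s := S) fun x => c x = c n⟩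
    have : ((S.filter fun x => ¬ c x = c n).image c).card < (S.image c).card := by
      refine card_lt_card ⟨image_subset_image (filter_subset _ _), fun hh => ?_⟩
      obtain ⟨x, hx, e⟩ := mem_image.1 (hh (mem_image_of_mem c hn))
      exact (mem_filter.1 hx).2 e
    exact_mod_cast this
  have mono : ∀ (c : ℕ → ℕ) (p : ℕ → Prop) [DecidablePred p],
      (((S.filter p).image c).card : ℝ) ≤ (S.image c).card := fun c p _ => by
    exact_mod_cast card_le_card (image_subset_image (filter_subset _ _))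
  refine ⟨S, hS, ?_, fun n hn => ⟨?_, ?_⟩⟩
  · by_contra he
    rw [not_nonempty_iff_eq_empty] at he
    have := hmax N (mem_powerset_self N)
    simp only [he, card_empty, image_empty, Nat.cast_zero] at this
    linarith
  · have e := hmax (S.filter fun x => ¬ b x = b n) (mem_powerset.2 ((filter_subset _ _).trans hS))
    obtain ⟨a1, a2⟩ := aux b n hn
    have a3 := mul_le_mul_of_nonneg_left (mono r fun x => ¬ b x = b n) h2
    have a4 := mul_le_mul_of_nonneg_left a1 h1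
    linarith
  · have e := hmax (S.filter fun x => ¬ r x = r n) (mem_powerset.2 ((filter_subset _ _).trans hS))
    obtain ⟨a1, a2⟩ := aux r n hn
    have a3 := mul_le_mul_of_nonneg_left (mono b fun x => ¬ r x = r n) h1
    have a4 := mul_le_mul_of_nonneg_left a1 h2
    linarith

/-- the triples `(β, A, B)` with `A / B` close to `β / β0` -/
def VV (M : Finset ℕ) (G β0 t : ℕ) : Finset (ℕ × ℕ × ℕ) :=
  (M ×ˢ Icc (G ^ t) ((2 * G) ^ t) ×ˢ Icc (G ^ t) ((2 * G) ^ t)).filter fun x =>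
    |(x.1 : ℤ) * x.2.2 - β0 * x.2.1| ≤ t * (2 * G) ^ t

theorem mem_VV {M : Finset ℕ} {G β0 t : ℕ} {x : ℕ × ℕ × ℕ} : x ∈ VV M G β0 t ↔ x.1 ∈ M ∧
    (G ^ t ≤ x.2.1 ∧ x.2.1 ≤ (2 * G) ^ t) ∧ (G ^ t ≤ x.2.2 ∧ x.2.2 ≤ (2 * G) ^ t) ∧
      |(x.1 : ℤ) * x.2.2 - β0 * x.2.1| ≤ t * (2 * G) ^ t := by
  simp only [VV, mem_filter, mem_product, mem_Icc, and_assoc]

theorem VV_card {M : Finset ℕ} {G β0 t : ℕ} {μ : ℝ} (hG : 0 < G) (hW : G ^ (2 * t) ≤ β0)
    (hM : (M.card : ℝ) ≤ μ) (μ0 : 0 < μ) :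
    ((VV M G β0 t).card : ℝ) ≤ (4 * t * 8 ^ t + 1) * (1 + 8 ^ t) * G ^ t * √μ := by
  classical
  set Y := G ^ t with hY
  have Y0 : 0 < Y := by positivity
  have eY : (2 * G) ^ t = 2 ^ t * Y := mul_pow _ _ _
  have s0 : 0 < √μ := Real.sqrt_pos.2 μ0
  set l : ℝ := 1 / (2 * 4 ^ t) with hl
  have l0 : 0 < l := by positivity
  set v : ℕ × ℕ × ℕ → ℝ := fun x => x.1 - β0 * (x.2.1 / x.2.2 : ℝ) + t * 2 ^ t with hv
  have e8 : (8 : ℝ) ^ t = 2 ^ t * 4 ^ t := by rw [← mul_pow]; norm_num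
  have e4 : (4 : ℝ) ^ t = 2 ^ t * 2 ^ t := by rw [← mul_pow]; norm_num
  have col : ∀ S ⊆ VV M G β0 t, Col S (fun x x' => |v x' - v x| ≤ l) (4 * t * 8 ^ t + 1) := by
    intro S hS
    refine (Col.window S v l0 (2 * t * 2 ^ t) (by positivity) fun x hx => ?_).mono
      (fun _ _ _ _ h => h) (le_of_eq (by rw [hl, e8]; field_simp; ring))
    obtain ⟨-, -, ⟨b1, -⟩, b3⟩ := mem_VV.1 (hS hx)
    have c1 : (Y : ℝ) ≤ x.2.2 := by exact_mod_cast b1
    have c0 : (0 : ℝ) < Y := by exact_mod_cast Y0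
    have c3 : |(x.1 : ℝ) * x.2.2 - β0 * x.2.1| ≤ t * (2 ^ t * Y) := by
      have : ((2 : ℤ) * G) ^ t = 2 ^ t * Y := by exact_mod_cast eY
      rw [this] at b3
      exact_mod_cast b3
    have c4 : |(x.1 : ℝ) - β0 * (x.2.1 / x.2.2 : ℝ)| ≤ t * 2 ^ t := by
      have : (x.1 : ℝ) - β0 * (x.2.1 / x.2.2 : ℝ) = (x.1 * x.2.2 - β0 * x.2.1) / x.2.2 := by
        have : (x.2.2 : ℝ) ≠ 0 := by linarith
        field_simp
      rw [this, abs_div, abs_of_pos (by linarith : (0 : ℝ) < x.2.2), div_le_iff₀ (by linarith)]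
      refine c3.trans ?_
      rw [mul_assoc]; gcongr
    rw [abs_le] at c4
    simp only [hv]
    constructor <;> linarith
  have gpos : ∀ x ∈ VV M G β0 t, 0 < Nat.gcd x.2.1 x.2.2 := fun x hx =>
    Nat.gcd_pos_of_pos_left _ (Y0.trans_le (mem_VV.1 hx).2.1.1)
  have split := card_filter_add_card_filter_not (s := VV M G β0 t)
    fun x => (Nat.gcd x.2.1 x.2.2 : ℝ) ≤ Y / √μ
  set S1 := (VV M G β0 t).filter fun x => (Nat.gcd x.2.1 x.2.2 : ℝ) ≤ Y / √μ
  set S2 := (VV M G β0 t).filter fun x => ¬ (Nat.gcd x.2.1 x.2.2 : ℝ) ≤ Y / √μ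
  have h1 : (S1.card : ℝ) ≤ μ * (Y / √μ) * (4 * t * 8 ^ t + 1) := by
    have c1 := Col.of_fun S1 M (fun x => x.1) fun x hx => (mem_VV.1 (mem_filter.1 hx).1).1
    have c2 := Col.of_fun S1 (Icc 1 ⌊Y / √μ⌋₊) (fun x => Nat.gcd x.2.1 x.2.2) fun x hx =>
      mem_Icc.2 ⟨gpos x (mem_filter.1 hx).1, Nat.le_floor (mem_filter.1 hx).2⟩
    refine (((c1.mul c2).mul (col S1 (filter_subset _ _))).mono ?_ ?_).card_le_one
    · rintro ⟨β, A, B⟩ hx ⟨β', A', B'⟩ hx' ⟨⟨e1, e2⟩, e3⟩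
      simp only at e1 e2
      subst e1
      obtain ⟨-, -, ⟨b1, b2⟩, -⟩ := mem_VV.1 (mem_filter.1 hx).1
      obtain ⟨-, -, ⟨b3, b4⟩, -⟩ := mem_VV.1 (mem_filter.1 hx').1
      simp only [eY] at b1 b2 b3 b4
      have B0 : (0 : ℝ) < B := by exact_mod_cast Y0.trans_le b1
      have B0' : (0 : ℝ) < B' := by exact_mod_cast Y0.trans_le b3
      have cross : A * B' = A' * B := by
        by_contra hne
        have d1 : (1 : ℤ) ≤ |(A : ℤ) * B' - A' * B| :=
          Int.one_le_abs (sub_ne_zero.2 (by exact_mod_cast hne))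
        have d2 : (1 : ℝ) ≤ |(A : ℝ) * B' - A' * B| := by exact_mod_cast d1
        have d3 : v (β, A', B') - v (β, A, B) = β0 * ((A : ℝ) * B' - A' * B) / (B * B') := by
          simp only [hv]; field_simp; ring
        rw [d3, abs_div, abs_mul, abs_of_pos (mul_pos B0 B0'), Nat.abs_cast,
          div_le_iff₀ (mul_pos B0 B0')] at e3
        have d4 : (B : ℝ) * B' ≤ (2 ^ t * Y) * (2 ^ t * Y) := by
          gcongr
          · exact_mod_cast b2
          · exact_mod_cast b4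
        have d5 : (Y : ℝ) * Y ≤ β0 := by
          rw [mul_comm 2 t, pow_mul, sq] at hW
          exact_mod_cast hW
        have c0 : (0 : ℝ) < Y := by exact_mod_cast Y0
        have d6 : l * ((2 ^ t * Y) * (2 ^ t * Y)) = Y * Y / 2 := by
          rw [hl, e4]; field_simp
        have d7 := mul_le_mul_of_nonneg_left d4 l0.le
        have d8 := mul_le_mul_of_nonneg_left d2 (Nat.cast_nonneg (α := ℝ) β0)
        nlinarith [mul_pos c0 c0]
      have g0 := gpos _ (mem_filter.1 hx).1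
      simp only at g0
      have k1 : B * Nat.gcd A' B' = B' * Nat.gcd A B := by
        rw [← Nat.gcd_mul_left, ← Nat.gcd_mul_left, mul_comm B A', mul_comm B' A, cross,
          mul_comm B B']
      rw [← e2] at k1
      have k2 : B = B' := Nat.eq_of_mul_eq_mul_right g0 k1
      subst k2
      have k3 : A = A' := Nat.eq_of_mul_eq_mul_right (Y0.trans_le b1) cross
      rw [k3]
    · simp only [Nat.card_Icc, add_tsub_cancel_right]
      gcongr
      exact Nat.floor_le (by positivity)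
  have h2 : (S2.card : ℝ) ≤ (2 ^ t * √μ) * ((2 ^ t * (2 ^ t * Y)) * (4 * t * 8 ^ t + 1)) := by
    have dec : ∀ x ∈ S2, ∃ a b c : ℕ, 0 < a ∧ 0 < b ∧ 0 < c ∧ x.2.1 = a * c ∧ x.2.2 = b * c ∧
        (b : ℝ) ≤ 2 ^ t * √μ := by
      intro x hx
      obtain ⟨hx1, hx2⟩ := mem_filter.1 hx
      obtain ⟨-, ⟨b1, -⟩, ⟨b3, b4⟩, -⟩ := mem_VV.1 hx1
      obtain ⟨a, ha⟩ := Nat.gcd_dvd_left x.2.1 x.2.2
      obtain ⟨b, hb⟩ := Nat.gcd_dvd_right x.2.1 x.2.2
      have g0 := gpos x hx1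
      generalize Nat.gcd x.2.1 x.2.2 = c at *
      refine ⟨a, b, c, Nat.pos_of_ne_zero ?_, Nat.pos_of_ne_zero ?_, g0, by rw [ha, mul_comm],
        by rw [hb, mul_comm], ?_⟩
      · rintro rfl; omega
      · rintro rfl; omega
      · rw [not_le, div_lt_iff₀ s0] at hx2
        have c1 : (c : ℝ) * b ≤ 2 ^ t * Y := by rw [hb, eY] at b4; exact_mod_cast b4
        have c0 : (0 : ℝ) < c := by exact_mod_cast g0
        refine le_of_mul_le_mul_left (c1.trans ?_) c0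
        rw [mul_left_comm]; gcongr
    choose! a b c a0 b0 c0 ha hb hbd using dec
    have c1 := Col.of_fun S2 (Icc 1 ⌊2 ^ t * √μ⌋₊) b fun x hx =>
      mem_Icc.2 ⟨b0 x hx, Nat.le_floor (hbd x hx)⟩
    refine (c1.mono (fun _ _ _ _ h => h) ?_).card_le (by positivity) fun T hT hr => ?_
    · simp only [Nat.card_Icc, add_tsub_cancel_right]
      exact Nat.floor_le (by positivity)
    rcases T.eq_empty_or_nonempty with rfl | ⟨x0, h0⟩
    · simp only [card_empty, Nat.cast_zero]; positivity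
    have TV : T ⊆ VV M G β0 t := hT.trans (filter_subset _ _)
    have c2 := Col.of_fun T (Icc 1 (2 ^ t * b x0)) a fun x hx => by
      obtain ⟨-, ⟨-, b2⟩, ⟨b3, -⟩, -⟩ := mem_VV.1 (TV hx)
      refine mem_Icc.2 ⟨a0 x (hT hx), Nat.le_of_mul_le_mul_right ?_ (c0 x (hT hx))⟩
      rw [← ha x (hT hx), ← hr x hx x0 h0, mul_assoc, ← hb x (hT hx)]
      exact (eY ▸ b2).trans (Nat.mul_le_mul_left _ b3)
    have c3 := Col.of_fun T (Icc 1 (2 ^ t * Y / b x0)) c fun x hx => by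
      obtain ⟨-, -, ⟨-, b4⟩, -⟩ := mem_VV.1 (TV hx)
      refine mem_Icc.2 ⟨c0 x (hT hx), (Nat.le_div_iff_mul_le (b0 x0 (hT h0))).2 ?_⟩
      rw [← hr x hx x0 h0, mul_comm, ← hb x (hT hx), ← eY]
      exact b4
    refine (((c2.mul c3).mul (col T TV)).mono ?_ ?_).card_le_one
    · rintro x hx x' hx' ⟨⟨e1, e2⟩, e3⟩
      have f1 : x.2.1 = x'.2.1 := by rw [ha x (hT hx), ha x' (hT hx'), e1, e2]
      have f2 : x.2.2 = x'.2.2 := by rw [hb x (hT hx), hb x' (hT hx'), hr x hx x' hx', e2]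
      have f3 : v x' - v x = x'.1 - x.1 := by simp only [hv, f1, f2]; ring
      have l1 : l < 1 := by
        rw [hl, div_lt_one (by positivity)]
        have : (1 : ℝ) ≤ 4 ^ t := one_le_pow₀ (by norm_num)
        linarith
      have f4 : |(x'.1 : ℤ) - x.1| < 1 := by
        rw [f3] at e3
        exact_mod_cast e3.trans_lt l1
      rw [abs_lt] at f4
      exact Prod.ext (by omega) (Prod.ext f1 f2)
    · simp only [Nat.card_Icc, add_tsub_cancel_right]
      refine mul_le_mul_of_nonneg_right ?_ (by positivity)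
      have : 2 ^ t * b x0 * (2 ^ t * Y / b x0) ≤ 2 ^ t * (2 ^ t * Y) := by
        rw [mul_assoc]
        exact Nat.mul_le_mul_left _ (Nat.mul_div_le _ _)
      exact_mod_cast this
  have e1 : μ * (Y / √μ) = Y * √μ := by
    field_simp
    rw [Real.sq_sqrt μ0.le]
  have e2 : ((VV M G β0 t).card : ℝ) = S1.card + S2.card := by exact_mod_cast split.symm
  have e3 : (G : ℝ) ^ t = Y := by rw [hY]; push_cast; rfl
  rw [e1] at h1
  rw [e2, e3]
  refine (add_le_add h1 h2).trans (le_of_eq ?_)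
  rw [e8, e4]; ring

theorem VV_step {N : Finset ℕ} {K G β0 t : ℕ} (g r : ℕ → ℕ) (hG : 0 < G) (hGK : G ≤ 2 * K)
    (hN : ∀ n ∈ N, n = g n * r n ∧ G ≤ g n ∧ g n < 2 * G) {d1 d2 τ : ℝ}
    (h2 : 0 ≤ d2) (hd : ∀ n ∈ N, d1 ≤ (N.filter fun x => x / K = n / K).card ∧
      d2 ≤ (N.filter fun x => r x = r n).card)
    (hτ : ∀ a : ℕ, a ≤ (2 * G) ^ (t + 1) → tau a ≤ τ) :
    (VV (N.image (· / K)) G β0 t).card * (d1 * d2) ≤
      (VV (N.image (· / K)) G β0 (t + 1)).card * (τ * τ * (4 * K / G)) := by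
  classical
  have K0 : 0 < K := by omega
  have τ0 : 0 ≤ τ := (Nat.cast_nonneg _).trans (hτ 0 (Nat.zero_le _))
  set P := (VV (N.image (· / K)) G β0 t).sigma fun x =>
    (N.filter fun n => n / K = x.1).sigma fun n => N.filter fun n' => r n' = r n with hP
  have low : (VV (N.image (· / K)) G β0 t).card * (d1 * d2) ≤ (P.card : ℝ) := by
    rw [hP, card_sigma, ← nsmul_eq_mul]
    push_cast
    refine card_nsmul_le_sum _ _ _ fun x hx => ?_
    obtain ⟨n0, hn0, e⟩ := mem_image.1 (mem_VV.1 hx).1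
    rw [card_sigma]
    push_cast
    refine le_trans ?_ (card_nsmul_le_sum _ _ d2 fun n hn => (hd n (mem_filter.1 hn).1).2)
    rw [nsmul_eq_mul, ← e]
    exact mul_le_mul_of_nonneg_right (hd n0 hn0).1 h2
  refine low.trans ?_
  have mem : ∀ p ∈ P, p.1 ∈ VV (N.image (· / K)) G β0 t ∧ p.2.1 ∈ N ∧ p.2.2 ∈ N ∧
      p.2.1 / K = p.1.1 ∧ r p.2.2 = r p.2.1 := fun p hp => by
    simp only [hP, mem_sigma, mem_filter] at hp
    tauto
  have c1 := Col.of_fun P (VV (N.image (· / K)) G β0 (t + 1))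
    (fun p => (p.2.2 / K, p.1.2.1 * g p.2.2, p.1.2.2 * g p.2.1)) fun p hp => by
      obtain ⟨⟨β, A, B⟩, n, n'⟩ := p
      obtain ⟨hx, hn, hn', e1, e2⟩ := mem _ hp
      obtain ⟨-, ⟨b1, b2⟩, ⟨b3, b4⟩, b5⟩ := mem_VV.1 hx
      obtain ⟨f1, f2, f3⟩ := hN n hn
      obtain ⟨f4, f5, f6⟩ := hN n' hn'
      simp only at e1 e2 b1 b2 b3 b4 b5
      refine mem_VV.2 ⟨mem_image_of_mem _ hn', ⟨?_, ?_⟩, ⟨?_, ?_⟩, ?_⟩
      · exact Nat.mul_le_mul b1 f5
      · exact Nat.mul_le_mul b2 f6.le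
      · exact Nat.mul_le_mul b3 f2
      · exact Nat.mul_le_mul b4 f3.le
      have k1 : |((n' / K : ℕ) : ℤ) * g n - β * g n'| ≤ 2 * G := by
        have q1 : (n : ℤ) = K * β + (n % K : ℕ) := by
          rw [← e1]; exact_mod_cast (Nat.div_add_mod n K).symm
        have q2 : (n' : ℤ) = K * (n' / K : ℕ) + (n' % K : ℕ) := by
          exact_mod_cast (Nat.div_add_mod n' K).symm
        have q3 : (n' : ℤ) * g n = n * g n' := by
          have : n' * g n = n * g n' :=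
            calc n' * g n = g n' * r n * g n := by rw [← e2, ← f4]
              _ = g n * r n * g n' := by ring
              _ = _ := by rw [← f1]
          exact_mod_cast this
        have q4 : ((n % K : ℕ) : ℤ) < K := by exact_mod_cast Nat.mod_lt _ K0
        have q5 : ((n' % K : ℕ) : ℤ) < K := by exact_mod_cast Nat.mod_lt _ K0
        have q6 : ((g n : ℕ) : ℤ) < 2 * G := by exact_mod_cast f3
        have q7 : ((g n' : ℕ) : ℤ) < 2 * G := by exact_mod_cast f6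
        have q8 : (0 : ℤ) < K := by exact_mod_cast K0
        generalize ((n' / K : ℕ) : ℤ) = β' at *
        have p1 : (0 : ℤ) ≤ (n % K : ℕ) := Int.natCast_nonneg _
        have p2 : (0 : ℤ) ≤ (n' % K : ℕ) := Int.natCast_nonneg _
        have p3 : (0 : ℤ) ≤ g n := Int.natCast_nonneg _
        have p4 : (0 : ℤ) ≤ g n' := Int.natCast_nonneg _
        have q9 : K * (β' * g n - β * g n') = (n % K : ℕ) * (g n' : ℤ) - (n' % K : ℕ) * g n := by
          rw [q1, q2] at q3; linear_combination q3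
        have r1 : ((n % K : ℕ) : ℤ) * g n' ≤ K * (2 * G) := mul_le_mul q4.le q7.le p4 q8.le
        have r2 : ((n' % K : ℕ) : ℤ) * g n ≤ K * (2 * G) := mul_le_mul q5.le q6.le p3 q8.le
        have r3 := mul_nonneg p1 p4
        have r4 := mul_nonneg p2 p3
        rw [abs_le]
        constructor <;> refine le_of_mul_le_mul_left ?_ q8 <;> linarith
      have k2 : (B : ℤ) ≤ (2 * G) ^ t := by exact_mod_cast b4
      have k3 : (g n' : ℤ) ≤ 2 * G := by exact_mod_cast f6.le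
      simp only
      push_cast at k1 ⊢
      calc _ = |B * ((n' : ℤ) / K * g n - β * g n') + g n' * ((β : ℤ) * B - β0 * A)| := by
            congr 1; ring
        _ ≤ _ := abs_add_le _ _
        _ = B * |(n' : ℤ) / K * g n - β * g n'| + g n' * |(β : ℤ) * B - β0 * A| := by
            rw [abs_mul, abs_mul, Nat.abs_cast, Nat.abs_cast]
        _ ≤ (2 * G) ^ t * (2 * G) + (2 * G) * (t * (2 * G) ^ t) := by gcongr
        _ = _ := by ring
  have G0 : (0 : ℝ) < G := by exact_mod_cast hG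
  refine c1.card_le (by positivity) fun T hT hr => ?_
  rcases T.eq_empty_or_nonempty with rfl | ⟨p0, h0⟩
  · simp only [card_empty, Nat.cast_zero]; positivity
  have bd : ∀ p ∈ P, (0 < p.1.2.1 * g p.2.2 ∧ p.1.2.1 * g p.2.2 ≤ (2 * G) ^ (t + 1)) ∧
      0 < p.1.2.2 * g p.2.1 ∧ p.1.2.2 * g p.2.1 ≤ (2 * G) ^ (t + 1) := fun p hp => by
    obtain ⟨hx, hn, hn', -, -⟩ := mem _ hp
    obtain ⟨-, ⟨b1, b2⟩, ⟨b3, b4⟩, -⟩ := mem_VV.1 hx
    have Y0 : 0 < G ^ t := by positivity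
    exact ⟨⟨Nat.mul_pos (Y0.trans_le b1) (hG.trans_le (hN _ hn').2.1),
      Nat.mul_le_mul b2 (hN _ hn').2.2.le⟩, Nat.mul_pos (Y0.trans_le b3)
      (hG.trans_le (hN _ hn).2.1), Nat.mul_le_mul b4 (hN _ hn).2.2.le⟩
  have hr' := fun p hp p' hp' => Prod.mk.inj (hr p hp p' hp')
  have c2 := Col.of_fun T (p0.1.2.1 * g p0.2.2).divisors (fun p => g p.2.2) fun p hp =>
    Nat.mem_divisors.2 ⟨(Prod.mk.inj (hr' p hp p0 h0).2).1 ▸ dvd_mul_left _ _,
      (bd p0 (hT h0)).1.1.ne'⟩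
  have c3 := Col.of_fun T (p0.1.2.2 * g p0.2.1).divisors (fun p => g p.2.1) fun p hp =>
    Nat.mem_divisors.2 ⟨(Prod.mk.inj (hr' p hp p0 h0).2).2 ▸ dvd_mul_left _ _,
      (bd p0 (hT h0)).2.1.ne'⟩
  have c4 := Col.window T (fun p => ((p.2.2 % K : ℕ) : ℝ)) (l := G / 2) (by positivity) K
    (by positivity) fun p _ => ⟨by positivity, by exact_mod_cast (Nat.mod_lt _ K0).le⟩
  refine (((c2.mul c3).mul c4).mono ?_ ?_).card_le_one
  · rintro ⟨⟨β, A, B⟩, n, n'⟩ hp ⟨⟨β1, A1, B1⟩, n1, n1'⟩ hp' ⟨⟨e1, e2⟩, e3⟩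
    obtain ⟨e4, e5⟩ := hr' _ hp _ hp'
    obtain ⟨e7, e6⟩ := Prod.mk.inj e5
    obtain ⟨-, hn, hn', a1, a2⟩ := mem _ (hT hp)
    obtain ⟨-, hn1, hn1', a3, a4⟩ := mem _ (hT hp')
    simp only at e1 e2 e3 e4 e7 e6 a1 a2 a3 a4 hn hn' hn1 hn1'
    obtain ⟨f1, f2, -⟩ := hN n hn
    obtain ⟨f3, f4, -⟩ := hN n' hn'
    obtain ⟨f5, -, -⟩ := hN n1 hn1
    obtain ⟨f7, -, -⟩ := hN n1' hn1'
    have k1 : n' = n1' := by
      have q1 : |((n1' % K : ℕ) : ℤ) - (n' % K : ℕ)| < G := by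
        have : |((n1' % K : ℕ) : ℝ) - (n' % K : ℕ)| < G := e3.trans_lt (by linarith)
        exact_mod_cast this
      have q2 := Nat.div_add_mod n' K
      have q3 := Nat.div_add_mod n1' K
      rw [← e4] at q3
      have q4 : (g n' : ℤ) ∣ (n1' : ℤ) - n' := by
        refine dvd_sub ?_ ?_
        · rw [e1]; exact_mod_cast Dvd.intro _ f7.symm
        · exact_mod_cast Dvd.intro _ f3.symm
      rw [abs_lt] at q1
      have := Int.eq_zero_of_abs_lt_dvd q4 (by rw [abs_lt]; omega)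
      omega
    subst k1
    have k2 : n = n1 := by rw [f1, f5, e2, ← a2, ← a4]
    subst k2
    have k3 : A = A1 := Nat.eq_of_mul_eq_mul_right (hG.trans_le f4) e7
    have k4 : B = B1 := Nat.eq_of_mul_eq_mul_right (hG.trans_le f2) e6
    rw [← a1, ← a3, k3, k4]
  · have GK : (G : ℝ) ≤ 2 * K := by exact_mod_cast hGK
    have : (K : ℝ) / (G / 2) + 1 ≤ 4 * K / G := by
      rw [div_add_one (by positivity), div_le_div_iff₀ (by positivity) G0]
      nlinarith
    gcongr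
    · exact hτ _ (bd p0 (hT h0)).1.2
    · exact hτ _ (bd p0 (hT h0)).2.2

theorem walk {N : Finset ℕ} {K G W s : ℕ} (g r : ℕ → ℕ) (hG : 0 < G) (hGK : G ≤ 2 * K)
    (hN : ∀ n ∈ N, n = g n * r n ∧ G ≤ g n ∧ g n < 2 * G) (hNW : ∀ n ∈ N, W ≤ n / K)
    (hW : G ^ (2 * s) ≤ W) {d1 d2 τ μ : ℝ} (h1 : 0 ≤ d1) (h2 : 0 ≤ d2) (τ0 : 0 < τ)
    (hτ : ∀ a : ℕ, a ≤ (2 * G) ^ s → tau a ≤ τ) (hμ : ((N.image (· / K)).card : ℝ) ≤ μ)
    (hd : d1 * (N.image (· / K)).card + d2 * (N.image r).card < N.card) :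
    (d1 * d2 / (4 * τ ^ 2 * K)) ^ s ≤ (4 * s * 8 ^ s + 1) * (1 + 8 ^ s) * √μ := by
  obtain ⟨S, hS, ⟨n0, hn0⟩, hd'⟩ := exists_core (· / K) r h1 h2 hd
  have G0 : (0 : ℝ) < G := by exact_mod_cast hG
  have K0 : (0 : ℝ) < K := by exact_mod_cast (by omega : 0 < K)
  have ind : ∀ t ≤ s, (d1 * d2 / (4 * τ ^ 2 * K) * G) ^ t ≤
      (VV (S.image (· / K)) G (n0 / K) t).card := by
    intro t
    induction t with
    | zero =>
      intro _
      have : ((n0 / K, 1, 1) : ℕ × ℕ × ℕ) ∈ VV (S.image (· / K)) G (n0 / K) 0 :=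
        mem_VV.2 ⟨mem_image_of_mem _ hn0, by simp⟩
      rw [pow_zero]
      exact_mod_cast card_pos.2 ⟨_, this⟩
    | succ t ih =>
      intro ht
      have := VV_step (β0 := n0 / K) (t := t) g r hG hGK (fun n hn => hN n (hS hn)) h2 hd'
        fun a ha => hτ a (ha.trans (Nat.pow_le_pow_right (by omega) ht))
      have e : d1 * d2 / (4 * τ ^ 2 * K) * G = d1 * d2 / (τ * τ * (4 * K / G)) := by field_simp
      rw [pow_succ]
      nth_rewrite 2 [e]
      rw [← mul_div_assoc, div_le_iff₀ (by positivity)]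
      exact le_trans (mul_le_mul_of_nonneg_right (ih (by omega)) (by positivity)) this
  have hM : ((S.image (· / K)).card : ℝ) ≤ μ :=
    le_trans (by exact_mod_cast card_le_card (image_subset_image hS)) hμ
  have μ0 : 0 < μ :=
    lt_of_lt_of_le (by exact_mod_cast card_pos.2 ⟨_, mem_image_of_mem (· / K) hn0⟩) hM
  have := (ind s le_rfl).trans (VV_card hG (hW.trans (hNW n0 (hS hn0))) hM μ0)
  rw [mul_pow, mul_right_comm _ _ √μ] at this
  exact le_of_mul_le_mul_right this (by positivity)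

end Pool.Agent.P.MP_baf437_nt
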