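import Pool.Agent.P.MP_baf437_nt.Near
import Pool.Agent.P.MP_baf437_nt.Walk

/-! The count in one dyadic class. -/

namespace Pool.Agent.P.MP_baf437_nt

open Finset
open Pool.Agent.P.MP_0ad054_nt (tau tau_le)

theorem endgame {μ K Λ Z c : ℝ} {t : ℕ} (μ0 : 0 < μ) (K0 : 0 < K) (Λ0 : 0 < Λ) (Z0 : 0 < Z)
    (c1 : 1 ≤ c) (h1 : (μ * K / Λ) ^ (t + 1) ≤ c * √μ) (h2 : Λ ≤ K * Z ^ (2 * t + 1)) :
    μ * K ≤ c ^ 2 * Λ * Z := by
  set u := μ * K / Λ with hu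
  have u0 : 0 < u := by positivity
  have a1 : (u ^ (t + 1)) ^ 2 ≤ (c * √μ) ^ 2 := by gcongr
  rw [mul_pow, Real.sq_sqrt μ0.le] at a1
  have a2 : μ ≤ u * Z ^ (2 * t + 1) := by
    rw [hu, div_mul_eq_mul_div, le_div_iff₀ Λ0, mul_assoc]; gcongr
  have a3 : u * u ^ (2 * t + 1) ≤ u * (c ^ 2 * Z) ^ (2 * t + 1) :=
    calc _ = (u ^ (t + 1)) ^ 2 := by ring
      _ ≤ c ^ 2 * (u * Z ^ (2 * t + 1)) := a1.trans (by gcongr)
      _ ≤ (c ^ 2) ^ (2 * t + 1) * (u * Z ^ (2 * t + 1)) := by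
        gcongr
        exact le_self_pow₀ (one_le_pow₀ c1) (by omega)
      _ = _ := by ring
  have a4 := (pow_le_pow_iff_left₀ u0.le (by positivity) (by omega)).1
    (le_of_mul_le_mul_left a3 u0)
  rw [hu, div_le_iff₀ Λ0] at a4
  linarith

open Classical in
theorem blocks {X K G H : ℕ} (hH : 1 ≤ H) (hK : 1 ≤ K) (hKX : K ≤ 2 * X) {E : Finset ℕ}
    (hE : ∀ n ∈ E, ∃ m, (m < n ∧ n ≤ m + 2 * K) ∧ X ≤ m ∧ m < 2 * X ∧
      K ≤ H * ((Ioc m (m + 2 * K)).filter (Good G H)).card) :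
    (E.card : ℝ) ≤ ((range (6 * X + 1)).filter fun β => (K : ℝ) / (3 * H) ≤
      (((Ioc X (6 * X)).filter (Good G H)).filter (· / K = β)).card).card * 9 * K := by
  set N0 := (Ioc X (6 * X)).filter (Good G H)
  set M := (range (6 * X + 1)).filter fun β => (K : ℝ) / (3 * H) ≤ (N0.filter (· / K = β)).card
  have H0 : (0 : ℝ) < H := by exact_mod_cast hH
  have ex : ∀ m, X ≤ m → m < 2 * X → K ≤ H * ((Ioc m (m + 2 * K)).filter (Good G H)).card →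
      ∃ j ∈ range 3, m / K + j ∈ M := by
    intro m h1 h2 h3
    by_contra hc
    push Not at hc
    have a1 : (Ioc m (m + 2 * K)).filter (Good G H) ⊆
        (range 3).biUnion fun j => N0.filter (· / K = m / K + j) := fun n hn => by
      rw [mem_filter, mem_Ioc] at hn
      have b1 : m / K ≤ n / K := Nat.div_le_div_right hn.1.1.le
      have b2 : n / K ≤ m / K + 2 := by
        rw [← Nat.add_mul_div_right _ _ hK]; exact Nat.div_le_div_right hn.1.2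
      exact mem_biUnion.2 ⟨n / K - m / K, mem_range.2 (by omega), mem_filter.2
        ⟨mem_filter.2 ⟨mem_Ioc.2 (by omega), hn.2⟩, by omega⟩⟩
    have a2 : ∀ j ∈ range 3, ((N0.filter (· / K = m / K + j)).card : ℝ) < K / (3 * H) := by
      intro j hj
      refine not_le.1 fun hh => hc j hj (mem_filter.2 ⟨mem_range.2 ?_, hh⟩)
      have := Nat.div_le_self m K
      rw [mem_range] at hj
      omega
    have a3 : (((Ioc m (m + 2 * K)).filter (Good G H)).card : ℝ) ≤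
        ∑ j ∈ range 3, ((N0.filter (· / K = m / K + j)).card : ℝ) := by
      exact_mod_cast (card_le_card a1).trans card_biUnion_le
    have a4 := a3.trans_lt (sum_lt_sum_of_nonempty ⟨0, by simp⟩ a2)
    rw [sum_const, card_range, nsmul_eq_mul, show ((3 : ℕ) : ℝ) * (K / (3 * H)) = K / H by
      push_cast; field_simp, lt_div_iff₀ H0, mul_comm] at a4
    exact absurd h3 (not_le.2 (by exact_mod_cast a4))
  have ex2 : ∀ n ∈ E, ∃ b ∈ M, ∃ j ∈ range 9, n / K + 2 = b + j := by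
    intro n hn
    obtain ⟨m, ⟨h1, h2⟩, h3, h4, h5⟩ := hE n hn
    obtain ⟨j, hj, hb⟩ := ex m h3 h4 h5
    have b1 : m / K ≤ n / K := Nat.div_le_div_right h1.le
    have b2 : n / K ≤ m / K + 2 := by
      rw [← Nat.add_mul_div_right _ _ hK]; exact Nat.div_le_div_right h2
    rw [mem_range] at hj
    exact ⟨_, hb, n / K + 2 - (m / K + j), mem_range.2 (by omega), by omega⟩
  choose! b hM j hj e using ex2
  refine ((((Col.of_fun E M b hM).mul (Col.of_fun E _ j hj)).mul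
    (Col.of_fun E (range K) (· % K) fun m _ => mem_range.2 (Nat.mod_lt _ hK))).mono ?_
      (by simp)).card_le_one
  rintro m hm m' hm' ⟨⟨e1, e2⟩, e3⟩
  have := e m hm
  have := e m' hm'
  rw [← Nat.div_add_mod m K, ← Nat.div_add_mod m' K, show m / K = m' / K by omega, e3]

theorem walk_case {N0 M : Finset ℕ} {X K G H s : ℕ} (g r : ℕ → ℕ) (hH : 1 ≤ H) (hG : 1 ≤ G)
    (hGK : G ≤ 2 * K) (hN : ∀ n ∈ N0, X < n ∧ n = g n * r n ∧ G ≤ g n ∧ g n < 2 * G)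
    (hM : ∀ b ∈ M, (K : ℝ) / (3 * H) ≤ (N0.filter (· / K = b)).card) (μ0 : (0 : ℝ) < M.card)
    {R τ : ℝ} (R0 : 0 < R) (hR : ((N0.image r).card : ℝ) ≤ R) (τ0 : 0 < τ)
    (hτ : ∀ a : ℕ, a ≤ (2 * G) ^ s → tau a ≤ τ) (hW : G ^ (2 * s) ≤ X / K) :
    (M.card * K / (324 * τ ^ 2 * (H : ℝ) ^ 2 * R)) ^ s ≤
      (4 * s * 8 ^ s + 1) * (1 + 8 ^ s) * √M.card := by
  have H0 : (0 : ℝ) < H := by exact_mod_cast hH
  have K0 : (0 : ℝ) < K := by exact_mod_cast (by omega : 0 < K)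
  set N := N0.filter (· / K ∈ M)
  have NN : N ⊆ N0 := filter_subset _ _
  have a1 : ((N.image (· / K)).card : ℝ) ≤ M.card := by
    exact_mod_cast card_le_card (image_subset_iff.2 fun n hn => (mem_filter.1 hn).2)
  have a2 : ((N.image r).card : ℝ) ≤ R :=
    le_trans (by exact_mod_cast card_le_card (image_subset_image NN)) hR
  have a3 : M.card * ((K : ℝ) / (3 * H)) ≤ N.card := by
    rw [card_eq_sum_card_fiberwise (s := N) (f := (· / K)) (t := M)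
      fun n hn => (mem_filter.1 hn).2, ← nsmul_eq_mul]
    push_cast
    refine card_nsmul_le_sum _ _ _ fun b hb => (hM b hb).trans ?_
    exact_mod_cast card_le_card fun n hn => mem_filter.2 ⟨mem_filter.2 ⟨(mem_filter.1 hn).1,
      by rw [(mem_filter.1 hn).2]; exact hb⟩, (mem_filter.1 hn).2⟩
  have hw := walk (N := N) (s := s) g r hG hGK (fun n hn => (hN n (NN hn)).2)
    (fun n hn => Nat.div_le_div_right (hN n (NN hn)).1.le) hW (d1 := K / (3 * H) / 3)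
    (d2 := M.card * (K / (3 * H)) / 3 / R) (by positivity) (by positivity) τ0 hτ a1 (by
      have b1 : (0 : ℝ) < M.card * (K / (3 * H)) := by positivity
      have b2 : M.card * ((K : ℝ) / (3 * H)) / 3 / R * (N.image r).card ≤
          M.card * (K / (3 * H)) / 3 := by
        rw [div_mul_eq_mul_div, div_le_iff₀ R0]; gcongr
      have b3 := mul_le_mul_of_nonneg_left a1 (show 0 ≤ (K : ℝ) / (3 * H) / 3 by positivity)
      linarith)
  rwa [show (K : ℝ) / (3 * H) / 3 * (M.card * (K / (3 * H)) / 3 / R) / (4 * τ ^ 2 * K) =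
    M.card * K / (324 * τ ^ 2 * (H : ℝ) ^ 2 * R) by field_simp; ring] at hw

theorem direct_case {N0 : Finset ℕ} {X K G H β : ℕ} (g r : ℕ → ℕ) (hH : 1 ≤ H) (hG : 1 ≤ G)
    (hGK : G ≤ 2 * K) (hKX : K ^ 3 ≤ 4 * X ^ 2)
    (hN : ∀ n ∈ N0, X < n ∧ n = g n * r n ∧ G ≤ g n ∧ g n < 2 * G)
    (hβ : (K : ℝ) / (3 * H) ≤ (N0.filter (· / K = β)).card) {R : ℝ} (R0 : 0 < R)
    (hR : ((N0.image r).card : ℝ) ≤ R) (hX : 1 ≤ X) (hW : X / K < G ^ 2) :
    (X : ℝ) ≤ 16384 * (3 * H * R) ^ 3 := by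
  have hK : 0 < K := by omega
  have H0 : (0 : ℝ) < H := by exact_mod_cast hH
  have K0 : (0 : ℝ) < K := by exact_mod_cast hK
  have G0 : (0 : ℝ) < G := by exact_mod_cast hG
  have X0 : (0 : ℝ) < X := by exact_mod_cast hX
  have GK : (G : ℝ) ≤ 2 * K := by exact_mod_cast hGK
  have a1 : (X : ℝ) ≤ 4 * K ^ 3 := by
    have b1 := ((Nat.div_lt_iff_lt_mul hK).1 hW).le
    have b2 : G ^ 2 * K ≤ (2 * K) ^ 2 * K := by gcongr
    have b3 : X ≤ 4 * K ^ 3 := b1.trans (b2.trans (le_of_eq (by ring)))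
    exact_mod_cast b3
  set F := N0.filter (· / K = β)
  have FN : F ⊆ N0 := filter_subset _ _
  have a2 : (F.card : ℝ) ≤ R * (K / (X / (4 * G)) + 1) := by
    refine (((Col.of_fun F (N0.image r) r fun n hn => mem_image_of_mem _ (FN hn)).mul
      (Col.window F (fun n => ((n % K : ℕ) : ℝ)) (l := X / (4 * G)) (by positivity) K
        (by positivity) fun n _ => ⟨by positivity,
          by exact_mod_cast (Nat.mod_lt _ hK).le⟩)).mono ?_ (by gcongr)).card_le_one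
    rintro n hn n' hn' ⟨e1, e2⟩
    obtain ⟨c1, c2, -, c3⟩ := hN n (FN hn)
    have b1 : (X : ℝ) / (4 * G) < r n := by
      rw [div_lt_iff₀ (by positivity)]
      have := Nat.mul_le_mul_right (r n) (show g n ≤ 4 * G by omega)
      rw [← c2, mul_comm] at this
      exact_mod_cast c1.trans_le this
    have b2 : |((n' % K : ℕ) : ℤ) - (n % K : ℕ)| < r n := by exact_mod_cast e2.trans_lt b1
    have b3 := Nat.div_add_mod n K
    have b4 := Nat.div_add_mod n' K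
    rw [(mem_filter.1 hn).2] at b3
    rw [(mem_filter.1 hn').2] at b4
    have b5 : (r n : ℤ) ∣ (n' : ℤ) - n := by
      refine dvd_sub ?_ ?_
      · rw [e1]; exact_mod_cast Dvd.intro_left _ (hN n' (FN hn')).2.1.symm
      · exact_mod_cast Dvd.intro_left _ c2.symm
    rw [abs_lt] at b2
    have := Int.eq_zero_of_abs_lt_dvd b5 (by rw [abs_lt]; omega)
    omega
  have a3 : (K : ℝ) * X ≤ 3 * H * R * (8 * K * K + X) := by
    have b1 := hβ.trans a2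
    rw [div_le_iff₀ (by positivity)] at b1
    calc (K : ℝ) * X ≤ R * (K / (X / (4 * G)) + 1) * (3 * H) * X := by gcongr
      _ = 3 * H * R * (4 * G * K + X) := by field_simp
      _ ≤ _ := by gcongr ?_ * (?_ * _ + _); linarith
  have Λ0 : 0 < 3 * H * R := by positivity
  generalize 3 * H * R = Λ at *
  have Λ3 : 0 < Λ ^ 3 := by positivity
  rcases le_or_gt (K : ℝ) (2 * Λ) with h | h
  · have : (K : ℝ) ^ 3 ≤ (2 * Λ) ^ 3 := by gcongr
    linarith [show (2 * Λ) ^ 3 = 8 * Λ ^ 3 by ring]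
  · have b1 : (X : ℝ) ≤ 16 * Λ * K := by
      refine le_of_mul_le_mul_left ?_ K0
      nlinarith [mul_lt_mul_of_pos_right h X0]
    have b2 : (K : ℝ) ^ 3 ≤ 4 * X ^ 2 := by exact_mod_cast hKX
    refine le_of_mul_le_mul_right ?_ (show (0 : ℝ) < X ^ 2 by positivity)
    calc (X : ℝ) * X ^ 2 = X ^ 3 := by ring
      _ ≤ (16 * Λ * K) ^ 3 := by gcongr
      _ = 4096 * Λ ^ 3 * K ^ 3 := by ring
      _ ≤ 4096 * Λ ^ 3 * (4 * X ^ 2) := by gcongr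
      _ = _ := by ring

theorem side_cond {Λ Q P γ ξ K : ℝ} {t : ℕ} (Λ0 : 0 < Λ) (Q1 : 1 ≤ Q) (P1 : 1 ≤ P) (γ1 : 1 ≤ γ)
    (K1 : 1 ≤ K) (h : Λ * γ ≤ Q * P * ξ)
    (h2 : ξ ≤ P ^ (2 * t) ∨ ξ ≤ γ ^ (2 * t + 2) * (2 * K)) :
    Λ ≤ K * (2 * Q * P * γ) ^ (2 * t + 1) := by
  have QP : 1 ≤ Q * P := one_le_mul_of_one_le_of_one_le Q1 P1
  have Z1 : 1 ≤ 2 * Q * P := by linarith
  rcases h2 with b1 | b2
  · have c1 : Q * P ≤ 2 * Q * P * γ := by nlinarith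
    have c2 : P ≤ 2 * Q * P * γ := le_trans (by nlinarith) c1
    calc Λ ≤ Λ * γ := le_mul_of_one_le_right Λ0.le γ1
      _ ≤ Q * P * P ^ (2 * t) := h.trans (by gcongr)
      _ ≤ (2 * Q * P * γ) * (2 * Q * P * γ) ^ (2 * t) := by gcongr
      _ = 1 * (2 * Q * P * γ) ^ (2 * t + 1) := by ring
      _ ≤ _ := by gcongr
  · have b0 : 2 * Q * P ≤ (2 * Q * P) ^ (2 * t + 1) := le_self_pow₀ Z1 (by omega)
    refine le_of_mul_le_mul_right (h.trans ?_) (show 0 < γ by linarith)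
    calc _ ≤ Q * P * (γ ^ (2 * t + 2) * (2 * K)) := by gcongr
      _ = K * ((2 * Q * P) * γ ^ (2 * t + 1)) * γ := by ring
      _ ≤ K * ((2 * Q * P) ^ (2 * t + 1) * γ ^ (2 * t + 1)) * γ := by gcongr
      _ = _ := by rw [← mul_pow]

theorem rpow_side {X K G t : ℕ} (hG : 1 ≤ G) (hGK : G ≤ 2 * K) (h : X / K < G ^ (2 * (t + 2))) :
    (X : ℝ) ^ (13 / 50 : ℝ) ≤ ((G : ℝ) ^ (13 / 50 : ℝ)) ^ (2 * t + 2) * (2 * K) := by
  have K1 : (1 : ℝ) ≤ K := by exact_mod_cast (by omega : 1 ≤ K)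
  have b1 : X ≤ G ^ (2 * t + 2) * (2 * K) ^ 3 :=
    calc X ≤ G ^ (2 * (t + 2)) * K := ((Nat.div_lt_iff_lt_mul (by omega)).1 h).le
      _ = G ^ (2 * t + 2) * (G ^ 2 * K) := by ring
      _ ≤ G ^ (2 * t + 2) * ((2 * K) ^ 2 * (2 * K)) := by gcongr; omega
      _ = _ := by ring
  calc _ ≤ ((G : ℝ) ^ (2 * t + 2) * (2 * K) ^ 3) ^ (13 / 50 : ℝ) := by
        gcongr; exact_mod_cast b1
    _ = ((G : ℝ) ^ (13 / 50 : ℝ)) ^ (2 * t + 2) * (2 * K : ℝ) ^ (39 / 50 : ℝ) := by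
        rw [Real.mul_rpow (by positivity) (by positivity), Real.rpow_pow_comm (by positivity),
          ← Real.rpow_natCast (2 * K : ℝ), ← Real.rpow_mul (by positivity)]
        norm_num
    _ ≤ ((G : ℝ) ^ (13 / 50 : ℝ)) ^ (2 * t + 2) * (2 * K : ℝ) ^ (1 : ℝ) := by gcongr <;> linarith
    _ = _ := by rw [Real.rpow_one]

open Classical in
theorem class_count {ε : ℝ} (hε : 0 < ε) (hε1 : ε ≤ 1 / 50) : ∃ C : ℝ, 0 < C ∧
    ∀ X K G H : ℕ, 1 ≤ H → 1 ≤ G → G ≤ 2 * K → K ^ 3 ≤ 4 * X ^ 2 → ∀ E : Finset ℕ,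
      (∀ n ∈ E, ∃ m, (m < n ∧ n ≤ m + 2 * K) ∧ X ≤ m ∧ m < 2 * X ∧
        K ≤ H * ((Ioc m (m + 2 * K)).filter (Good G H)).card) →
        (E.card : ℝ) ≤ C * (H : ℝ) ^ 420 * (X : ℝ) ^ (13 / 50 + ε) := by
  obtain ⟨t0, ht0⟩ := exists_nat_ge (1 / ε)
  obtain ⟨C0, C01, hC0⟩ := near_count (ε := ε / 4) (by positivity) (by linarith)
  obtain ⟨C1, C10, hC1⟩ := tau_le (ε := ε / 4 / (2 * (t0 + 1 : ℕ))) (by positivity)
  obtain ⟨c, hc⟩ : ∃ c : ℝ, c = (4 * (t0 + 1 : ℕ) * 8 ^ (t0 + 1) + 1) * (1 + 8 ^ (t0 + 1)) :=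
    ⟨_, rfl⟩
  have c1 : 1 ≤ c := hc ▸ one_le_mul_of_one_le_of_one_le (le_add_of_nonneg_left (by positivity))
    (le_add_of_nonneg_right (by positivity))
  obtain ⟨Q0, hQ0⟩ : ∃ Q0 : ℝ, Q0 = 324 * (8 * (1 + C1) ^ 2) * (6 * C0) := ⟨_, rfl⟩
  have C11 : 1 ≤ (1 + C1) ^ 2 := one_le_pow₀ (by linarith)
  have Q01 : 1 ≤ Q0 := by nlinarith
  refine ⟨18 * c ^ 2 * Q0 ^ 2 + 5 * 16384 ^ 5 * Q0 ^ 15, by positivity,
    fun X K G H hH hG hGK hKX E hE => ?_⟩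
  have hK : 1 ≤ K := by omega
  have hX : 1 ≤ X := Nat.pos_of_ne_zero fun h => by
    have := Nat.pow_le_pow_left hK 3
    simp [h] at hKX; omega
  have hKX2 : K ≤ 2 * X := by
    refine (Nat.pow_le_pow_iff_left (show 3 ≠ 0 by norm_num)).1 (hKX.trans ?_)
    nlinarith [Nat.pow_le_pow_right hX (show 2 ≤ 3 by norm_num)]
  obtain ⟨N0, M, hb, hM, ex⟩ : ∃ N0 M : Finset ℕ, (E.card : ℝ) ≤ M.card * 9 * K ∧
      (∀ b ∈ M, (K : ℝ) / (3 * H) ≤ (N0.filter (· / K = b)).card) ∧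
      ∀ n ∈ N0, (X < n ∧ n ≤ 6 * X) ∧ Good G H n :=
    ⟨_, _, blocks hH hK hKX2 hE, fun b hb => (mem_filter.1 hb).2, fun n hn =>
      ⟨mem_Ioc.1 (mem_filter.1 hn).1, (mem_filter.1 hn).2⟩⟩
  have H1 : (1 : ℝ) ≤ H := by exact_mod_cast hH
  have X1 : (1 : ℝ) ≤ X := by exact_mod_cast hX
  have G1 : (1 : ℝ) ≤ G := by exact_mod_cast hG
  have K1 : (1 : ℝ) ≤ K := by exact_mod_cast hK
  have GK : (G : ℝ) ≤ 2 * K := by exact_mod_cast hGK
  have KX : (K : ℝ) ≤ 2 * X := by exact_mod_cast hKX2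
  rcases M.eq_empty_or_nonempty with e | ⟨β, hβ⟩
  · rw [e] at hb
    exact hb.trans (by simp only [card_empty, Nat.cast_zero, zero_mul]; positivity)
  have μ0 : (0 : ℝ) < M.card := by exact_mod_cast card_pos.2 ⟨β, hβ⟩
  choose! g r g1 g2 g3 g4 using fun n hn => (ex n hn).2
  have hN : ∀ n ∈ N0, X < n ∧ n = g n * r n ∧ G ≤ g n ∧ g n < 2 * G := fun n hn =>
    ⟨(ex n hn).1.1, g3 n hn, g1 n hn, g2 n hn⟩
  have Y1 : (1 : ℝ) ≤ 6 * X / G := by rw [le_div_iff₀ (by linarith)]; linarith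
  have hR := hC0 H _ hH Y1 (N0.image r) fun x hx => by
    obtain ⟨n, hn, rfl⟩ := mem_image.1 hx
    refine ⟨?_, g4 n hn⟩
    rw [le_div_iff₀ (by linarith)]
    have := (Nat.mul_le_mul_right (r n) (g1 n hn)).trans ((g3 n hn).symm.le.trans (ex n hn).1.2)
    rw [mul_comm]
    exact_mod_cast this
  obtain ⟨γ, hγ⟩ : ∃ γ, γ = (G : ℝ) ^ (13 / 50 : ℝ) := ⟨_, rfl⟩
  obtain ⟨ξ, hξ⟩ : ∃ ξ, ξ = (X : ℝ) ^ (13 / 50 : ℝ) := ⟨_, rfl⟩
  obtain ⟨P, hP⟩ : ∃ P, P = (X : ℝ) ^ (ε / 4) := ⟨_, rfl⟩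
  have γ1 : 1 ≤ γ := hγ ▸ Real.one_le_rpow G1 (by norm_num)
  have ξ1 : 1 ≤ ξ := hξ ▸ Real.one_le_rpow X1 (by norm_num)
  have P1 : 1 ≤ P := hP ▸ Real.one_le_rpow X1 (by positivity)
  have Ppow : ∀ n : ℕ, P ^ n = (X : ℝ) ^ (ε / 4 * n) := fun n => by
    rw [hP, ← Real.rpow_natCast, ← Real.rpow_mul (by linarith)]
  have eX : (X : ℝ) ^ (13 / 50 + ε) = ξ * P ^ 4 := by
    rw [Ppow, Real.rpow_add (by linarith), hξ]; congr 2; push_cast; ring
  have hRγ : C0 * (H : ℝ) ^ 26 * (6 * X / G : ℝ) ^ (13 / 50 + ε / 4) * γ ≤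
      6 * C0 * (H : ℝ) ^ 26 * (P * ξ) := by
    have a1 : (6 * X / G : ℝ) ^ (13 / 50 + ε / 4) * γ ≤ 6 * (P * ξ) :=
      calc _ ≤ (6 * X / G : ℝ) ^ (13 / 50 + ε / 4) * (G : ℝ) ^ (13 / 50 + ε / 4) := by
            gcongr; exact hγ ▸ Real.rpow_le_rpow_of_exponent_le G1 (by linarith)
        _ = (6 : ℝ) ^ (13 / 50 + ε / 4) * (P * ξ) := by
            rw [← Real.mul_rpow (by positivity) (by positivity), div_mul_cancel₀ _ (by linarith),
              Real.mul_rpow (by norm_num) (by positivity),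
              Real.rpow_add (by linarith : 0 < (X : ℝ)), mul_comm P, hξ, hP]
        _ ≤ (6 : ℝ) ^ (1 : ℝ) * (P * ξ) := by gcongr <;> linarith
        _ = _ := by rw [Real.rpow_one]
    calc _ = C0 * (H : ℝ) ^ 26 * ((6 * X / G : ℝ) ^ (13 / 50 + ε / 4) * γ) := by ring
      _ ≤ C0 * (H : ℝ) ^ 26 * (6 * (P * ξ)) := by gcongr
      _ = _ := by ring
  have R0 : 0 < C0 * (H : ℝ) ^ 26 * (6 * X / G : ℝ) ^ (13 / 50 + ε / 4) := by positivity
  generalize C0 * (H : ℝ) ^ 26 * (6 * X / G : ℝ) ^ (13 / 50 + ε / 4) = R at hR hRγ R0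
  obtain ⟨Q, hQ⟩ : ∃ Q, Q = Q0 * (H : ℝ) ^ 28 := ⟨_, rfl⟩
  have Q1 : 1 ≤ Q := hQ ▸ one_le_mul_of_one_le_of_one_le Q01 (one_le_pow₀ H1)
  rw [eX]
  by_cases hW : G ^ 2 ≤ X / K
  · obtain ⟨τ, τ0, τ2, hτ⟩ : ∃ τ : ℝ, 0 < τ ∧ τ ^ 2 ≤ 8 * (1 + C1) ^ 2 * P ∧
        ∀ a : ℕ, a ≤ (8 * X) ^ (t0 + 1) → tau a ≤ τ := by
      refine ⟨(1 + C1) * (((8 * X : ℝ)) ^ (t0 + 1)) ^ (ε / 4 / (2 * (t0 + 1 : ℕ))), by positivity,
        ?_, fun a ha => (hC1 a).trans ?_⟩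
      · rw [mul_pow, ← Real.rpow_natCast (8 * X : ℝ), ← Real.rpow_mul (by positivity),
          ← Real.rpow_natCast (_ ^ _), ← Real.rpow_mul (by positivity),
          show ((t0 + 1 : ℕ) : ℝ) * (ε / 4 / (2 * (t0 + 1 : ℕ))) * (2 : ℕ) = ε / 4 by
            push_cast; field_simp, Real.mul_rpow (by norm_num) (by positivity), ← hP]
        have : (8 : ℝ) ^ (ε / 4) ≤ 8 ^ (1 : ℝ) := by gcongr <;> linarith
        rw [Real.rpow_one] at this
        calc _ ≤ (1 + C1) ^ 2 * (8 * P) := by gcongr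
          _ = _ := by ring
      · gcongr
        · linarith
        · exact_mod_cast ha
    obtain ⟨t, ht1, ht2, ht3⟩ : ∃ t, t ≤ t0 ∧ G ^ (2 * (t + 1)) ≤ X / K ∧
        (t = t0 ∨ X / K < G ^ (2 * (t + 2))) := by
      have a1 := Nat.findGreatest_le (P := fun t => G ^ (2 * (t + 1)) ≤ X / K) t0
      refine ⟨_, a1, Nat.findGreatest_spec (P := fun t => G ^ (2 * (t + 1)) ≤ X / K)
        (Nat.zero_le t0) hW, a1.eq_or_lt.imp id fun h => not_le.1 ?_⟩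
      exact Nat.findGreatest_is_greatest (P := fun t => G ^ (2 * (t + 1)) ≤ X / K)
        (Nat.lt_succ_self _) h
    have hw := walk_case g r hH hG hGK hN hM μ0 R0 hR τ0 (fun a ha => hτ a (ha.trans
      ((Nat.pow_le_pow_left (by omega) _).trans (Nat.pow_le_pow_right (by omega) (by omega))))) ht2
    have Λ0 : 0 < 324 * τ ^ 2 * (H : ℝ) ^ 2 * R := by positivity
    have hΛγ : 324 * τ ^ 2 * (H : ℝ) ^ 2 * R * γ ≤ Q * P ^ 2 * ξ :=
      calc _ = 324 * τ ^ 2 * (H : ℝ) ^ 2 * (R * γ) := by ring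
        _ ≤ 324 * (8 * (1 + C1) ^ 2 * P) * (H : ℝ) ^ 2 * (6 * C0 * (H : ℝ) ^ 26 * (P * ξ)) := by
          gcongr
        _ = _ := by rw [hQ, hQ0]; ring
    generalize 324 * τ ^ 2 * (H : ℝ) ^ 2 * R = Λ at hw Λ0 hΛγ
    have fin := endgame (Z := 2 * Q * P ^ 2 * γ) μ0 (by linarith) Λ0 (by positivity) c1
      (hw.trans (by rw [hc]; gcongr <;> norm_num))
      (side_cond Λ0 Q1 (one_le_pow₀ P1) γ1 K1 hΛγ (ht3.imp (fun h => by
        rw [← pow_mul, Ppow, hξ, h]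
        refine Real.rpow_le_rpow_of_exponent_le X1 ?_
        rw [div_le_iff₀ hε] at ht0
        push_cast; linarith) fun h => hξ ▸ hγ ▸ rpow_side hG hGK h))
    calc (E.card : ℝ) ≤ 9 * (M.card * K) := by linarith
      _ ≤ 9 * (c ^ 2 * (Λ * γ) * (2 * Q * P ^ 2)) := by linarith
      _ ≤ 9 * (c ^ 2 * (Q * P ^ 2 * ξ) * (2 * Q * P ^ 2)) := by gcongr
      _ = 18 * c ^ 2 * Q0 ^ 2 * (H : ℝ) ^ 56 * (ξ * P ^ 4) := by rw [hQ]; ring
      _ ≤ _ := by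
        gcongr
        · exact le_add_of_nonneg_right (by positivity)
        · norm_num
  · have a4 := direct_case g r hH hG hGK hKX hN (hM β hβ) R0 hR hX (not_le.1 hW)
    obtain ⟨x, hx⟩ : ∃ x, x = (X : ℝ) ^ (1 / 50 : ℝ) := ⟨_, rfl⟩
    have x1 : 1 ≤ x := hx ▸ Real.one_le_rpow X1 (by norm_num)
    have xpow : ∀ n : ℕ, x ^ n = (X : ℝ) ^ (1 / 50 * n : ℝ) := fun n => by
      rw [hx, ← Real.rpow_natCast, ← Real.rpow_mul (by linarith)]
    have x13 : ξ = x ^ 13 := by rw [xpow, hξ]; norm_num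
    have x50 : (X : ℝ) = x ^ 50 := by rw [xpow]; norm_num
    have a5 : 3 * H * R ≤ Q * x ^ 14 := by
      have b1 : P ≤ x := hP ▸ hx ▸ Real.rpow_le_rpow_of_exponent_le X1 (by linarith)
      calc _ ≤ 3 * H * (R * γ) := by gcongr; exact le_mul_of_one_le_right R0.le γ1
        _ ≤ (324 * (8 * (1 + C1) ^ 2)) * H ^ 2 * (6 * C0 * (H : ℝ) ^ 26 * (x * x ^ 13)) := by
          gcongr ?_ * ?_ * ?_
          · linarith
          · exact le_self_pow₀ H1 (by norm_num)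
          · exact hRγ.trans (by rw [x13]; gcongr)
        _ = _ := by rw [hQ, hQ0]; ring
    have a6 : x ^ 8 ≤ 16384 * Q ^ 3 := by
      refine le_of_mul_le_mul_right ?_ (show 0 < x ^ 42 by positivity)
      calc x ^ 8 * x ^ 42 = X := by rw [x50]; ring
        _ ≤ 16384 * (Q * x ^ 14) ^ 3 := a4.trans (by gcongr)
        _ = _ := by ring
    have a7 : E.card ≤ 5 * X := by
      refine (card_le_card (t := Ioc X (6 * X)) fun n hn => ?_).trans (by simp; omega)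
      obtain ⟨m, h⟩ := hE n hn
      exact mem_Ioc.2 (by omega)
    calc (E.card : ℝ) ≤ 5 * x ^ 50 := by rw [← x50]; exact_mod_cast a7
      _ ≤ 5 * x ^ 53 := by gcongr; norm_num
      _ = 5 * (x ^ 8) ^ 5 * (ξ * 1) := by rw [x13]; ring
      _ ≤ 5 * (16384 * Q ^ 3) ^ 5 * (ξ * P ^ 4) := by gcongr; exact one_le_pow₀ P1
      _ = 5 * 16384 ^ 5 * Q0 ^ 15 * (H : ℝ) ^ 420 * (ξ * P ^ 4) := by rw [hQ]; ring
      _ ≤ _ := by gcongr; exact le_add_of_nonneg_left (by positivity)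

end Pool.Agent.P.MP_baf437_nt
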