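import Pool.Agent.P.MP_baf437_nt.Basic

/-! Points on a parametrised rational curve: a congruence and a size condition force equality. -/

namespace Pool.Agent.P.MP_baf437_nt

open Finset Polynomial
open Pool.Agent.P.MP_0ad054_nt (tau two_pow_le_tau one_le_tau)

/-- the binary form of degree `b` with integer coefficients `a` -/
def ev {R : Type} [CommRing R] (b : ℕ) (a : ℕ → ℤ) (y1 y2 : R) : R :=
  ∑ j ∈ range (b + 1), (a j : R) * y1 ^ (b - j) * y2 ^ j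

/-- the binary form obtained by substituting the parametrisation in the equation -/
def FF {R : Type} [CommRing R] (p q b : ℕ) (a1 a2 : ℤ) (A B : ℕ → ℤ) (y1 y2 : R) : R :=
  (a1 : R) * ev b A y1 y2 ^ p * y1 ^ q - (a2 : R) * ev b B y1 y2 ^ p * y2 ^ q

theorem map_ev {R S : Type} [CommRing R] [CommRing S] (f : R →+* S) (b : ℕ) (a : ℕ → ℤ)
    (y1 y2 : R) : f (ev b a y1 y2) = ev b a (f y1) (f y2) := by
  simp [ev, map_sum]

theorem map_FF {R S : Type} [CommRing R] [CommRing S] (f : R →+* S) (p q b : ℕ) (a1 a2 : ℤ)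
    (A B : ℕ → ℤ) (y1 y2 : R) :
    f (FF p q b a1 a2 A B y1 y2) = FF p q b a1 a2 A B (f y1) (f y2) := by
  simp [FF, map_ev]

theorem ev_smul {R : Type} [CommRing R] (b : ℕ) (a : ℕ → ℤ) (c y1 y2 : R) :
    ev b a (c * y1) (c * y2) = c ^ b * ev b a y1 y2 := by
  unfold ev
  rw [mul_sum]
  refine sum_congr rfl fun j hj => ?_
  have : c ^ b = c ^ (b - j) * c ^ j := by
    rw [← pow_add]; congr 1; rw [mem_range] at hj; omega
  rw [this]; ring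

theorem FF_smul {R : Type} [CommRing R] (p q b : ℕ) (a1 a2 : ℤ) (A B : ℕ → ℤ) (c y1 y2 : R) :
    FF p q b a1 a2 A B (c * y1) (c * y2) = c ^ (b * p + q) * FF p q b a1 a2 A B y1 y2 := by
  unfold FF
  rw [ev_smul, ev_smul]; ring

theorem natDegree_ev {K : Type} [CommRing K] (b : ℕ) (a : ℕ → ℤ) {y1 y2 : K[X]}
    (h1 : y1.natDegree ≤ 1) (h2 : y2.natDegree ≤ 1) : (ev b a y1 y2).natDegree ≤ b := by
  unfold ev
  refine natDegree_sum_le_of_forall_le _ _ fun j hj => ?_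
  rw [mem_range] at hj
  have e1 := natDegree_pow_le_of_le (b - j) h1
  have e2 := natDegree_pow_le_of_le j h2
  have e0 : ((a j : ℤ) : K[X]).natDegree ≤ 0 := by simp
  have := natDegree_mul_le_of_le (natDegree_mul_le_of_le e0 e1) e2
  omega

theorem natDegree_FF {K : Type} [CommRing K] (p q b : ℕ) (a1 a2 : ℤ) (A B : ℕ → ℤ) {y1 y2 : K[X]}
    (h1 : y1.natDegree ≤ 1) (h2 : y2.natDegree ≤ 1) :
    (FF p q b a1 a2 A B y1 y2).natDegree ≤ b * p + q := by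
  unfold FF
  have aux : ∀ (a : ℤ) (C : ℕ → ℤ) (y : K[X]), y.natDegree ≤ 1 →
      ((a : K[X]) * ev b C y1 y2 ^ p * y ^ q).natDegree ≤ b * p + q := by
    intro a C y hy
    have e0 : ((a : ℤ) : K[X]).natDegree ≤ 0 := by simp
    have e1 := natDegree_pow_le_of_le p (natDegree_ev b C h1 h2)
    have e2 := natDegree_pow_le_of_le q hy
    have := natDegree_mul_le_of_le (natDegree_mul_le_of_le e0 e1) e2
    rw [mul_comm b p]
    omega
  exact (natDegree_sub_le _ _).trans (max_le (aux _ _ _ h1) (aux _ _ _ h2))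

theorem norm_prod_le (s : Multiset ℂ) {y1 y2 z1 z2 : ℂ} (hy : y1 ≠ 0) (hz : z1 ≠ 0) {c : ℝ}
    (hc : 0 ≤ c) (h : ∀ ξ ∈ s, ‖z2 - ξ * z1‖ ≤ c * ‖y2 - ξ * y1‖) :
    ‖z1 ^ s.card * (s.map fun ξ => z2 / z1 - ξ).prod‖ ≤
      c ^ s.card * ‖y1 ^ s.card * (s.map fun ξ => y2 / y1 - ξ).prod‖ := by
  induction s using Multiset.induction_on with
  | empty => simp
  | cons a s ih =>
    have h1 := ih fun ξ hξ => h ξ (Multiset.mem_cons_of_mem hξ)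
    have h2 := h a (Multiset.mem_cons_self _ _)
    have e : ∀ u1 u2 : ℂ, u1 ≠ 0 →
        u1 ^ (a ::ₘ s).card * ((a ::ₘ s).map fun ξ => u2 / u1 - ξ).prod =
        (u2 - a * u1) * (u1 ^ s.card * (s.map fun ξ => u2 / u1 - ξ).prod) := by
      intro u1 u2 hu
      rw [Multiset.map_cons, Multiset.prod_cons, Multiset.card_cons, pow_succ]
      field_simp
    rw [e _ _ hz, e _ _ hy, norm_mul, norm_mul (y2 - a * y1), Multiset.card_cons, pow_succ]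
    calc _ ≤ (c * ‖y2 - a * y1‖) *
          (c ^ s.card * ‖y1 ^ s.card * (s.map fun ξ => y2 / y1 - ξ).prod‖) :=
          mul_le_mul h2 h1 (norm_nonneg _) (by positivity)
      _ = _ := by ring

theorem growth (φ : ℂ[X]) {d : ℕ} (hd : φ.natDegree ≤ d) {y1 y2 z1 z2 : ℂ} (hy : y1 ≠ 0)
    (hz : z1 ≠ 0) {c : ℝ} (hc : 0 ≤ c) (h1 : ‖z1‖ ≤ c * ‖y1‖)
    (h : ∀ ξ ∈ φ.roots, ‖z2 - ξ * z1‖ ≤ c * ‖y2 - ξ * y1‖) :
    ‖z1 ^ d * φ.eval (z2 / z1)‖ ≤ c ^ d * ‖y1 ^ d * φ.eval (y2 / y1)‖ := by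
  have hs : φ.Splits := IsAlgClosed.splits φ
  have hcard : φ.roots.card = φ.natDegree := (splits_iff_card_roots.1 hs)
  have e : ∀ u1 u2 : ℂ, u1 ^ d * φ.eval (u2 / u1) = φ.leadingCoeff * u1 ^ (d - φ.roots.card) *
      (u1 ^ φ.roots.card * (φ.roots.map fun ξ => u2 / u1 - ξ).prod) := by
    intro u1 u2
    have h0 := hs.eq_prod_roots
    have h2 : φ.eval (u2 / u1) = φ.leadingCoeff * (φ.roots.map fun ξ => u2 / u1 - ξ).prod := by
      conv_lhs => rw [h0]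
      simp [eval_multiset_prod]
    have h3 : u1 ^ d = u1 ^ (d - φ.roots.card) * u1 ^ φ.roots.card := by
      rw [← pow_add]; congr 1; omega
    rw [h2, h3]; ring
  have k1 := norm_prod_le φ.roots hy hz hc h
  have k2 : ‖z1 ^ (d - φ.roots.card)‖ ≤ c ^ (d - φ.roots.card) * ‖y1 ^ (d - φ.roots.card)‖ := by
    rw [norm_pow, norm_pow, ← mul_pow]; gcongr
  have h3 : c ^ d = c ^ (d - φ.roots.card) * c ^ φ.roots.card := by
    rw [← pow_add]; congr 1; omega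
  rw [e, e, norm_mul, norm_mul, norm_mul (_ * _), norm_mul φ.leadingCoeff, h3]
  calc _ ≤ ‖φ.leadingCoeff‖ * (c ^ (d - φ.roots.card) * ‖y1 ^ (d - φ.roots.card)‖) *
        (c ^ φ.roots.card * ‖y1 ^ φ.roots.card * (φ.roots.map fun ξ => y2 / y1 - ξ).prod‖) := by
        gcongr
    _ = _ := by ring

theorem poly_const {p q : ℕ} (hp : 2 ≤ p) (hq : 2 ≤ q) {a1 a2 P1 P2 Y1 Y2 : ℚ[X]} {c : ℚ}
    (ha1 : a1.natDegree = 0) (ha2 : a2.natDegree = 0)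
    (hc : c ≠ 0) (hU : a1 * P1 ^ p * Y1 ^ q ≠ 0) (hV : a2 * P2 ^ p * Y2 ^ q ≠ 0)
    (h : a1 * P1 ^ p * Y1 ^ q - a2 * P2 ^ p * Y2 ^ q = C c) :
    Y1.natDegree = 0 ∧ Y2.natDegree = 0 := by
  obtain ⟨p, rfl⟩ : ∃ r, p = r + 2 := ⟨p - 2, by omega⟩
  obtain ⟨q, rfl⟩ : ∃ r, q = r + 2 := ⟨q - 2, by omega⟩
  have dv : ∀ a P Y : ℚ[X], a.natDegree = 0 →
      P ^ (p + 1) * Y ^ (q + 1) ∣ derivative (a * P ^ (p + 2) * Y ^ (q + 2)) := by
    intro a P Y ha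
    have : derivative a = 0 := derivative_of_natDegree_zero ha
    refine ⟨a * (((p + 2 : ℕ) : ℚ[X]) * derivative P * Y + P * ((q + 2 : ℕ) * derivative Y)), ?_⟩
    simp only [derivative_mul, derivative_pow, this, map_natCast]
    simp only [show p + 2 - 1 = p + 1 from rfl, show q + 2 - 1 = q + 1 from rfl]
    push_cast; ring
  have dg : ∀ a P Y : ℚ[X], a.natDegree = 0 → a * P ^ (p + 2) * Y ^ (q + 2) ≠ 0 →
      (a * P ^ (p + 2) * Y ^ (q + 2)).natDegree = (p + 2) * P.natDegree + (q + 2) * Y.natDegree ∧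
      (P ^ (p + 1) * Y ^ (q + 1)).natDegree = (p + 1) * P.natDegree + (q + 1) * Y.natDegree ∧
      P ^ (p + 1) * Y ^ (q + 1) ≠ 0 := by
    intro a P Y ha h0
    have a0 : a ≠ 0 := fun e => h0 (by simp [e])
    have P0 : P ≠ 0 := fun e => h0 (by simp [e])
    have Y0 : Y ≠ 0 := fun e => h0 (by simp [e])
    refine ⟨?_, ?_, mul_ne_zero (pow_ne_zero _ P0) (pow_ne_zero _ Y0)⟩
    · rw [natDegree_mul (mul_ne_zero a0 (pow_ne_zero _ P0)) (pow_ne_zero _ Y0),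
        natDegree_mul a0 (pow_ne_zero _ P0), natDegree_pow, natDegree_pow, ha, zero_add]
    · rw [natDegree_mul (pow_ne_zero _ P0) (pow_ne_zero _ Y0), natDegree_pow, natDegree_pow]
  obtain ⟨u1, u2, u3⟩ := dg _ _ _ ha1 hU
  obtain ⟨v1, v2, v3⟩ := dg _ _ _ ha2 hV
  have d1 := dv a1 P1 Y1 ha1
  have d2 := dv a2 P2 Y2 ha2
  set U := a1 * P1 ^ (p + 2) * Y1 ^ (q + 2) with hUd
  set V := a2 * P2 ^ (p + 2) * Y2 ^ (q + 2) with hVd
  have hder : derivative U = derivative V := by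
    have := congrArg derivative h
    rwa [derivative_sub, derivative_C, sub_eq_zero] at this
  have cop : IsCoprime U V := by
    refine ⟨C c⁻¹, -C c⁻¹, ?_⟩
    have : C c⁻¹ * U + -C c⁻¹ * V = C c⁻¹ * (U - V) := by ring
    rw [this, h, ← C_mul, inv_mul_cancel₀ hc, C_1]
  have cop2 : IsCoprime (P1 ^ (p + 1) * Y1 ^ (q + 1)) (P2 ^ (p + 1) * Y2 ^ (q + 1)) :=
    (cop.of_isCoprime_of_dvd_left ⟨a1 * P1 * Y1, by rw [hUd]; ring⟩).of_isCoprime_of_dvd_right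
      ⟨a2 * P2 * Y2, by rw [hVd]; ring⟩
  by_cases h0 : derivative U = 0
  · have e1 := derivative_eq_zero.1 h0
    have e2 := derivative_eq_zero.1 (hder ▸ h0 : derivative V = 0)
    constructor <;> nlinarith [Nat.zero_le P1.natDegree, Nat.zero_le P2.natDegree]
  · exfalso
    have d3 := natDegree_le_of_dvd (cop2.mul_dvd d1 (hder ▸ d2)) h0
    rw [natDegree_mul u3 v3, u2, v2] at d3
    have l1 : (derivative U).natDegree < U.natDegree :=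
      natDegree_derivative_lt fun e => h0 (derivative_of_natDegree_zero e)
    have l2 : (derivative V).natDegree < V.natDegree :=
      natDegree_derivative_lt fun e => h0 (hder ▸ derivative_of_natDegree_zero e)
    rw [← hder] at l2
    nlinarith [Nat.zero_le (p * P1.natDegree), Nat.zero_le (p * P2.natDegree),
      Nat.zero_le (q * Y1.natDegree), Nat.zero_le (q * Y2.natDegree)]

theorem core_eq {p q b : ℕ} (hp : 2 ≤ p) (hq : 2 ≤ q) (hd : b * p + q ≤ 9) {a1 a2 h g : ℤ}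
    (A B : ℕ → ℤ) (ha1 : a1 ≠ 0) (ha2 : a2 ≠ 0) (hg : g ≠ 0) (hh : h ≠ 0)
    {x1 x2 y1 y2 δ1 δ2 : ℤ} (hx1 : x1 ≠ 0) (hx2 : x2 ≠ 0) (hy1 : 0 < y1) (hy2 : y2 ≠ 0)
    (hδ0 : 0 ≤ δ1) (hδ1 : δ1 ≤ y1)
    (e1 : g * x1 = ev b A y1 y2) (e2 : g * x2 = ev b B y1 y2)
    (eq : a1 * x1 ^ p * y1 ^ q - a2 * x2 ^ p * y2 ^ q = h)
    (cls : ∀ j : ℕ, g ∣ ev b A (y1 + j * δ1) (y2 + j * δ2) ∧
      g ∣ ev b B (y1 + j * δ1) (y2 + j * δ2))
    {Q : ℕ} (hQ : IsCoprime (Q : ℤ) g) (q1 : (Q : ℤ) ∣ δ1) (q2 : (Q : ℤ) ∣ δ2)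
    (hQ' : |h| * (50 ^ 9 + 1) < Q)
    (hr : ∀ ξ ∈ (FF p q b a1 a2 A B (1 : ℂ[X]) X).roots,
      ‖((y2 + δ2 : ℤ) : ℂ) - ξ * ((y1 + δ1 : ℤ) : ℂ)‖ ≤ 4 * ‖(y2 : ℂ) - ξ * (y1 : ℂ)‖) :
    δ1 = 0 ∧ δ2 = 0 := by
  have F0 : FF p q b a1 a2 A B y1 y2 = g ^ p * h := by
    unfold FF; rw [← e1, ← e2, ← eq]; push_cast; ring
  set φ := FF p q b a1 a2 A B (1 : ℂ[X]) X with hφ
  have φd : φ.natDegree ≤ b * p + q := natDegree_FF _ _ _ _ _ _ _ (by simp) (by simp)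
  have Fc : ∀ u1 u2 : ℤ, u1 ≠ 0 → ((FF p q b a1 a2 A B u1 u2 : ℤ) : ℂ) =
      (u1 : ℂ) ^ (b * p + q) * φ.eval ((u2 : ℂ) / u1) := by
    intro u1 u2 hu
    have hu' : (u1 : ℂ) ≠ 0 := by exact_mod_cast hu
    have k1 := map_FF (Int.castRingHom ℂ) p q b a1 a2 A B u1 u2
    have k2 := map_FF (evalRingHom ((u2 : ℂ) / u1)) p q b a1 a2 A B (1 : ℂ[X]) X
    simp only [eq_intCast, coe_evalRingHom, eval_one, eval_X] at k1 k2
    rw [k1, hφ, k2, ← FF_smul, mul_one, mul_div_cancel₀ _ hu']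
  have key : ∀ j : ℕ, j ≤ 9 → FF p q b a1 a2 A B (y1 + j * δ1) (y2 + j * δ2) = g ^ p * h := by
    intro j hj
    obtain ⟨⟨X1, hX1⟩, ⟨X2, hX2⟩⟩ := cls j
    set Θ := a1 * X1 ^ p * (y1 + j * δ1) ^ q - a2 * X2 ^ p * (y2 + j * δ2) ^ q with hΘ
    have F1 : FF p q b a1 a2 A B (y1 + j * δ1) (y2 + j * δ2) = g ^ p * Θ := by
      unfold FF; rw [hX1, hX2, hΘ]; push_cast; ring
    have c1 : (Q : ℤ) ∣ g ^ p * (Θ - h) := by
      rw [mul_sub, ← F1, ← F0, ← ZMod.intCast_zmod_eq_zero_iff_dvd]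
      have k1 := map_FF (Int.castRingHom (ZMod Q)) p q b a1 a2 A B y1 y2
      have k2 := map_FF (Int.castRingHom (ZMod Q)) p q b a1 a2 A B (y1 + j * δ1) (y2 + j * δ2)
      simp only [eq_intCast] at k1 k2
      have z1 := (ZMod.intCast_zmod_eq_zero_iff_dvd _ _).2 q1
      have z2 := (ZMod.intCast_zmod_eq_zero_iff_dvd _ _).2 q2
      rw [Int.cast_sub, k1, k2]
      push_cast
      rw [z1, z2]; simp
    have c2 : (Q : ℤ) ∣ Θ - h := (hQ.pow_right (n := p)).dvd_of_dvd_mul_left c1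
    have jj : (j : ℝ) ≤ 9 := by exact_mod_cast hj
    have jz : (0 : ℤ) ≤ j := Int.natCast_nonneg j
    have pos : 0 < y1 + j * δ1 := by positivity
    have gr := growth φ φd (y1 := y1) (y2 := y2) (z1 := ((y1 + j * δ1 : ℤ) : ℂ))
      (z2 := ((y2 + j * δ2 : ℤ) : ℂ)) (by exact_mod_cast hy1.ne') (by exact_mod_cast pos.ne')
      (c := 50) (by norm_num) ?_ ?_
    · rw [← Fc _ _ pos.ne', ← Fc _ _ hy1.ne', F1, F0, Complex.norm_intCast,
        Complex.norm_intCast] at gr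
      have g0 : (0 : ℝ) < |(g : ℝ) ^ p| := by
        have : (g : ℝ) ≠ 0 := by exact_mod_cast hg
        positivity
      push_cast at gr
      rw [abs_mul, abs_mul] at gr
      have s1 : |(Θ : ℝ)| ≤ 50 ^ (b * p + q) * |(h : ℝ)| := by
        refine le_of_mul_le_mul_left ?_ g0
        linarith
      have s2 : (50 : ℝ) ^ (b * p + q) ≤ 50 ^ 9 := pow_le_pow_right₀ (by norm_num) hd
      have s3 : |(Θ : ℝ)| ≤ 50 ^ 9 * |(h : ℝ)| := s1.trans (by gcongr)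
      have s4 : |Θ| ≤ 50 ^ 9 * |h| := by exact_mod_cast s3
      have s5 : |Θ - h| < Q := by
        have := abs_sub Θ h
        linarith
      have := Int.eq_zero_of_abs_lt_dvd c2 s5
      rw [F1, sub_eq_zero.1 this]
    · rw [Complex.norm_intCast, Complex.norm_intCast]
      have : |y1 + j * δ1| ≤ 50 * |y1| := by
        rw [abs_of_pos pos, abs_of_pos hy1]
        have : (j : ℤ) ≤ 9 := by exact_mod_cast hj
        nlinarith
      exact_mod_cast this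
    · intro ξ hξ
      have h1 := hr ξ hξ
      have e : ((y2 + j * δ2 : ℤ) : ℂ) - ξ * ((y1 + j * δ1 : ℤ) : ℂ) =
          ((y2 : ℂ) - ξ * y1) + (j : ℂ) * ((((y2 + δ2 : ℤ) : ℂ) - ξ * ((y1 + δ1 : ℤ) : ℂ)) -
            ((y2 : ℂ) - ξ * y1)) := by push_cast; ring
      rw [e]
      refine (norm_add_le _ _).trans ?_
      rw [norm_mul, Complex.norm_natCast]
      have h2 := norm_sub_le ((((y2 + δ2 : ℤ) : ℂ) - ξ * ((y1 + δ1 : ℤ) : ℂ))) ((y2 : ℂ) - ξ * y1)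
      have h3 := norm_nonneg ((y2 : ℂ) - ξ * y1)
      have h4 : (j : ℝ) * ‖(((y2 + δ2 : ℤ) : ℂ) - ξ * ((y1 + δ1 : ℤ) : ℂ)) - ((y2 : ℂ) - ξ * y1)‖ ≤
          9 * (5 * ‖(y2 : ℂ) - ξ * y1‖) :=
        mul_le_mul jj (by linarith) (norm_nonneg _) (by norm_num)
      linarith
  set Y1 : ℚ[X] := C (y1 : ℚ) + C (δ1 : ℚ) * X with hY1
  set Y2 : ℚ[X] := C (y2 : ℚ) + C (δ2 : ℚ) * X with hY2
  have dY : ∀ u v : ℚ, (C u + C v * X : ℚ[X]).natDegree ≤ 1 := fun u v => by compute_degree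
  have evF : ∀ j : ℕ, (FF p q b a1 a2 A B Y1 Y2).eval (j : ℚ) =
      ((FF p q b a1 a2 A B (y1 + j * δ1) (y2 + j * δ2) : ℤ) : ℚ) := by
    intro j
    have k1 := map_FF (Int.castRingHom ℚ) p q b a1 a2 A B (y1 + j * δ1) (y2 + j * δ2)
    have k2 := map_FF (evalRingHom (j : ℚ)) p q b a1 a2 A B Y1 Y2
    simp only [eq_intCast, coe_evalRingHom] at k1 k2
    rw [k1, k2, hY1, hY2]
    simp [mul_comm]
  have G0 : FF p q b a1 a2 A B Y1 Y2 - C ((g ^ p * h : ℤ) : ℚ) = 0 := by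
    refine eq_zero_of_natDegree_lt_card_of_eval_eq_zero' _
      ((range 10).image (Nat.cast : ℕ → ℚ)) (fun i hi => ?_) ?_
    · obtain ⟨j, hj, rfl⟩ := mem_image.1 hi
      rw [eval_sub, eval_C, evF, key j (by rw [mem_range] at hj; omega), sub_self]
    · rw [card_image_of_injective _ Nat.cast_injective, card_range]
      have := natDegree_FF p q b a1 a2 A B (dY y1 δ1) (dY y2 δ2)
      have h2 := natDegree_sub_le (FF p q b a1 a2 A B Y1 Y2) (C ((g ^ p * h : ℤ) : ℚ))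
      rw [natDegree_C] at h2
      have h3 : (FF p q b a1 a2 A B Y1 Y2).natDegree ≤ 9 := this.trans hd
      omega
  have ev0 : ∀ (D : ℕ → ℤ), (ev b D Y1 Y2).eval 0 = ((ev b D y1 y2 : ℤ) : ℚ) := by
    intro D
    have k1 := map_ev (Int.castRingHom ℚ) b D y1 y2
    have k2 := map_ev (evalRingHom (0 : ℚ)) b D Y1 Y2
    simp only [eq_intCast, coe_evalRingHom] at k1 k2
    rw [k1, k2, hY1, hY2]
    simp
  have nz : ∀ (a x u : ℤ) (D : ℕ → ℤ) (v : ℚ), a ≠ 0 → x ≠ 0 → u ≠ 0 → g * x = ev b D y1 y2 →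
      (a : ℚ[X]) * ev b D Y1 Y2 ^ p * (C (u : ℚ) + C v * X) ^ q ≠ 0 := by
    intro a x u D v ha hx hu e h0
    have := congrArg (eval 0) h0
    simp only [eval_mul, eval_pow, ev0, ← e, eval_intCast, eval_add, eval_C, eval_X, mul_zero,
      add_zero, eval_zero] at this
    have : a * (g * x) ^ p * u ^ q = 0 := by exact_mod_cast this
    exact absurd this (by positivity)
  have fin := poly_const hp hq (a1 := (a1 : ℚ[X])) (a2 := (a2 : ℚ[X])) (by simp) (by simp)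
    (c := ((g ^ p * h : ℤ) : ℚ)) (by exact_mod_cast (by positivity : g ^ p * h ≠ 0))
    (nz _ _ _ _ _ ha1 hx1 hy1.ne' e1) (nz _ _ _ _ _ ha2 hx2 hy2 e2) (sub_eq_zero.1 G0)
  have z : ∀ u v : ℤ, (C (u : ℚ) + C (v : ℚ) * X : ℚ[X]).natDegree = 0 → v = 0 := by
    intro u v h0
    have := coeff_eq_zero_of_natDegree_lt (p := (C (u : ℚ) + C (v : ℚ) * X : ℚ[X])) (n := 1)
      (by omega)
    rw [coeff_add, coeff_C_mul, coeff_X_one, coeff_C, if_neg one_ne_zero] at this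
    simpa using this
  exact ⟨z _ _ fin.1, z _ _ fin.2⟩

/-- points of the counting problem -/
abbrev Pt : Type := (ℤ × ℤ) × (ℤ × ℤ)

/-- a positive primitive pair with entries at most `2 ^ w` -/
def Prim (w : ℕ) (y : ℤ × ℤ) : Prop :=
  0 < y.1 ∧ 0 < y.2 ∧ y.1 ≤ 2 ^ w ∧ y.2 ≤ 2 ^ w ∧ IsCoprime y.1 y.2

/-- a solution of the equation in positive primitive pairs -/
def Sol (p q : ℕ) (a1 a2 h : ℤ) (w : ℕ) (P : Pt) : Prop :=
  Prim w P.1 ∧ Prim w P.2 ∧ a1 * P.1.1 ^ p * P.2.1 ^ q - a2 * P.1.2 ^ p * P.2.2 ^ q = h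

theorem Sol.swap {p q : ℕ} {a1 a2 h : ℤ} {w : ℕ} {P : Pt} (H : Sol p q a1 a2 h w P) :
    Sol q p a1 a2 h w P.swap :=
  ⟨H.2.1, H.1, by have := H.2.2; simp only [Prod.fst_swap, Prod.snd_swap]; linarith⟩

theorem Prim.eq_of_det {w : ℕ} {y z : ℤ × ℤ} (hy : Prim w y) (hz : Prim w z)
    (h : y.1 * z.2 = y.2 * z.1) : y = z := by
  obtain ⟨a1, -, -, -, a5⟩ := hy
  obtain ⟨b1, -, -, -, b5⟩ := hz
  have h1 : y.1 ∣ z.1 := a5.dvd_of_dvd_mul_left ⟨z.2, h.symm⟩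
  have h2 : z.1 ∣ y.1 := b5.dvd_of_dvd_mul_right ⟨y.2, by linarith⟩
  have h3 : y.1 = z.1 := Int.dvd_antisymm a1.le b1.le h1 h2
  refine Prod.ext h3 ?_
  rw [← h3, mul_comm y.2] at h
  exact (mul_left_cancel₀ a1.ne' h).symm

theorem Prim.sep {w : ℕ} {y z : ℤ × ℤ} (hy : Prim w y) (hz : Prim w z) (h : y ≠ z) :
    (1 : ℝ) ≤ 2 ^ (2 * w) * |(y.2 : ℝ) / y.1 - (z.2 : ℝ) / z.1| := by
  have h1 : y.2 * z.1 - y.1 * z.2 ≠ 0 := fun e => h (hy.eq_of_det hz (by linarith))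
  have h2 : (1 : ℝ) ≤ |(y.2 : ℝ) * z.1 - y.1 * z.2| := by
    exact_mod_cast Int.one_le_abs h1
  have a1 : (0 : ℝ) < y.1 := by exact_mod_cast hy.1
  have b1 : (0 : ℝ) < z.1 := by exact_mod_cast hz.1
  have a2 : (y.1 : ℝ) ≤ 2 ^ w := by exact_mod_cast hy.2.2.1
  have b2 : (z.1 : ℝ) ≤ 2 ^ w := by exact_mod_cast hz.2.2.1
  rw [div_sub_div _ _ a1.ne' b1.ne', abs_div, abs_of_pos (mul_pos a1 b1), ← mul_div_assoc,
    le_div_iff₀ (mul_pos a1 b1), two_mul, pow_add]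
  calc 1 * ((y.1 : ℝ) * z.1) ≤ 1 * (2 ^ w * 2 ^ w) := by gcongr
    _ ≤ |(y.2 : ℝ) * z.1 - y.1 * z.2| * (2 ^ w * 2 ^ w) := by gcongr
    _ = _ := by ring

theorem Prim.diam {w : ℕ} {y z : ℤ × ℤ} (hy : Prim w y) (hz : Prim w z) :
    |(y.2 : ℝ) / y.1 - (z.2 : ℝ) / z.1| ≤ 2 ^ w := by
  have aux : ∀ u : ℤ × ℤ, Prim w u → 0 ≤ (u.2 : ℝ) / u.1 ∧ (u.2 : ℝ) / u.1 ≤ 2 ^ w := by
    intro u hu
    have a1 : (1 : ℝ) ≤ u.1 := by exact_mod_cast hu.1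
    have a2 : (0 : ℝ) < u.2 := by exact_mod_cast hu.2.1
    have a3 : (u.2 : ℝ) ≤ 2 ^ w := by exact_mod_cast hu.2.2.2.1
    exact ⟨by positivity, (div_le_self a2.le a1).trans a3⟩
  have := aux y hy
  have := aux z hz
  rw [abs_le]; constructor <;> linarith

/-- the logarithmic factor in the count of points on one curve -/
noncomputable def EE (w : ℕ) : ℝ := (6 * w + 6) ^ 10 * (2 * (50 ^ 9 + 1)) ^ 2

theorem core_count {p q b : ℕ} (hp : 2 ≤ p) (hq : 2 ≤ q) (hd : b * p + q ≤ 9) {a1 a2 h g : ℤ}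
    (A B : ℕ → ℤ) (ha1 : a1 ≠ 0) (ha2 : a2 ≠ 0) (hg : g ≠ 0) (hh : h ≠ 0) {w : ℕ}
    (T : Finset Pt) (hT : ∀ P ∈ T, Sol p q a1 a2 h w P)
    (hx : ∀ P ∈ T, g * P.1.1 = ev b A P.2.1 P.2.2 ∧ g * P.1.2 = ev b B P.2.1 P.2.2)
    (cls : ∀ P ∈ T, ∀ P' ∈ T, ∀ j : ℕ,
      g ∣ ev b A (P.2.1 + j * (P'.2.1 - P.2.1)) (P.2.2 + j * (P'.2.2 - P.2.2)) ∧
      g ∣ ev b B (P.2.1 + j * (P'.2.1 - P.2.1)) (P.2.2 + j * (P'.2.2 - P.2.2))) :
    (T.card : ℝ) ≤ EE w * (tau g.natAbs * |(h : ℝ)|) ^ 2 := by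
  have inj : ∀ P ∈ T, ∀ P' ∈ T, P.2 = P'.2 → P = P' := by
    intro P hP P' hP' e
    refine Prod.ext (Prod.ext ?_ ?_) e
    · exact mul_left_cancel₀ hg (by rw [(hx P hP).1, (hx P' hP').1, e])
    · exact mul_left_cancel₀ hg (by rw [(hx P hP).2, (hx P' hP').2, e])
  obtain ⟨Q, hQ1, hQ2, hQ3⟩ := exists_modulus hg (h.natAbs * (50 ^ 9 + 1))
    (Nat.mul_pos (Int.natAbs_pos.2 hh) (by norm_num))
  have Q0 : 0 < Q := by omega
  set φ := FF p q b a1 a2 A B (1 : ℂ[X]) X with hφ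
  have φd : φ.natDegree ≤ b * p + q := natDegree_FF _ _ _ _ _ _ _ (by simp) (by simp)
  have c1 := Col.ratio T (fun P => (P.2.1 : ℝ)) one_pos w fun P hP => by
    have := (hT P hP).2.1
    exact ⟨by exact_mod_cast this.1, by rw [one_mul]; exact_mod_cast this.2.2.1⟩
  have c2 := Col.multiset (S := T) (fun (ξ : ℂ) (P P' : Pt) =>
      ‖(((P'.2.2 : ℝ) / P'.2.1 : ℝ) : ℂ) - ξ‖ ≤ 2 * ‖(((P.2.2 : ℝ) / P.2.1 : ℝ) : ℂ) - ξ‖) φ.roots
    fun ξ _ => Col.dist T (fun P => (P.2.2 : ℝ) / P.2.1) ξ w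
      (fun P hP P' hP' ne => (hT P hP).2.1.sep (hT P' hP').2.1 fun e => ne (inj P hP P' hP' e))
      (fun P hP P' hP' => (hT P hP).2.1.diam (hT P' hP').2.1)
  have : NeZero Q := ⟨Q0.ne'⟩
  have c3 := Col.of_fun T (univ : Finset (ZMod Q × ZMod Q))
    (fun P => ((P.2.1 : ZMod Q), (P.2.2 : ZMod Q))) fun _ _ => mem_univ _
  have c4 := (c1.mul c2).mul c3
  have step : ∀ P ∈ T, ∀ P' ∈ T, P.2.1 ≤ P'.2.1 → (P'.2.1 : ℝ) ≤ 2 * P.2.1 →
      (∀ ξ ∈ φ.roots, ‖(((P'.2.2 : ℝ) / P'.2.1 : ℝ) : ℂ) - ξ‖ ≤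
        2 * ‖(((P.2.2 : ℝ) / P.2.1 : ℝ) : ℂ) - ξ‖) →
      ((P.2.1 : ZMod Q), (P.2.2 : ZMod Q)) = ((P'.2.1 : ZMod Q), (P'.2.2 : ZMod Q)) → P = P' := by
    intro P hP P' hP' l1 l2 l3 l4
    obtain ⟨⟨s1, s2, -⟩, ⟨s3, s4, -⟩, s5⟩ := hT P hP
    have s6 := (hT P' hP').2.1.1
    have l2' : P'.2.1 ≤ 2 * P.2.1 := by exact_mod_cast l2
    have := core_eq hp hq hd A B ha1 ha2 hg hh s1.ne' s2.ne' s3 s4.ne'
      (δ1 := P'.2.1 - P.2.1) (δ2 := P'.2.2 - P.2.2) (by linarith) (by linarith)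
      (hx P hP).1 (hx P hP).2 s5 (cls P hP P' hP') hQ2
      ((ZMod.intCast_eq_intCast_iff_dvd_sub _ _ _).1 (congrArg Prod.fst l4))
      ((ZMod.intCast_eq_intCast_iff_dvd_sub _ _ _).1 (congrArg Prod.snd l4))
      (by rw [← Int.natCast_natAbs]; exact_mod_cast hQ1) fun ξ hξ => ?_
    · exact inj P hP P' hP' (Prod.ext (by linarith [this.1]) (by linarith [this.2]))
    · have e : ∀ u : ℤ × ℤ, 0 < u.1 → ‖(u.2 : ℂ) - ξ * u.1‖ =
          u.1 * ‖(((u.2 : ℝ) / u.1 : ℝ) : ℂ) - ξ‖ := by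
        intro u hu
        have hu' : (u.1 : ℂ) ≠ 0 := by exact_mod_cast hu.ne'
        have hu2 : (0 : ℝ) < u.1 := by exact_mod_cast hu
        have : (u.2 : ℂ) - ξ * u.1 = u.1 * ((((u.2 : ℝ) / u.1 : ℝ) : ℂ) - ξ) := by
          push_cast; field_simp
        rw [this, norm_mul, Complex.norm_intCast, abs_of_pos hu2]
      rw [add_sub_cancel, add_sub_cancel, e _ s6, e _ s3]
      have s3' : (0 : ℝ) < P.2.1 := by exact_mod_cast s3
      calc _ ≤ (2 * P.2.1) * (2 * ‖(((P.2.2 : ℝ) / P.2.1 : ℝ) : ℂ) - ξ‖) :=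
            mul_le_mul l2 (l3 ξ hξ) (norm_nonneg _) (by positivity)
        _ = _ := by ring
  have c5 := c4.card_le (K := 1) zero_le_one fun U hU hr => by
    have : U.card ≤ 1 := Finset.card_le_one.2 fun P hP P' hP' => by
      rcases le_total P.2.1 P'.2.1 with l | l
      · have := hr P hP P' hP'
        exact step P (hU hP) P' (hU hP') l this.1.1 this.1.2 this.2
      · have := hr P' hP' P hP
        exact (step P' (hU hP') P (hU hP) l this.1.1 this.1.2 this.2).symm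
    exact_mod_cast this
  refine c5.trans ?_
  have w0 : (0 : ℝ) ≤ w := Nat.cast_nonneg _
  have r1 : (2 * (3 * (w : ℝ) + 3)) ^ φ.roots.card ≤ (6 * w + 6) ^ 9 := by
    rw [show 2 * (3 * (w : ℝ) + 3) = 6 * w + 6 by ring]
    exact pow_le_pow_right₀ (by linarith) ((card_roots' φ).trans (φd.trans hd))
  have r2 : ((univ : Finset (ZMod Q × ZMod Q)).card : ℝ) ≤
      (2 * (50 ^ 9 + 1)) ^ 2 * (tau g.natAbs * |(h : ℝ)|) ^ 2 := by
    rw [card_univ, Fintype.card_prod, ZMod.card, ← mul_pow]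
    push_cast at hQ3 ⊢
    rw [Nat.cast_natAbs, Int.cast_abs] at hQ3
    rw [← sq]
    gcongr
    linarith
  unfold EE
  push_cast
  calc _ ≤ (6 * (w : ℝ) + 6) * (6 * w + 6) ^ 9 *
        ((2 * (50 ^ 9 + 1)) ^ 2 * (tau g.natAbs * |(h : ℝ)|) ^ 2) * 1 := by
        have : (w : ℝ) + 1 ≤ 6 * w + 6 := by linarith
        gcongr
    _ = _ := by ring

end Pool.Agent.P.MP_baf437_nt
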