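import Pool.Agent.P.MP_baf437_nt.Core

/-! The number of solutions on a curve of bidegree `(1, 2)`. -/

namespace Pool.Agent.P.MP_baf437_nt

open Finset Polynomial
open Pool.Agent.P.MP_0ad054_nt (tau two_pow_le_tau one_le_tau tau_nonneg)

/-- three coefficients as a sequence -/
def c3 (u0 u1 u2 : ℤ) (j : ℕ) : ℤ := if j = 0 then u0 else if j = 1 then u1 else u2

theorem ev0 (u0 u1 u2 y1 y2 : ℤ) : ev 0 (c3 u0 u1 u2) y1 y2 = u0 := by simp [ev, c3]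

theorem ev1 (u0 u1 u2 y1 y2 : ℤ) : ev 1 (c3 u0 u1 u2) y1 y2 = u0 * y1 + u1 * y2 := by
  simp [ev, c3, sum_range_succ]

theorem ev2 (u0 u1 u2 y1 y2 : ℤ) :
    ev 2 (c3 u0 u1 u2) y1 y2 = u0 * y1 ^ 2 + u1 * y1 * y2 + u2 * y2 ^ 2 := by
  simp [ev, c3, sum_range_succ]

theorem EE_nonneg (w : ℕ) : 0 ≤ EE w := by unfold EE; positivity

section
variable {p q : ℕ} (hp : 2 ≤ p) (hq : 2 ≤ q) (hp3 : p ≤ 3) (hq3 : q ≤ 3) {a1 a2 h : ℤ}
  (ha1 : a1 ≠ 0) (ha2 : a2 ≠ 0) (hh : h ≠ 0) {w : ℕ}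
include hp hq hp3 hq3 ha1 ha2 hh

omit hp3 in
theorem fixX_count (T : Finset Pt) (hT : ∀ P ∈ T, Sol p q a1 a2 h w P)
    (hx : ∀ P ∈ T, ∀ P' ∈ T, P.1 = P'.1) : (T.card : ℝ) ≤ EE w * (h : ℝ) ^ 2 := by
  rcases T.eq_empty_or_nonempty with rfl | ⟨P0, h0⟩
  · have := EE_nonneg w
    simp only [card_empty, Nat.cast_zero]; positivity
  have := core_count (b := 0) hp hq (by omega) (c3 P0.1.1 0 0) (c3 P0.1.2 0 0) ha1 ha2
    one_ne_zero hh T hT (fun P hP => by rw [ev0, ev0, hx P hP P0 h0]; simp)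
    (fun _ _ _ _ _ => ⟨one_dvd _, one_dvd _⟩)
  simpa [tau] using this

omit hq3 in
theorem fixY_count (T : Finset Pt) (hT : ∀ P ∈ T, Sol p q a1 a2 h w P)
    (hy : ∀ P ∈ T, ∀ P' ∈ T, P.2 = P'.2) : (T.card : ℝ) ≤ EE w * (h : ℝ) ^ 2 := by
  have := fixX_count hq hp hp3 ha1 ha2 hh (w := w) (T.map ⟨Prod.swap, Prod.swap_injective⟩)
    (fun P hP => by
      obtain ⟨P', hP', rfl⟩ := mem_map.1 hP
      exact (hT P' hP').swap)
    (fun P hP P' hP' => by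
      obtain ⟨R, hR, rfl⟩ := mem_map.1 hP
      obtain ⟨R', hR', rfl⟩ := mem_map.1 hP'
      exact hy R hR R' hR')
  rwa [card_map] at this

omit hq3 in
theorem quad0_count (T : Finset Pt) (hT : ∀ P ∈ T, Sol p q a1 a2 h w P) {u0 u1 u2 : ℤ}
    (hu : ¬ (u0 = 0 ∧ u1 = 0 ∧ u2 = 0))
    (hy : ∀ P ∈ T, u0 * P.2.1 ^ 2 + u1 * P.2.1 * P.2.2 + u2 * P.2.2 ^ 2 = 0) :
    (T.card : ℝ) ≤ 2 * (EE w * (h : ℝ) ^ 2) := by
  classical
  set ψ : ℚ[X] := C (u2 : ℚ) * X ^ 2 + C (u1 : ℚ) * X + C (u0 : ℚ) with hψ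
  have ψ0 : ψ ≠ 0 := by
    intro e
    apply hu
    have e0 := congrArg (coeff · 0) e
    have e1 := congrArg (coeff · 1) e
    have e2 := congrArg (coeff · 2) e
    simp only [hψ, coeff_add, coeff_C_mul, coeff_X_pow, coeff_X, coeff_C, coeff_zero] at e0 e1 e2
    norm_num at e0 e1 e2
    exact ⟨e0, e1, e2⟩
  have ψd : ψ.natDegree ≤ 2 := by rw [hψ]; compute_degree
  have c := Col.of_fun T ψ.roots.toFinset (fun P => (P.2.2 : ℚ) / P.2.1) fun P hP => by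
    rw [Multiset.mem_toFinset, mem_roots ψ0, IsRoot.def, hψ]
    have a : (P.2.1 : ℚ) ≠ 0 := by exact_mod_cast (hT P hP).2.1.1.ne'
    have b : (u0 : ℚ) * P.2.1 ^ 2 + u1 * P.2.1 * P.2.2 + u2 * P.2.2 ^ 2 = 0 := by
      exact_mod_cast hy P hP
    simp only [eval_add, eval_mul, eval_C, eval_pow, eval_X]
    field_simp
    linarith
  have c' : Col T (fun P P' => P.2 = P'.2) 2 := c.mono (fun P hP P' hP' e => by
      have a : (P.2.1 : ℚ) ≠ 0 := by exact_mod_cast (hT P hP).2.1.1.ne'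
      have a' : (P'.2.1 : ℚ) ≠ 0 := by exact_mod_cast (hT P' hP').2.1.1.ne'
      rw [div_eq_div_iff a a'] at e
      refine (hT P hP).2.1.eq_of_det (hT P' hP').2.1 ?_
      have : P.2.2 * P'.2.1 = P'.2.2 * P.2.1 := by exact_mod_cast e
      linarith)
    (by exact_mod_cast (Multiset.toFinset_card_le _).trans ((card_roots' ψ).trans ψd))
  have := EE_nonneg w
  exact c'.card_le (by positivity) fun U hU hr =>
    fixY_count hp hq hp3 ha1 ha2 hh U (fun P hP => hT P (hU hP)) hr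

omit hp3 in
theorem lin0_count (T : Finset Pt) (hT : ∀ P ∈ T, Sol p q a1 a2 h w P) {u v : ℤ}
    (hu : ¬ (u = 0 ∧ v = 0)) (hx : ∀ P ∈ T, u * P.1.1 + v * P.1.2 = 0) :
    (T.card : ℝ) ≤ EE w * (h : ℝ) ^ 2 := by
  refine fixX_count hp hq hq3 ha1 ha2 hh T hT fun P hP P' hP' => ?_
  refine (hT P hP).1.eq_of_det (hT P' hP').1 ?_
  have e := hx P hP
  have e' := hx P' hP'
  by_contra hne
  have hne' := sub_ne_zero.2 hne
  refine hu ⟨(mul_eq_zero.1 ?_).resolve_right hne', (mul_eq_zero.1 ?_).resolve_right hne'⟩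
  · linear_combination P'.1.2 * e - P.1.2 * e'
  · linear_combination P.1.1 * e' - P'.1.1 * e

end

theorem Prim.exists_g {w : ℕ} {x : ℤ × ℤ} (hx : Prim w x) {A B : ℤ}
    (h : x.1 * A + x.2 * B = 0) : (A / x.2) * x.1 = -B ∧ (A / x.2) * x.2 = A := by
  have h1 : x.2 ∣ A := hx.2.2.2.2.symm.dvd_of_dvd_mul_left ⟨-B, by linarith⟩
  obtain ⟨g, rfl⟩ := h1
  have x2 := hx.2.1.ne'
  rw [Int.mul_ediv_cancel_left _ x2]
  refine ⟨mul_left_cancel₀ x2 (by linarith), by ring⟩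

theorem Col.dvd {α : Type} (S : Finset α) (g : α → ℤ) {R : ℤ} (hR : R ≠ 0)
    (h : ∀ s ∈ S, g s ∣ R) : Col S (fun s s' => g s = g s') (2 * tau R.natAbs) := by
  have := Col.of_fun S (R.natAbs.divisors ×ˢ (univ : Finset Bool))
    (fun s => ((g s).natAbs, decide (0 < g s))) fun s hs =>
      mem_product.2 ⟨Nat.mem_divisors.2 ⟨Int.natAbs_dvd_natAbs.2 (h s hs),
        Int.natAbs_ne_zero.2 hR⟩, mem_univ _⟩
  refine this.mono (fun s _ s' _ e => ?_) (by simp [tau, mul_comm])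
  simp only [Prod.mk.injEq, decide_eq_decide] at e
  omega

theorem dvd_of_eq {g a b : ℤ} (h : g ∣ a) (e : b = a) : g ∣ b := e ▸ h

theorem dvd_of_gcd_eq {g y y' m : ℤ} (h : g ∣ y * m) (e : Int.gcd y g = Int.gcd y' g) :
    g ∣ y' * m := by
  have h1 : g ∣ (Int.gcd y g : ℤ) * m := by
    rw [Int.gcd_eq_gcd_ab, add_mul]
    refine dvd_add ?_ ⟨Int.gcdB y g * m, by ring⟩
    have := h.mul_right (Int.gcdA y g)
    exact dvd_of_eq this (by ring)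
  rw [e] at h1
  exact h1.trans (mul_dvd_mul_right (Int.gcd_dvd_left _ _) _)

theorem class_polar {g u0 u1 u2 r1 r2 s1 s2 t1 t2 : ℤ} (hr : IsCoprime r1 r2)
    (h0 : g ∣ u0 * r1 ^ 2 + u1 * r1 * r2 + u2 * r2 ^ 2)
    (hs : g ∣ u0 * s1 ^ 2 + u1 * s1 * s2 + u2 * s2 ^ 2)
    (ht : g ∣ u0 * t1 ^ 2 + u1 * t1 * t2 + u2 * t2 ^ 2)
    (e : Int.gcd (r1 * s2 - r2 * s1) g = Int.gcd (r1 * t2 - r2 * t1) g) (j : ℤ) :
    g ∣ u0 * (s1 + j * (t1 - s1)) ^ 2 + u1 * (s1 + j * (t1 - s1)) * (s2 + j * (t2 - s2)) +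
      u2 * (s2 + j * (t2 - s2)) ^ 2 := by
  obtain ⟨α, β, hab⟩ := hr
  have dec : ∀ v1 v2 : ℤ, ∃ x y : ℤ, y = r1 * v2 - r2 * v1 ∧ v1 = x * r1 - y * β ∧
      v2 = x * r2 + y * α := fun v1 v2 =>
    ⟨v1 * α + v2 * β, _, rfl, by linear_combination (-v1) * hab, by linear_combination (-v2) * hab⟩
  obtain ⟨xs, ys, e1, e2, e3⟩ := dec s1 s2
  obtain ⟨xt, yt, f1, f2, f3⟩ := dec t1 t2
  rw [← e1, ← f1] at e
  clear e1 f1 dec
  subst e2 e3 f2 f3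
  set b := -2 * u0 * r1 * β + u1 * (r1 * α - r2 * β) + 2 * u2 * r2 * α with hb
  set c := u0 * β ^ 2 - u1 * α * β + u2 * α ^ 2 with hc
  have k1 : g ∣ ys * (b * xs + c * ys) := by
    have := dvd_sub hs (h0.mul_left (xs ^ 2))
    exact dvd_of_eq this (by rw [hb, hc]; ring)
  have k2 : g ∣ yt * (b * xt + c * yt) := by
    have := dvd_sub ht (h0.mul_left (xt ^ 2))
    exact dvd_of_eq this (by rw [hb, hc]; ring)
  have k3 := dvd_of_gcd_eq k1 e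
  have k4 := dvd_of_gcd_eq k2 e.symm
  have := dvd_add (dvd_add (hs.mul_left ((1 - j) ^ 2)) (ht.mul_left (j ^ 2)))
    ((dvd_add (dvd_add k3 k4) (h0.mul_left (2 * xs * xt))).mul_left (j * (1 - j)))
  exact dvd_of_eq this (by rw [hb, hc]; ring)

section
variable {p q : ℕ} (hp : 2 ≤ p) (hq : 2 ≤ q) (hp3 : p ≤ 3) (hq3 : q ≤ 3) {a1 a2 h : ℤ}
  (ha1 : a1 ≠ 0) (ha2 : a2 ≠ 0) (hh : h ≠ 0) {w : ℕ} {τ : ℝ} {L : ℕ}
  (hτ : ∀ n : ℕ, 1 ≤ n → n ≤ L → tau n ≤ τ)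
include hp hq hp3 hq3 ha1 ha2 hh hτ

theorem lin1_count (T : Finset Pt) (hT : ∀ P ∈ T, Sol p q a1 a2 h w P) {u0 u1 v0 v1 : ℤ}
    (hD : u0 * v1 - u1 * v0 ≠ 0) (hL : (u0 * v1 - u1 * v0).natAbs ≤ L)
    (hx : ∀ P ∈ T, P.1.1 * (u0 * P.2.1 + u1 * P.2.2) + P.1.2 * (v0 * P.2.1 + v1 * P.2.2) = 0) :
    (T.card : ℝ) ≤ 2 * τ ^ 3 * (EE w * (h : ℝ) ^ 2) := by
  set g : Pt → ℤ := fun P => (u0 * P.2.1 + u1 * P.2.2) / P.1.2 with hg
  have k : ∀ P ∈ T, g P * P.1.1 = -(v0 * P.2.1 + v1 * P.2.2) ∧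
      g P * P.1.2 = u0 * P.2.1 + u1 * P.2.2 := fun P hP => (hT P hP).1.exists_g (hx P hP)
  have d : ∀ P ∈ T, g P ∣ u0 * v1 - u1 * v0 := by
    intro P hP
    obtain ⟨k1, k2⟩ := k P hP
    obtain ⟨α, β, hab⟩ := (hT P hP).2.1.2.2.2.2
    refine ⟨α * (v1 * P.1.2 + u1 * P.1.1) - β * (v0 * P.1.2 + u0 * P.1.1), ?_⟩
    linear_combination (-(u0 * v1 - u1 * v0)) * hab - (α * u1 - β * u0) * k1 -
      (α * v1 - β * v0) * k2
  have t0 := hτ _ (Int.natAbs_pos.2 hD) hL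
  have t1 := tau_nonneg (u0 * v1 - u1 * v0).natAbs
  have E0 := EE_nonneg w
  have c := (Col.dvd T g hD d).card_le (K := τ ^ 2 * (EE w * (h : ℝ) ^ 2)) (by positivity)
    fun U hU hr => by
      rcases U.eq_empty_or_nonempty with rfl | ⟨P0, h0⟩
      · simp only [card_empty, Nat.cast_zero]; positivity
      have g0 : g P0 ≠ 0 := fun e => hD (by simpa [e] using d P0 (hU h0))
      have t2 : tau (g P0).natAbs ≤ τ := hτ _ (Int.natAbs_pos.2 g0)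
        ((Int.natAbs_le_of_dvd_ne_zero (d P0 (hU h0)) hD).trans hL)
      have t3 := tau_nonneg (g P0).natAbs
      have := core_count (b := 1) hp hq (by omega) (c3 (-v0) (-v1) 0) (c3 u0 u1 0) ha1 ha2 g0 hh
        U (fun P hP => hT P (hU hP))
        (fun P hP => by
          rw [ev1, ev1, ← hr P hP P0 h0]
          have := k P (hU hP)
          exact ⟨by linarith [this.1], this.2⟩)
        (fun P hP P' hP' j => by
          rw [ev1, ev1]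
          obtain ⟨k1, k2⟩ := k P (hU hP)
          obtain ⟨k3, k4⟩ := k P' (hU hP')
          rw [hr P hP P0 h0] at k1 k2
          rw [hr P' hP' P0 h0] at k3 k4
          exact ⟨⟨(1 - j) * P.1.1 + j * P'.1.1, by linear_combination (j - 1) * k1 - j * k3⟩,
            ⟨(1 - j) * P.1.2 + j * P'.1.2, by linear_combination (j - 1) * k2 - j * k4⟩⟩)
      refine this.trans ?_
      rw [mul_pow, sq_abs]
      calc _ ≤ EE w * (τ ^ 2 * (h : ℝ) ^ 2) := by gcongr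
        _ = _ := by ring
  refine c.trans ?_
  calc _ ≤ 2 * τ * (τ ^ 2 * (EE w * (h : ℝ) ^ 2)) := by gcongr
    _ = _ := by ring

theorem quad2_count (T : Finset Pt) (hT : ∀ P ∈ T, Sol p q a1 a2 h w P)
    {u0 u1 u2 v0 v1 v2 R : ℤ}
    (hR : R = (u1 * v2 - u2 * v1) * (u0 * v1 - u1 * v0) - (u2 * v0 - u0 * v2) ^ 2)
    (hD : R ≠ 0) (hL : R.natAbs ≤ L)
    (hx : ∀ P ∈ T, P.1.1 * (u0 * P.2.1 ^ 2 + u1 * P.2.1 * P.2.2 + u2 * P.2.2 ^ 2) +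
      P.1.2 * (v0 * P.2.1 ^ 2 + v1 * P.2.1 * P.2.2 + v2 * P.2.2 ^ 2) = 0) :
    (T.card : ℝ) ≤ 2 * τ ^ 4 * (EE w * (h : ℝ) ^ 2) := by
  set g : Pt → ℤ := fun P => (u0 * P.2.1 ^ 2 + u1 * P.2.1 * P.2.2 + u2 * P.2.2 ^ 2) / P.1.2
    with hg
  have k : ∀ P ∈ T, g P * P.1.1 = -(v0 * P.2.1 ^ 2 + v1 * P.2.1 * P.2.2 + v2 * P.2.2 ^ 2) ∧
      g P * P.1.2 = u0 * P.2.1 ^ 2 + u1 * P.2.1 * P.2.2 + u2 * P.2.2 ^ 2 :=
    fun P hP => (hT P hP).1.exists_g (hx P hP)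
  have d : ∀ P ∈ T, g P ∣ R := by
    intro P hP
    obtain ⟨k1, k2⟩ := k P hP
    have cop := (hT P hP).2.1.2.2.2.2
    have hA : g P ∣ u0 * P.2.1 ^ 2 + u1 * P.2.1 * P.2.2 + u2 * P.2.2 ^ 2 := ⟨_, k2.symm⟩
    have hB : g P ∣ v0 * P.2.1 ^ 2 + v1 * P.2.1 * P.2.2 + v2 * P.2.2 ^ 2 :=
      ⟨-P.1.1, by linarith⟩
    generalize P.2.1 = y1 at *
    generalize P.2.2 = y2 at *
    generalize g P = G at *
    have d1 : G ∣ R * y1 ^ 3 := by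
      have := dvd_add
        (hA.mul_left (((u2 * v0 - u0 * v2) * v2 + (u1 * v2 - u2 * v1) * v1) * y1 +
          (u1 * v2 - u2 * v1) * v2 * y2))
        (hB.mul_left (-(((u2 * v0 - u0 * v2) * u2 + (u1 * v2 - u2 * v1) * u1) * y1 +
          (u1 * v2 - u2 * v1) * u2 * y2)))
      exact dvd_of_eq this (by rw [hR]; ring)
    have d2 : G ∣ R * y2 ^ 3 := by
      have := dvd_add
        (hA.mul_left (-(((u2 * v0 - u0 * v2) * v0 + (u0 * v1 - u1 * v0) * v1) * y2 +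
          (u0 * v1 - u1 * v0) * v0 * y1)))
        (hB.mul_left (((u2 * v0 - u0 * v2) * u0 + (u0 * v1 - u1 * v0) * u1) * y2 +
          (u0 * v1 - u1 * v0) * u0 * y1))
      exact dvd_of_eq this (by rw [hR]; ring)
    obtain ⟨α, β, hab⟩ := cop.pow (m := 3) (n := 3)
    have := dvd_add (d1.mul_left α) (d2.mul_left β)
    exact dvd_of_eq this (by linear_combination (-R) * hab)
  have t0 := hτ _ (Int.natAbs_pos.2 hD) hL
  have t1 := tau_nonneg R.natAbs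
  have τ0 : 0 ≤ τ := t1.trans t0
  have E0 := EE_nonneg w
  have c := (Col.dvd T g hD d).card_le (K := τ ^ 3 * (EE w * (h : ℝ) ^ 2)) (by positivity)
    fun U hU hr => by
      rcases U.eq_empty_or_nonempty with rfl | ⟨P0, h0⟩
      · simp only [card_empty, Nat.cast_zero]; positivity
      have g0 : g P0 ≠ 0 := fun e => hD (by simpa [e] using d P0 (hU h0))
      have t2 : tau (g P0).natAbs ≤ τ := hτ _ (Int.natAbs_pos.2 g0)
        ((Int.natAbs_le_of_dvd_ne_zero (d P0 (hU h0)) hD).trans hL)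
      have t3 := tau_nonneg (g P0).natAbs
      have hA : ∀ P ∈ U, g P0 ∣ u0 * P.2.1 ^ 2 + u1 * P.2.1 * P.2.2 + u2 * P.2.2 ^ 2 :=
        fun P hP => ⟨P.1.2, by rw [← hr P hP P0 h0]; exact (k P (hU hP)).2.symm⟩
      have hB : ∀ P ∈ U, g P0 ∣ -v0 * P.2.1 ^ 2 + -v1 * P.2.1 * P.2.2 + -v2 * P.2.2 ^ 2 :=
        fun P hP => ⟨P.1.1, by rw [← hr P hP P0 h0]; linarith [(k P (hU hP)).1]⟩
      have c2 := (Col.of_fun U (g P0).natAbs.divisors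
        (fun P => Int.gcd (P0.2.1 * P.2.2 - P0.2.2 * P.2.1) (g P0)) fun P _ =>
          Nat.mem_divisors.2 ⟨Int.gcd_dvd_natAbs_right _ _, Int.natAbs_ne_zero.2 g0⟩).card_le
        (K := τ ^ 2 * (EE w * (h : ℝ) ^ 2)) (by positivity) fun V hV hr2 => by
          have cop := (hT P0 (hU h0)).2.1.2.2.2.2
          have := core_count (b := 2) hp hq (by omega) (c3 (-v0) (-v1) (-v2)) (c3 u0 u1 u2) ha1 ha2
            g0 hh V (fun P hP => hT P (hU (hV hP)))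
            (fun P hP => by
              rw [ev2, ev2, ← hr P (hV hP) P0 h0]
              have := k P (hU (hV hP))
              exact ⟨by linarith [this.1], this.2⟩)
            (fun P hP P' hP' j => by
              rw [ev2, ev2]
              exact ⟨class_polar cop (hB P0 h0) (hB P (hV hP)) (hB P' (hV hP')) (hr2 P hP P' hP') j,
                class_polar cop (hA P0 h0) (hA P (hV hP)) (hA P' (hV hP')) (hr2 P hP P' hP') j⟩)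
          refine this.trans ?_
          rw [mul_pow, sq_abs]
          calc _ ≤ EE w * (τ ^ 2 * (h : ℝ) ^ 2) := by gcongr
            _ = _ := by ring
      refine c2.trans ?_
      calc _ ≤ τ * (τ ^ 2 * (EE w * (h : ℝ) ^ 2)) := by gcongr; exact t2
        _ = _ := by ring
  refine c.trans ?_
  calc _ ≤ 2 * τ * (τ ^ 3 * (EE w * (h : ℝ) ^ 2)) := by gcongr
    _ = _ := by ring

end

theorem natAbs_le_of {x : ℤ} {L : ℕ} (h : |x| ≤ L) : x.natAbs ≤ L := by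
  rw [← Int.natCast_natAbs] at h; exact_mod_cast h

theorem curve_count {p q : ℕ} (hp : 2 ≤ p) (hq : 2 ≤ q) (hp3 : p ≤ 3) (hq3 : q ≤ 3) {a1 a2 h : ℤ}
    (ha1 : a1 ≠ 0) (ha2 : a2 ≠ 0) (hh : h ≠ 0) {w : ℕ} {τ : ℝ} {V : ℕ} (hV : 1 ≤ V)
    (hτ : ∀ n : ℕ, 1 ≤ n → n ≤ 8 * V ^ 6 → tau n ≤ τ)
    (T : Finset Pt) (hT : ∀ P ∈ T, Sol p q a1 a2 h w P) {u0 u1 u2 v0 v1 v2 : ℤ}
    (hne : ¬ ((u0 = 0 ∧ u1 = 0 ∧ u2 = 0) ∧ (v0 = 0 ∧ v1 = 0 ∧ v2 = 0)))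
    (b0 : |u0| ≤ V) (b1 : |u1| ≤ V) (b2 : |u2| ≤ V) (b3 : |v0| ≤ V) (b4 : |v1| ≤ V) (b5 : |v2| ≤ V)
    (hx : ∀ P ∈ T, P.1.1 * (u0 * P.2.1 ^ 2 + u1 * P.2.1 * P.2.2 + u2 * P.2.2 ^ 2) +
      P.1.2 * (v0 * P.2.1 ^ 2 + v1 * P.2.1 * P.2.2 + v2 * P.2.2 ^ 2) = 0) :
    (T.card : ℝ) ≤ 4 * τ ^ 4 * (EE w * (h : ℝ) ^ 2) := by
  classical
  have E0 := EE_nonneg w
  have H0 : 0 ≤ EE w * (h : ℝ) ^ 2 := by positivity
  have V6 : 1 ≤ V ^ 6 := Nat.one_le_pow _ _ hV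
  have τ1 : 1 ≤ τ := (one_le_tau one_ne_zero).trans (hτ 1 le_rfl (by omega))
  have τ4 : 1 ≤ τ ^ 4 := one_le_pow₀ τ1
  have τ3 : τ ^ 3 ≤ τ ^ 4 := pow_le_pow_right₀ τ1 (by norm_num)
  set A : Pt → ℤ := fun P => u0 * P.2.1 ^ 2 + u1 * P.2.1 * P.2.2 + u2 * P.2.2 ^ 2 with hA
  have split := card_filter_add_card_filter_not (s := T) fun P => A P = 0
  have s1 : ((T.filter fun P => A P = 0).card : ℝ) ≤ 2 * (EE w * (h : ℝ) ^ 2) := by
    by_cases hu : u0 = 0 ∧ u1 = 0 ∧ u2 = 0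
    · refine quad0_count hp hq hp3 ha1 ha2 hh _ (fun P hP => hT P (mem_filter.1 hP).1)
        (fun hv => hne ⟨hu, hv⟩) fun P hP => ?_
      have := hx P (mem_filter.1 hP).1
      have e : u0 * P.2.1 ^ 2 + u1 * P.2.1 * P.2.2 + u2 * P.2.2 ^ 2 = 0 := (mem_filter.1 hP).2
      rw [e, mul_zero, zero_add] at this
      exact (mul_eq_zero.1 this).resolve_left (hT P (mem_filter.1 hP).1).1.2.1.ne'
    · exact quad0_count hp hq hp3 ha1 ha2 hh _ (fun P hP => hT P (mem_filter.1 hP).1) hu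
        fun P hP => (mem_filter.1 hP).2
  suffices s2 : ((T.filter fun P => ¬ A P = 0).card : ℝ) ≤ 2 * τ ^ 4 * (EE w * (h : ℝ) ^ 2) by
    rw [← split]; push_cast; nlinarith
  set U := T.filter fun P => ¬ A P = 0
  have hU : ∀ P ∈ U, Sol p q a1 a2 h w P := fun P hP => hT P (mem_filter.1 hP).1
  have hA0 : ∀ P ∈ U, u0 * P.2.1 ^ 2 + u1 * P.2.1 * P.2.2 + u2 * P.2.2 ^ 2 ≠ 0 :=
    fun P hP => (mem_filter.1 hP).2
  have hxU := fun P (hP : P ∈ U) => hx P (mem_filter.1 hP).1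
  have V1 : (1 : ℤ) ≤ V := by exact_mod_cast hV
  have bm : ∀ a b c d : ℤ, |a| ≤ V → |b| ≤ V → |c| ≤ V → |d| ≤ V →
      |a * b - c * d| ≤ 2 * (V : ℤ) ^ 2 := by
    intro a b c d h1 h2 h3 h4
    have := abs_sub (a * b) (c * d)
    rw [abs_mul, abs_mul] at this
    have k1 : |a| * |b| ≤ V * V := by gcongr
    have k2 : |c| * |d| ≤ V * V := by gcongr
    nlinarith
  obtain ⟨m0, hm0⟩ : ∃ m, m = u1 * v2 - u2 * v1 := ⟨_, rfl⟩
  obtain ⟨m1, hm1⟩ : ∃ m, m = u2 * v0 - u0 * v2 := ⟨_, rfl⟩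
  obtain ⟨m2, hm2⟩ : ∃ m, m = u0 * v1 - u1 * v0 := ⟨_, rfl⟩
  have n0 : |m0| ≤ 2 * (V : ℤ) ^ 2 := hm0 ▸ bm _ _ _ _ b1 b5 b2 b4
  have n1 : |m1| ≤ 2 * (V : ℤ) ^ 2 := hm1 ▸ bm _ _ _ _ b2 b3 b0 b5
  have n2 : |m2| ≤ 2 * (V : ℤ) ^ 2 := hm2 ▸ bm _ _ _ _ b0 b4 b1 b3
  have hu : u0 * m0 + u1 * m1 + u2 * m2 = 0 := by rw [hm0, hm1, hm2]; ring
  have hv : v0 * m0 + v1 * m1 + v2 * m2 = 0 := by rw [hm0, hm1, hm2]; ring
  have p46 : (V : ℤ) ^ 4 ≤ V ^ 6 := pow_le_pow_right₀ V1 (by norm_num)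
  have p26 : (V : ℤ) ^ 2 ≤ V ^ 6 := pow_le_pow_right₀ V1 (by norm_num)
  by_cases hR : m0 * m2 - m1 ^ 2 = 0
  swap
  · refine quad2_count hp hq hp3 hq3 ha1 ha2 hh hτ U hU (R := m0 * m2 - m1 ^ 2)
      (by rw [hm0, hm1, hm2]) hR (natAbs_le_of ?_) hxU
    have := abs_sub (m0 * m2) (m1 ^ 2)
    rw [abs_mul, abs_pow] at this
    have k1 : |m0| * |m2| ≤ (2 * (V : ℤ) ^ 2) * (2 * (V : ℤ) ^ 2) := by gcongr
    have k2 : |m1| ^ 2 ≤ (2 * (V : ℤ) ^ 2) ^ 2 := by gcongr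
    push_cast; nlinarith
  by_cases z0 : m0 = 0
  swap
  · have D : (m0 * u1 + m1 * u2) * (m0 * v2) - (m0 * u2) * (m0 * v1 + m1 * v2) = m0 ^ 3 := by
      linear_combination (-m0 ^ 2) * hm0
    refine (lin1_count hp hq hp3 hq3 ha1 ha2 hh hτ U hU (u0 := m0 * u1 + m1 * u2) (u1 := m0 * u2)
      (v0 := m0 * v1 + m1 * v2) (v1 := m0 * v2) (by rw [D]; positivity)
      (by
        rw [D]
        refine natAbs_le_of ?_
        rw [abs_pow]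
        have : |m0| ^ 3 ≤ (2 * (V : ℤ) ^ 2) ^ 3 := by gcongr
        push_cast; nlinarith) fun P hP => ?_).trans (by gcongr)
    have e1 : m0 ^ 2 * (u0 * P.2.1 ^ 2 + u1 * P.2.1 * P.2.2 + u2 * P.2.2 ^ 2) =
        (m0 * P.2.2 - m1 * P.2.1) * ((m0 * u1 + m1 * u2) * P.2.1 + m0 * u2 * P.2.2) := by
      linear_combination P.2.1 ^ 2 * m0 * hu - P.2.1 ^ 2 * u2 * hR
    have e2 : m0 ^ 2 * (v0 * P.2.1 ^ 2 + v1 * P.2.1 * P.2.2 + v2 * P.2.2 ^ 2) =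
        (m0 * P.2.2 - m1 * P.2.1) * ((m0 * v1 + m1 * v2) * P.2.1 + m0 * v2 * P.2.2) := by
      linear_combination P.2.1 ^ 2 * m0 * hv - P.2.1 ^ 2 * v2 * hR
    have l0 : m0 * P.2.2 - m1 * P.2.1 ≠ 0 := fun e => by
      rw [e, zero_mul] at e1
      exact mul_ne_zero (pow_ne_zero 2 z0) (hA0 P hP) e1
    refine (mul_eq_zero.1 ?_).resolve_left l0
    linear_combination m0 ^ 2 * hxU P hP - P.1.1 * e1 - P.1.2 * e2
  have z1 : m1 = 0 := by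
    rw [z0] at hR
    exact pow_eq_zero_iff (two_ne_zero) |>.1 (by linarith)
  by_cases z2 : m2 = 0
  swap
  · have e1 : u2 = 0 := (mul_eq_zero.1 (by rw [z0, z1] at hu; linarith)).resolve_right z2
    have e2 : v2 = 0 := (mul_eq_zero.1 (by rw [z0, z1] at hv; linarith)).resolve_right z2
    refine (lin1_count hp hq hp3 hq3 ha1 ha2 hh hτ U hU (u0 := u0) (u1 := u1) (v0 := v0) (v1 := v1)
      (hm2 ▸ z2) (natAbs_le_of (by rw [← hm2]; push_cast; nlinarith)) fun P hP => ?_).trans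
      (by gcongr)
    refine (mul_eq_zero.1 ?_).resolve_left (hU P hP).2.1.1.ne'
    have := hxU P hP
    rw [e1, e2] at this
    linear_combination this
  rw [z0] at hm0
  rw [z1] at hm1
  rw [z2] at hm2
  have fin : ∀ u v : ℤ, ¬ (u = 0 ∧ v = 0) → (∀ y1 y2 : ℤ,
      u * (v0 * y1 ^ 2 + v1 * y1 * y2 + v2 * y2 ^ 2) =
        v * (u0 * y1 ^ 2 + u1 * y1 * y2 + u2 * y2 ^ 2)) →
      (U.card : ℝ) ≤ 2 * τ ^ 4 * (EE w * (h : ℝ) ^ 2) := by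
    intro u v huv e
    refine (lin0_count hp hq hq3 ha1 ha2 hh U hU huv fun P hP => ?_).trans (by nlinarith)
    refine (mul_eq_zero.1 ?_).resolve_left (hA0 P hP)
    linear_combination u * hxU P hP - P.1.2 * e P.2.1 P.2.2
  by_cases j0 : u0 = 0 ∧ v0 = 0
  swap
  · exact fin u0 v0 j0 fun y1 y2 => by linear_combination (-y1 * y2) * hm2 + y2 ^ 2 * hm1
  by_cases j1 : u1 = 0 ∧ v1 = 0
  swap
  · exact fin u1 v1 j1 fun y1 y2 => by linear_combination y1 ^ 2 * hm2 - y2 ^ 2 * hm0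
  exact fin u2 v2 (fun j2 => hne ⟨⟨j0.1, j1.1, j2.1⟩, j0.2, j1.2, j2.2⟩) fun y1 y2 => by
    linear_combination (-y1 ^ 2) * hm1 + (y1 * y2) * hm0

end Pool.Agent.P.MP_baf437_nt
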