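import Pool.Agent.P.MP_baf437_nt.Near
import Pool.Agent.P.MP_a14ce1_nt.Ch.Mertens

/-! Many terms of an exceptional product share a large factor with a close neighbour. -/

namespace Pool.Agent.P.MP_baf437_nt

open Finset

theorem card_dvd_ge (k m : ℕ) {p : ℕ} (hp : 0 < p) :
    k / p ≤ ((Icc 1 k).filter fun i => p ∣ m + i).card := by
  rw [← card_range (k / p)]
  have h1 := Nat.div_mul_le_self m p
  have h2 := Nat.lt_div_mul_add (a := m) hp
  have h3 := Nat.div_mul_le_self k p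
  refine card_le_card_of_injOn (fun t => (m / p + 1 + t) * p - m) (fun t ht => ?_)
    fun t _ t' _ e => ?_
  · simp only [coe_range, Set.mem_Iio] at ht
    simp only [coe_filter, mem_Icc, Set.mem_ofPred_eq]
    have h4 : (t + 1) * p ≤ k / p * p := Nat.mul_le_mul_right _ ht
    have h5 : (m / p + 1 + t) * p = m / p * p + (t + 1) * p := by ring
    have h6 : (t + 1) * p = t * p + p := by ring
    refine ⟨by omega, ?_⟩
    rw [show m + ((m / p + 1 + t) * p - m) = (m / p + 1 + t) * p by omega]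
    exact dvd_mul_left _ _
  · simp only at e
    have h5 : ∀ t, (m / p + 1 + t) * p = m / p * p + p + t * p := fun t => by ring
    rw [h5, h5] at e
    exact Nat.eq_of_mul_eq_mul_right hp (by omega)

theorem card_ap_ge (k m : ℕ) {p : ℕ} (hp : p.Prime) (hk : k < p ^ 2) :
    (k : ℝ) / p - 2 ≤ ((Icc 1 k).filter fun i => p ∣ ap (m + i)).card := by
  have h1 := card_dvd_ge k m hp.pos
  have h2 := card_dvd_le k m (p ^ 2)
  rw [Nat.div_eq_of_lt hk] at h2
  have h3 : ((Icc 1 k).filter fun i => p ∣ m + i).card ≤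
      ((Icc 1 k).filter fun i => p ∣ ap (m + i)).card +
        ((Icc 1 k).filter fun i => p ^ 2 ∣ m + i).card := by
    refine le_trans (card_le_card fun i hi => ?_) (card_union_le _ _)
    rw [mem_filter] at hi
    have h0 : m + i ≠ 0 := by have := (mem_Icc.1 hi.1).1; omega
    by_cases h : p ^ 2 ∣ m + i
    · exact mem_union_right _ (mem_filter.2 ⟨hi.1, h⟩)
    · refine mem_union_left _ (mem_filter.2 ⟨hi.1, dvd_prod_of_mem _ (mem_filter.2
        ⟨Nat.mem_primeFactors.2 ⟨hp, hi.2, h0⟩, ?_⟩)⟩)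
      have a1 := (hp.dvd_iff_one_le_factorization h0).1 hi.2
      rw [hp.pow_dvd_iff_le_factorization h0] at h
      omega
  have h4 : (k : ℝ) / p < (k / p : ℕ) + 1 := by
    rw [div_lt_iff₀ (by exact_mod_cast hp.pos)]
    have := Nat.lt_div_mul_add (a := k) hp.pos
    have h5 : (k : ℝ) < (k / p : ℕ) * p + p := by exact_mod_cast this
    linarith
  have h5 : ((k / p : ℕ) : ℝ) ≤ ((Icc 1 k).filter fun i => p ∣ ap (m + i)).card + 1 := by
    exact_mod_cast (by omega)
  linarith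

open Pool.Agent.P.MP_a14ce1_nt.Ch.Mertens in
theorem many {θ : ℝ} (h0 : 0 < θ) (h1 : θ ≤ 1 / 4) : ∃ k0 : ℕ, ∀ k m : ℕ, k0 ≤ k → Exc k m →
    ∃ T ⊆ Icc 1 k, θ ^ 2 / 32 * k ≤ T.card ∧ ∀ i ∈ T, ∃ g : ℕ, 0 < g ∧
      (g : ℝ) ≤ (k : ℝ) ^ (1 - θ ^ 2 / 8) ∧ g ∣ ap (m + i) ∧
        (ap (m + i) : ℝ) ≤ g * (k : ℝ) ^ (3 * θ) := by
  classical
  obtain ⟨C, C0, hC⟩ := mertens_nat
  obtain ⟨k1, hk1⟩ := log_ev h0 4
  obtain ⟨k2, hk2⟩ := Filter.eventually_atTop.1 ((Real.tendsto_log_atTop.comp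
    tendsto_natCast_atTop_atTop).eventually_ge_atTop (8 / θ * (C + 1 + 4 / θ)))
  refine ⟨k1 + k2 + 1, fun k m hk hE => ?_⟩
  have k1' : (1 : ℝ) ≤ k := by exact_mod_cast (by omega : 1 ≤ k)
  have k0 : (0 : ℝ) < k := by linarith
  set L := Real.log k with hL
  have hL1 : 8 / θ * (C + 1 + 4 / θ) ≤ L := hk2 k (by omega)
  have L0 : 0 < L := lt_of_lt_of_le (by positivity) hL1
  have ek : ∀ x : ℝ, Real.log ((k : ℝ) ^ x) = x * L := fun x => Real.log_rpow k0 x
  set T := (Icc 1 k).filter fun i => ∃ g : ℕ, 0 < g ∧ (g : ℝ) ≤ (k : ℝ) ^ (1 - θ ^ 2 / 8) ∧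
    g ∣ ap (m + i) ∧ (ap (m + i) : ℝ) ≤ g * (k : ℝ) ^ (3 * θ) with hT
  refine ⟨T, filter_subset _ _, ?_, fun i hi => (mem_filter.1 hi).2⟩
  set y := ⌊(k : ℝ) ^ (1 - 2 * θ)⌋₊ with hy
  set z := ⌊(k : ℝ) ^ (1 - θ)⌋₊ with hz
  have y1 : 1 ≤ y := Nat.le_floor (by simpa using Real.one_le_rpow k1' (by linarith))
  have yz : y ≤ z := Nat.floor_le_floor (Real.rpow_le_rpow_of_exponent_le k1' (by linarith))
  set S := (Ioc y z).filter Nat.Prime with hS
  have memS : ∀ p ∈ S, p.Prime ∧ (k : ℝ) ^ (1 - 2 * θ) < p ∧ (p : ℝ) ≤ (k : ℝ) ^ (1 - θ) := by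
    intro p hp
    rw [mem_filter, mem_Ioc] at hp
    exact ⟨hp.2, Nat.lt_of_floor_lt hp.1.1, (Nat.le_floor_iff (by positivity)).1 hp.1.2⟩
  have mer : θ * L - 2 * C - 1 ≤ ∑ p ∈ S, Real.log p / p := by
    have e : A z = A y + ∑ p ∈ S, Real.log p / p := by
      unfold A
      rw [hS, sum_filter, sum_filter, sum_filter, sum_Ioc_consecutive _ (Nat.zero_le _) yz]
    have a1 := abs_le.1 (hC y y1)
    have a2 := abs_le.1 (hC z (y1.trans yz))
    have a3 : Real.log y ≤ (1 - 2 * θ) * L := by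
      rw [← ek]
      exact Real.log_le_log (by exact_mod_cast y1) (Nat.floor_le (by positivity))
    have a4 : (1 - θ) * L ≤ Real.log 2 + Real.log z := by
      have z1 : (1 : ℝ) ≤ z := by exact_mod_cast y1.trans yz
      rw [← ek, ← Real.log_mul (by norm_num) (by linarith)]
      refine Real.log_le_log (by positivity) ?_
      linarith [Nat.lt_floor_add_one ((k : ℝ) ^ (1 - θ))]
    have := Real.log_two_lt_d9
    linarith
  have low : (k : ℝ) / 2 * (θ * L - 2 * C - 1) ≤
      ∑ i ∈ Icc 1 k, ∑ p ∈ S.filter (· ∣ ap (m + i)), Real.log p := by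
    have e : ∑ i ∈ Icc 1 k, ∑ p ∈ S.filter (· ∣ ap (m + i)), Real.log p =
        ∑ p ∈ S, ((Icc 1 k).filter fun i => p ∣ ap (m + i)).card * Real.log p := by
      simp only [sum_filter]
      rw [sum_comm]
      refine sum_congr rfl fun p _ => ?_
      rw [← sum_filter, sum_const, nsmul_eq_mul]
    rw [e]
    refine (mul_le_mul_of_nonneg_left mer (by positivity)).trans ?_
    rw [mul_sum]
    refine sum_le_sum fun p hp => ?_
    obtain ⟨pp, p1, p2⟩ := memS p hp
    have p0 : (0 : ℝ) < p := by exact_mod_cast pp.pos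
    have a1 : k < p ^ 2 := by
      have b1 : (k : ℝ) ^ (1 / 2 : ℝ) < p :=
        (Real.rpow_le_rpow_of_exponent_le k1' (by linarith)).trans_lt p1
      have b2 : ((k : ℝ) ^ (1 / 2 : ℝ)) ^ 2 < (p : ℝ) ^ 2 := by gcongr
      rw [← Real.rpow_natCast, ← Real.rpow_mul k0.le] at b2
      norm_num at b2
      exact_mod_cast b2
    have a2 : 4 * (p : ℝ) ≤ k := by
      have b1 := hk1 k (by omega)
      have b2 : (k : ℝ) ^ θ * (k : ℝ) ^ (1 - θ) = k := by rw [← Real.rpow_add k0]; simp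
      rw [← b2]
      gcongr
      linarith [Nat.cast_nonneg (α := ℝ) (Nat.log 2 k)]
    have a3 := card_ap_ge k m pp a1
    have a4 : (4 : ℝ) ≤ k / p := by rwa [le_div_iff₀ p0]
    have a5 := Real.log_natCast_nonneg p
    calc _ = (k / p / 2) * Real.log p := by ring
      _ ≤ _ := by gcongr; linarith
  have pt : ∀ i ∈ Icc 1 k, ∑ p ∈ S.filter (· ∣ ap (m + i)), Real.log p ≤
      2 / θ * (Real.log (ap (m + i)) - (1 - θ ^ 2 / 8) * L) +
        4 / θ * L * (if i ∈ T then 1 else 0) := by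
    intro i hi
    have a0 : (0 : ℝ) < ap (m + i) := by exact_mod_cast ap_pos _
    have x0 := Real.log_natCast_nonneg (ap (m + i))
    have b1 : ∑ p ∈ S.filter (· ∣ ap (m + i)), Real.log p ≤ Real.log (ap (m + i)) := by
      have c1 : ∀ p ∈ S.filter (· ∣ ap (m + i)), p.Prime := fun p hp =>
        (memS p (mem_filter.1 hp).1).1
      rw [← Real.log_prod fun p hp => by exact_mod_cast (c1 p hp).ne_zero]
      refine Real.log_le_log (prod_pos fun p hp => by exact_mod_cast (c1 p hp).pos) ?_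
      simpa using (Nat.cast_le (α := ℝ)).2 (Nat.le_of_dvd (ap_pos _) (Finset.prod_primes_dvd _
        (fun p hp => (c1 p hp).prime) fun p hp => (mem_filter.1 hp).2))
    generalize hx : Real.log (ap (m + i)) = x at *
    have t2 : 0 ≤ θ ^ 2 * L := by positivity
    split_ifs with h
    · refine b1.trans (le_of_mul_le_mul_left ?_ h0)
      have : θ * (2 / θ * (x - (1 - θ ^ 2 / 8) * L) + 4 / θ * L * 1) =
        2 * x + 2 * L + θ ^ 2 * L / 4 := by field_simp; ring
      nlinarith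
    rw [mul_zero, add_zero]
    rw [hT, mem_filter, not_and] at h
    replace h := h hi
    push Not at h
    rcases (S.filter (· ∣ ap (m + i))).eq_empty_or_nonempty with e | ⟨p, hp⟩
    · rw [e, sum_empty]
      refine mul_nonneg (by positivity) (sub_nonneg.2 ?_)
      rw [← ek, ← hx]
      refine Real.log_le_log (by positivity) (not_lt.1 fun hh => ?_)
      have c1 := h _ (ap_pos _) hh.le dvd_rfl
      have c2 : 1 ≤ (k : ℝ) ^ (3 * θ) := Real.one_le_rpow k1' (by linarith)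
      nlinarith
    · obtain ⟨pp, p1, p2⟩ := memS p (mem_filter.1 hp).1
      have c1 := h p pp.pos (p2.trans (Real.rpow_le_rpow_of_exponent_le k1' (by nlinarith)))
        (mem_filter.1 hp).2
      have c2 : (1 + θ) * L ≤ x := by
        rw [← ek, ← hx, show 1 + θ = (1 - 2 * θ) + 3 * θ by ring, Real.rpow_add k0]
        refine Real.log_le_log (by positivity) (le_trans ?_ c1.le)
        gcongr
      refine b1.trans (le_of_mul_le_mul_left ?_ h0)
      have : θ * (2 / θ * (x - (1 - θ ^ 2 / 8) * L)) = 2 * x - 2 * L + θ ^ 2 * L / 4 := by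
        field_simp; ring
      have c3 := mul_le_mul_of_nonneg_left c2 (show 0 ≤ 2 - θ by linarith)
      nlinarith [mul_pos h0 L0]
  have up : ∑ i ∈ Icc 1 k, Real.log (ap (m + i)) ≤ k * (2 + L) := by
    rw [← Real.log_prod fun i _ => by exact_mod_cast (ap_pos _).ne']
    have a1 : ∏ i ∈ Icc 1 k, (ap (m + i) : ℝ) ≤ (4 * k) ^ k := by exact_mod_cast hE.prod_le
    refine (Real.log_le_log (prod_pos fun i _ => by exact_mod_cast ap_pos _) a1).trans ?_
    rw [Real.log_pow, Real.log_mul (by norm_num) k0.ne', show (4 : ℝ) = 2 ^ 2 by norm_num,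
      Real.log_pow]
    have := Real.log_two_lt_d9
    gcongr
    push_cast; linarith
  have tot := low.trans (sum_le_sum pt)
  rw [sum_add_distrib, ← mul_sum, ← mul_sum, sum_sub_distrib, sum_boole, sum_const,
    filter_mem_eq_inter, inter_eq_right.2 (filter_subset _ _), Nat.card_Icc, add_tsub_cancel_right,
    nsmul_eq_mul] at tot
  have a1 : 2 / θ * (∑ i ∈ Icc 1 k, Real.log (ap (m + i)) - k * ((1 - θ ^ 2 / 8) * L)) ≤
      k * (4 / θ + θ * L / 4) :=
    calc _ ≤ 2 / θ * (k * (2 + L) - k * ((1 - θ ^ 2 / 8) * L)) := by gcongr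
      _ = _ := by field_simp; ring
  have a2 : C + 1 + 4 / θ ≤ θ * L / 8 := by
    have := mul_le_mul_of_nonneg_left hL1 (show 0 ≤ θ / 8 by positivity)
    rw [← mul_assoc, show θ / 8 * (8 / θ) = 1 by field_simp] at this
    linarith
  have a3 : k * (θ * L / 8) ≤ 4 / θ * L * T.card := by nlinarith
  refine le_of_mul_le_mul_left ?_ (show 0 < 4 / θ * L by positivity)
  refine le_trans (le_of_eq ?_) a3
  field_simp; ring

open Classical in
theorem link {δ : ℝ} (h0 : 0 < δ) (h1 : δ ≤ 3 / 4) : ∃ k0 : ℕ, ∀ k m H : ℕ, k0 ≤ k → Exc k m →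
    (k : ℝ) ^ δ ≤ H → ∃ j : ℕ, 2 ^ j ≤ k ∧
      k ≤ H * ((Icc 1 k).filter fun i => Good (2 ^ j) H (m + i)).card := by
  obtain ⟨θ, rfl⟩ : ∃ θ, δ = 3 * θ := ⟨δ / 3, by ring⟩
  have t0 : 0 < θ := by linarith
  obtain ⟨k1, hk1⟩ := many t0 (by linarith)
  obtain ⟨k2, hk2⟩ := log_ev (ε := θ ^ 2 / 8) (by positivity) (128 / θ ^ 2)
  refine ⟨k1 + k2 + 1, fun k m H hk hE hH => ?_⟩
  obtain ⟨T, hT, hc, hg⟩ := hk1 k m (by omega) hE
  choose! g g0 g1 g2 g3 using hg
  have k1' : (1 : ℝ) ≤ k := by exact_mod_cast (by omega : 1 ≤ k)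
  have k0 : (0 : ℝ) < k := by linarith
  set Z := (k : ℝ) ^ (1 - θ ^ 2 / 8) with hZ
  have Z0 : 0 < Z := by positivity
  have Zk : (k : ℝ) ^ (θ ^ 2 / 8) * Z = k := by rw [← Real.rpow_add k0]; simp
  have H1 : (k : ℝ) ^ (θ ^ 2 / 8) ≤ H :=
    (Real.rpow_le_rpow_of_exponent_le k1' (by nlinarith)).trans hH
  have H0 : (0 : ℝ) < H := lt_of_lt_of_le (by positivity) H1
  have kH : k / H ≤ Z := by
    rw [div_le_iff₀ H0, ← Zk, mul_comm]; gcongr
  have Zk' : Z ≤ k := by
    have := Real.one_le_rpow k1' (show 0 ≤ θ ^ 2 / 8 by positivity)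
    nlinarith
  have gk : ∀ i ∈ T, g i ≤ k := fun i hi => by exact_mod_cast (g1 i hi).trans Zk'
  by_contra hcon
  push Not at hcon
  have := (Col.of_fun T (range (Nat.log 2 k + 1)) (fun i => Nat.log 2 (g i)) fun i hi =>
    mem_range.2 (Nat.lt_succ_of_le (Nat.log_mono_right (gk i hi)))).card_le (K := 3 * Z)
    (by positivity) fun U hU hr => by
      rcases U.eq_empty_or_nonempty with rfl | ⟨i0, h0⟩
      · simp only [card_empty, Nat.cast_zero]; positivity
      set j := Nat.log 2 (g i0)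
      have bd : ∀ i ∈ U, 2 ^ j ≤ g i ∧ g i < 2 * 2 ^ j := fun i hi => by
        have e : j = Nat.log 2 (g i) := hr i0 h0 i hi
        rw [e, ← pow_succ']
        exact ⟨Nat.pow_log_le_self 2 (g0 i (hU hi)).ne', Nat.lt_pow_succ_log_self (by norm_num) _⟩
      have a1 := hcon j ((bd i0 h0).1.trans (gk i0 (hU h0)))
      have a2 : ((U.filter fun i => Good (2 ^ j) H (m + i)).card : ℝ) ≤ Z := by
        refine le_trans ?_ kH
        rw [le_div_iff₀ H0, mul_comm]
        exact_mod_cast (Nat.mul_le_mul_left H (card_le_card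
          (filter_subset_filter _ (hU.trans hT)))).trans a1.le
      set B := U.filter fun i => ¬ Good (2 ^ j) H (m + i)
      have BU : B ⊆ U := filter_subset _ _
      have c1 := Col.of_fun B (Ico (2 ^ j) (2 * 2 ^ j)) g fun i hi => mem_Ico.2 (bd i (BU hi))
      have c2 := Col.window B (fun i => (i : ℝ)) (l := (2 ^ j : ℕ) * H) (by positivity) k k0.le
        fun i hi => ⟨by positivity, by exact_mod_cast (mem_Icc.1 (hT (hU (BU hi)))).2⟩
      have dec : ∀ i ∈ U, ∃ a u v : ℕ, a ≤ H ∧ m + i = g i * (a * u ^ 2 * v ^ 3) := by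
        intro i hi
        obtain ⟨a, ha⟩ := g2 i (hU hi)
        obtain ⟨u, v, -, -, e⟩ := exists_decomp (n := m + i)
          (by have := (mem_Icc.1 (hT (hU hi))).1; omega)
        refine ⟨a, u, v, ?_, by rw [e, ha]; ring⟩
        have b1 := g3 i (hU hi)
        rw [ha] at b1
        push_cast at b1
        exact_mod_cast (le_of_mul_le_mul_left b1 (by exact_mod_cast g0 i (hU hi))).trans hH
      have key : ∀ i ∈ B, ∀ i' ∈ B, g i = g i' → i' ≤ i + 2 ^ j * H → i' ≤ i := by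
        intro i hi i' hi' e hl
        by_contra hlt
        obtain ⟨a, u, v, b1, b2⟩ := dec i (BU hi)
        obtain ⟨a', u', v', b3, b4⟩ := dec i' (BU hi')
        obtain ⟨b5, b6⟩ := bd i (BU hi)
        have b7 := (mem_Icc.1 (hT (hU (BU hi)))).1
        rw [← e] at b4
        have b8 : a * u ^ 2 * v ^ 3 < a' * u' ^ 2 * v' ^ 3 :=
          Nat.lt_of_mul_lt_mul_left (a := g i) (by omega)
        obtain ⟨h, hh⟩ := Nat.exists_eq_add_of_le b8.le
        refine (mem_filter.1 hi).2 ⟨g i, _, b5, b6, b2, Nat.pos_of_ne_zero fun e0 => ?_, h, a, a',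
          u, v, u', v', by omega, ?_, b1, b3, rfl, hh.symm⟩
        · rw [e0] at b2; omega
        · rw [hh, mul_add, ← b2] at b4
          have := Nat.mul_le_mul_right H b5
          exact Nat.le_of_mul_le_mul_left (by omega) (g0 i (hU (BU hi)))
      have a3 : (B.card : ℝ) ≤ 2 * Z := by
        refine ((c1.mul c2).mono ?_ ?_).card_le_one
        · rintro i hi i' hi' ⟨e1, e2⟩
          have e3 : |(i' : ℤ) - i| ≤ (2 ^ j * H : ℕ) := by exact_mod_cast e2
          rw [abs_le] at e3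
          exact le_antisymm (key i' hi' i hi e1.symm (by omega)) (key i hi i' hi' e1 (by omega))
        · have b1 : ((2 ^ j : ℕ) : ℝ) ≤ Z :=
            le_trans (by exact_mod_cast (bd i0 h0).1) (g1 i0 (hU h0))
          rw [Nat.card_Ico, show 2 * 2 ^ j - 2 ^ j = 2 ^ j by omega]
          have : ((2 ^ j : ℕ) : ℝ) * (k / ((2 ^ j : ℕ) * H) + 1) = k / H + (2 ^ j : ℕ) := by
            field_simp
          linarith
      have a4 : (U.card : ℝ) = (U.filter fun i => Good (2 ^ j) H (m + i)).card + B.card := by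
        exact_mod_cast (card_filter_add_card_filter_not _).symm
      linarith
  have a1 := hk2 k (by omega)
  rw [card_range] at this
  push_cast at this
  have a2 : 128 / θ ^ 2 * (θ ^ 2 / 32 * k) ≤ 128 / θ ^ 2 * ((Nat.log 2 k + 1) * (3 * Z)) :=
    mul_le_mul_of_nonneg_left (hc.trans this) (by positivity)
  have a3 : 128 / θ ^ 2 * (θ ^ 2 / 32 * k) = 4 * k := by field_simp; ring
  have a4 := mul_le_mul_of_nonneg_right a1 (show 0 ≤ 3 * Z by positivity)
  nlinarith

end Pool.Agent.P.MP_baf437_nt
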