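import Pool.Agent.P.MP_baf437_nt.Main

/-! Integers that are nearly powerful together with a close neighbour. -/

namespace Pool.Agent.P.MP_baf437_nt

open Finset

/-- `r` and `r + h` are both powerful up to a factor at most `H`, for some `1 ≤ h ≤ H` -/
def Near (H r : ℕ) : Prop :=
  0 < r ∧ ∃ h a a' u v u' v' : ℕ, 1 ≤ h ∧ h ≤ H ∧ a ≤ H ∧ a' ≤ H ∧
    r = a * u ^ 2 * v ^ 3 ∧ r + h = a' * u' ^ 2 * v' ^ 3

/-- `n` is an integer of size about `G` times an integer with property `Near H` -/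
def Good (G H n : ℕ) : Prop := ∃ g r : ℕ, G ≤ g ∧ g < 2 * G ∧ n = g * r ∧ Near H r

theorem near_count {ε : ℝ} (hε : 0 < ε) (hε1 : ε ≤ 1) : ∃ C : ℝ, 1 ≤ C ∧ ∀ (H : ℕ) (Y : ℝ),
    1 ≤ H → 1 ≤ Y → ∀ E : Finset ℕ, (∀ r ∈ E, (r : ℝ) ≤ Y ∧ Near H r) →
      (E.card : ℝ) ≤ C * (H : ℝ) ^ 26 * Y ^ (13 / 50 + ε) := by
  classical
  obtain ⟨C, C0, hC⟩ := sub_poly hε
  have D2 := two_le_DD
  refine ⟨1 + (600 * DD ^ 15) * (C * 4), le_add_of_nonneg_right (by positivity),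
    fun H Y hH hY E hE => ?_⟩
  set w := Nat.log 2 (⌊Y⌋₊ + H) + 1 with hw
  have w1 : ⌊Y⌋₊ + H ≤ 2 ^ w := (Nat.lt_pow_succ_log_self (by norm_num) _).le
  have w2 : 2 ^ w ≤ 2 * (⌊Y⌋₊ + H) := by
    have := Nat.pow_log_le_self 2 (show ⌊Y⌋₊ + H ≠ 0 by omega)
    rw [hw, pow_succ]; omega
  obtain ⟨τ, hτ, hb⟩ := hC w
  set Z : ℝ := Y ^ (1 / 50 : ℝ) with hZ
  have Z1 : 1 ≤ Z := Real.one_le_rpow hY (by norm_num)
  have Z50 : Z ^ 50 = Y := by
    rw [hZ, ← Real.rpow_natCast, ← Real.rpow_mul (by linarith)]; norm_num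
  have Z13 : Z ^ 13 = Y ^ (13 / 50 : ℝ) := by
    rw [hZ, ← Real.rpow_natCast, ← Real.rpow_mul (by linarith)]; norm_num
  have ex : ∀ r ∈ E, ∃ (c : ℕ × ℕ × ℕ) (P : Pt),
      c ∈ Icc 1 H ×ˢ (Icc 1 (H ^ 2) ×ˢ Icc 1 (H ^ 2)) ∧ Sol 2 3 c.2.1 c.2.2 (c.1 : ℤ) w P ∧
      (r : ℤ) = c.2.2 * P.1.2 ^ 2 * P.2.2 ^ 3 := by
    intro r hr
    obtain ⟨hX, r0, h, a, a', u, v, u', v', h1, h2, a1, a2, e1, e2⟩ := hE r hr
    have := Nat.le_floor hX
    obtain ⟨d, P, d0, d1, s, -, f⟩ := exists_sol (w := w) e2 e1 (by omega) r0 (by omega)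
      (by omega)
    have e : ((r + h : ℕ) : ℤ) - r = h := by push_cast; ring
    rw [e] at d1 s
    have dk : d ≤ H := (Nat.le_of_dvd h1 (by exact_mod_cast d1)).trans h2
    have mem : ∀ b : ℕ, 0 < b → b ≤ H → b * d ∈ Icc 1 (H ^ 2) := fun b h0 h1 =>
      mem_Icc.2 ⟨Nat.mul_pos h0 d0, (Nat.mul_le_mul h1 dk).trans (le_of_eq (by ring))⟩
    have p1 : 0 < a := Nat.pos_of_ne_zero (by rintro rfl; simp at e1; omega)
    have p2 : 0 < a' := Nat.pos_of_ne_zero (by rintro rfl; simp at e2; omega)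
    exact ⟨(h, a' * d, a * d), P, mem_product.2 ⟨mem_Icc.2 ⟨h1, h2⟩,
      mem_product.2 ⟨mem _ p2 a2, mem _ p1 a1⟩⟩, by exact_mod_cast s, by exact_mod_cast f⟩
  choose! c P hc hs hf using ex
  have E1 := one_le_EE w
  have := (Col.of_fun E _ c hc).card_le
    (K := 600 * DD ^ 15 * (H : ℝ) ^ 20 * Z ^ 13 * ((w + 1) ^ 4 * τ ^ 4 * EE w)) (by positivity)
    fun U hU hr => by
      rcases U.eq_empty_or_nonempty with rfl | ⟨m0, h0⟩
      · simp only [card_empty, Nat.cast_zero]; positivity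
      have inj : Set.InjOn P U := fun m hm m' hm' e => by
        have f1 := hf m (hU hm)
        have f2 := hf m' (hU hm')
        rw [hr m hm m' hm', e, ← f2] at f1
        omega
      rw [← card_image_of_injOn inj]
      have c0 := hc m0 (hU h0)
      simp only [mem_product, mem_Icc] at c0
      refine pair_count (a1 := (c m0).2.1) (a2 := (c m0).2.2) (h := ((c m0).1 : ℤ))
        (by exact_mod_cast c0.2.1.1) (by exact_mod_cast c0.2.2.1) (by omega) ?_ Z1 hτ _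
        (fun Q hQ => ?_) fun Q hQ => ?_
      · rw [abs_of_nonneg (by positivity)]; exact_mod_cast c0.1.2
      · obtain ⟨m, hm, rfl⟩ := mem_image.1 hQ
        rw [← hr m hm m0 h0]; exact hs m (hU hm)
      · obtain ⟨m, hm, rfl⟩ := mem_image.1 hQ
        have f1 := hf m (hU hm)
        rw [hr m hm m0 h0] at f1
        have f2 : (m : ℝ) = (((c m0).2.2 : ℕ) : ℤ) * (P m).1.2 ^ 2 * (P m).2.2 ^ 3 := by
          exact_mod_cast f1
        rw [Z50, ← f2]; exact (hE m (hU hm)).1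
  refine this.trans ?_
  have H1 : (1 : ℝ) ≤ H := by exact_mod_cast hH
  have hb2 : ((2 : ℝ) ^ w) ^ ε ≤ 4 * H * Y ^ ε := by
    have h1 : (2 : ℝ) ^ w ≤ 4 * H * Y := by
      have h2 : ((2 ^ w : ℕ) : ℝ) ≤ (2 * (⌊Y⌋₊ + H) : ℕ) := by exact_mod_cast w2
      have h3 := Nat.floor_le (show 0 ≤ Y by linarith)
      push_cast at h2
      nlinarith [mul_nonneg (sub_nonneg.2 H1) (sub_nonneg.2 hY)]
    calc _ ≤ (4 * H * Y) ^ ε := by gcongr
      _ = (4 * H : ℝ) ^ ε * Y ^ ε := Real.mul_rpow (by positivity) (by positivity)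
      _ ≤ (4 * H : ℝ) ^ (1 : ℝ) * Y ^ ε := by gcongr; linarith
      _ = _ := by rw [Real.rpow_one]
  simp only [card_product, Nat.card_Icc, add_tsub_cancel_right]
  rw [Real.rpow_add (by linarith), Z13]
  push_cast
  calc _ ≤ (H : ℝ) * (H ^ 2 * H ^ 2) * (600 * DD ^ 15 * (H : ℝ) ^ 20 *
        Y ^ (13 / 50 : ℝ) * (C * (4 * H * Y ^ ε))) := by
        have hb3 : ((w : ℝ) + 1) ^ 4 * τ ^ 4 * EE w ≤ C * (4 * H * Y ^ ε) :=
          hb.trans (by gcongr)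
        gcongr
    _ = (600 * DD ^ 15) * (C * 4) * (H : ℝ) ^ 26 * (Y ^ (13 / 50 : ℝ) * Y ^ ε) := by ring
    _ ≤ _ := by gcongr; linarith

theorem log_ev {ε : ℝ} (hε : 0 < ε) (c : ℝ) :
    ∃ k0 : ℕ, ∀ k : ℕ, k0 ≤ k → c * (Nat.log 2 k + 1) ≤ (k : ℝ) ^ ε := by
  obtain ⟨C, C0, hC⟩ := Pool.Agent.P.MP_0ad054_nt.one_add_log_le (ε := ε / 2) (by positivity)
  have h := ((tendsto_rpow_atTop (show 0 < ε / 2 by positivity)).comp
    tendsto_natCast_atTop_atTop).eventually_ge_atTop (|c| * 2 * C)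
  obtain ⟨k0, hk⟩ := Filter.eventually_atTop.1 h
  refine ⟨k0 + 1, fun k h => ?_⟩
  have k1 : (1 : ℝ) ≤ k := by exact_mod_cast (by omega : 1 ≤ k)
  have h1 : |c| * 2 * C ≤ (k : ℝ) ^ (ε / 2) := hk k (by omega)
  have h2 := hC k k1
  have h3 : (Nat.log 2 k : ℝ) ≤ 2 * Real.log k := by
    have a1 : ((2 ^ Nat.log 2 k : ℕ) : ℝ) ≤ k := by
      exact_mod_cast Nat.pow_log_le_self 2 (by omega : k ≠ 0)
    have a2 := Real.log_le_log (by positivity) a1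
    push_cast at a2
    rw [Real.log_pow] at a2
    have := Real.log_two_gt_d9
    nlinarith [Nat.cast_nonneg (α := ℝ) (Nat.log 2 k)]
  calc _ ≤ |c| * (2 * (C * (k : ℝ) ^ (ε / 2))) := by
        gcongr
        · exact le_abs_self c
        · linarith
    _ = |c| * 2 * C * (k : ℝ) ^ (ε / 2) := by ring
    _ ≤ (k : ℝ) ^ (ε / 2) * (k : ℝ) ^ (ε / 2) := by gcongr
    _ = _ := by rw [← Real.rpow_add (by linarith)]; ring_nf

end Pool.Agent.P.MP_baf437_nt
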