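import Pool.Agent.P.MP_baf437_nt.Near

/-! Long products have a large prime factor to the first power. -/

namespace Pool.Agent.P.MP_baf437_nt

open Finset

theorem prod_eq_choose (m k : ℕ) :
    ∏ i ∈ Icc 1 k, (m + i) = k.factorial * (m + k).choose k := by
  induction k with
  | zero => simp
  | succ k ih =>
    rw [prod_Icc_succ_top (by omega), ih, Nat.factorial_succ, ← add_assoc, mul_assoc,
      mul_comm _ (m + k + 1), Nat.add_one_mul_choose_eq]
    ring

theorem choose_le_of {n k j : ℕ} (hn : 0 < n) (hk : k ≤ n)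
    (h : ∀ p : ℕ, p.Prime → j < p → n < p ^ 2 → (n.choose k).factorization p = 0) :
    n.choose k ≤ n ^ n.sqrt * 4 ^ j := by
  have h0 : n.choose k ≠ 0 := (Nat.choose_pos hk).ne'
  conv_lhs => rw [← Nat.prod_factorization_pow_eq_self h0]
  rw [Finsupp.prod, ← prod_filter_mul_prod_filter_not _ (· ≤ n.sqrt)]
  refine Nat.mul_le_mul ?_ ?_
  · refine (prod_le_pow_card _ _ n fun p _ => Nat.pow_factorization_choose_le hn).trans
      (Nat.pow_le_pow_right hn ?_)
    refine (card_le_card (t := Icc 1 n.sqrt) fun p hp => ?_).trans (by simp)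
    rw [mem_filter, Nat.support_factorization] at hp
    exact mem_Icc.2 ⟨(Nat.prime_of_mem_primeFactors hp.1).pos, hp.2⟩
  · refine le_trans ?_ (primorial_le_four_pow j)
    have key : ∀ p ∈ (n.choose k).factorization.support.filter (fun p => ¬ p ≤ n.sqrt),
        p.Prime ∧ n < p ^ 2 := fun p hp => by
      rw [mem_filter, Nat.support_factorization, not_le, Nat.sqrt_lt'] at hp
      exact ⟨Nat.prime_of_mem_primeFactors hp.1, hp.2⟩
    refine (prod_le_prod' (g := fun p => p) fun p hp => ?_).trans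
      (prod_le_prod_of_subset_of_one_le' (fun p hp => ?_) fun p hp _ => (mem_filter.1 hp).2.pos)
    · exact (Nat.pow_le_pow_right (key p hp).1.pos
        (Nat.factorization_choose_le_one (key p hp).2)).trans (by simp)
    · refine mem_filter.2 ⟨mem_range.2 (Nat.lt_succ_of_le ?_), (key p hp).1⟩
      by_contra hj
      exact Finsupp.mem_support_iff.1 (mem_filter.1 hp).1
        (h p (key p hp).1 (not_le.1 hj) (key p hp).2)

theorem choose_grow (k : ℕ) : ∀ j : ℕ, 2 * j ≤ k →
    5 ^ j * (2 * k).choose k ≤ 3 ^ j * (2 * k + j).choose k := by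
  intro j
  induction j with
  | zero => simp
  | succ j ih =>
    intro hj
    have h1 := ih (by omega)
    have h2 := Nat.choose_mul_succ_eq (2 * k + j) k
    rw [show 2 * k + j + 1 - k = k + j + 1 by omega] at h2
    have h3 : 5 * (2 * k + j).choose k ≤ 3 * (2 * k + j + 1).choose k := by
      refine Nat.le_of_mul_le_mul_right ?_ (show 0 < k + j + 1 by omega)
      rw [mul_assoc 3, ← h2, mul_right_comm, mul_comm ((2 * k + j).choose k), ← mul_assoc]
      exact Nat.mul_le_mul_right _ (by omega)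
    calc _ = 5 * (5 ^ j * (2 * k).choose k) := by ring
      _ ≤ 5 * (3 ^ j * (2 * k + j).choose k) := by gcongr
      _ = 3 ^ j * (5 * (2 * k + j).choose k) := by ring
      _ ≤ 3 ^ j * (3 * (2 * k + j + 1).choose k) := by gcongr
      _ = _ := by rw [← add_assoc]; ring

theorem sylv : ∃ k0 : ℕ, ∀ k m : ℕ, k0 ≤ k → k ≤ m → m ^ 2 ≤ k ^ 3 → ¬ Exc k m := by
  obtain ⟨k0, h0⟩ := log_ev (ε := 1 / 4) (by norm_num) 40
  refine ⟨k0 + 16, fun k m hk hm hm2 hE => ?_⟩
  set n := m + k with hn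
  set L := Nat.log 2 k + 1 with hL
  have L0 : 0 < L := by omega
  have hL4 : (40 * L) ^ 4 ≤ k := by
    have h1 := h0 k (by omega)
    have h2 : ((40 : ℝ) * (Nat.log 2 k + 1)) ^ 4 ≤ ((k : ℝ) ^ (1 / 4 : ℝ)) ^ 4 := by gcongr
    rw [← Real.rpow_natCast ((k : ℝ) ^ (1 / 4 : ℝ)), ← Real.rpow_mul (by positivity)] at h2
    norm_num at h2
    exact_mod_cast h2
  have hq : n.sqrt ^ 4 ≤ 4 * k ^ 3 :=
    calc n.sqrt ^ 4 = (n.sqrt ^ 2) ^ 2 := by ring
      _ ≤ (2 * m) ^ 2 := Nat.pow_le_pow_left ((Nat.sqrt_le' n).trans (by omega)) 2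
      _ = 4 * m ^ 2 := by ring
      _ ≤ _ := by gcongr
  have hq2 : 20 * L * n.sqrt ≤ k := by
    refine (Nat.pow_le_pow_iff_left (show 4 ≠ 0 by norm_num)).1 ?_
    calc _ = (20 * L) ^ 4 * n.sqrt ^ 4 := by ring
      _ ≤ (20 * L) ^ 4 * (16 * k ^ 3) := Nat.mul_le_mul_left _ (by omega)
      _ = (40 * L) ^ 4 * k ^ 3 := by ring
      _ ≤ k * k ^ 3 := by gcongr
      _ = _ := by ring
  have q0 : 0 < n.sqrt := Nat.sqrt_pos.2 (by omega)
  have hnk : n ≤ k ^ 2 := by
    refine (Nat.pow_le_pow_iff_left (show 2 ≠ 0 by norm_num)).1 ?_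
    calc n ^ 2 ≤ (2 * m) ^ 2 := Nat.pow_le_pow_left (by omega) 2
      _ = 4 * m ^ 2 := by ring
      _ ≤ k * k ^ 3 := Nat.mul_le_mul (by omega) hm2
      _ = _ := by ring
  have big : k * n ^ n.sqrt ≤ 2 ^ (k / 4) :=
    calc k * n ^ n.sqrt ≤ k * (k ^ 2) ^ n.sqrt := by gcongr
      _ = k ^ (2 * n.sqrt + 1) := by ring
      _ ≤ (2 ^ L) ^ (2 * n.sqrt + 1) :=
        Nat.pow_le_pow_left (Nat.lt_pow_succ_log_self (by norm_num) _).le _
      _ = 2 ^ (L * (2 * n.sqrt + 1)) := by rw [← pow_mul]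
      _ ≤ _ := by
        refine Nat.pow_le_pow_right (by norm_num) ((Nat.le_div_iff_mul_le (by norm_num)).2 ?_)
        nlinarith
  have zero : ∀ p : ℕ, p.Prime → k < p → n < p ^ 2 → (n.choose k).factorization p = 0 := by
    intro p hp h1 h2
    have h3 := Nat.factorization_choose_le_one (k := k) h2
    by_contra h4
    refine hE ⟨p, hp, h1, ?_⟩
    rw [prod_eq_choose, Nat.factorization_mul (Nat.factorial_ne_zero k)
      (Nat.choose_pos (by omega)).ne', Finsupp.add_apply,
      Nat.factorization_factorial_eq_zero_of_lt h1, ← hn]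
    omega
  have cen : 4 ^ k < k * (2 * k).choose k := Nat.four_pow_lt_mul_centralBinom k (by omega)
  by_cases hc : n ≤ 2 * k + k / 2
  · have h1 := choose_le_of (n := n) (k := k) (j := n / 3) (by omega) (by omega)
      fun p hp h1 h2 => by
        rcases lt_or_ge k p with h | h
        · exact zero p hp h h2
        · exact Nat.factorization_choose_of_lt_three_mul (by omega) h (by omega) (by omega)
    have h2 : (2 * k).choose k ≤ n.choose k := Nat.choose_le_choose _ (by omega)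
    have h3 : 2 ^ (k / 4) * 4 ^ (n / 3) ≤ 4 ^ k := by
      rw [show (4 : ℕ) = 2 ^ 2 by norm_num, ← pow_mul, ← pow_mul, ← pow_add]
      exact Nat.pow_le_pow_right (by norm_num) (by omega)
    have h4 : k * (2 * k).choose k ≤ 2 ^ (k / 4) * 4 ^ (n / 3) :=
      calc _ ≤ k * (n ^ n.sqrt * 4 ^ (n / 3)) := Nat.mul_le_mul_left _ (h2.trans h1)
        _ ≤ _ := by rw [← mul_assoc]; gcongr
    omega
  · have h1 := choose_le_of (n := n) (k := k) (j := k) (by omega) (by omega) zero
    have h2 : (2 * k + k / 2).choose k ≤ n.choose k := Nat.choose_le_choose _ (by omega)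
    have h3 := choose_grow k (k / 2) (by omega)
    have h4 : 2 ^ (k / 4) * 3 ^ (k / 2) ≤ 5 ^ (k / 2) := by
      obtain ⟨e, he⟩ : ∃ e, k / 2 = 2 * (k / 4) + e := ⟨k / 2 - 2 * (k / 4), by omega⟩
      rw [he, pow_add, pow_add, pow_mul, pow_mul, ← mul_assoc, ← mul_pow]
      gcongr <;> norm_num
    have h5 : 5 ^ (k / 2) * (k * (2 * k).choose k) ≤ 5 ^ (k / 2) * 4 ^ k :=
      calc _ = k * (5 ^ (k / 2) * (2 * k).choose k) := by ring
        _ ≤ k * (3 ^ (k / 2) * (n ^ n.sqrt * 4 ^ k)) :=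
          Nat.mul_le_mul_left _ (h3.trans (Nat.mul_le_mul_left _ (h2.trans h1)))
        _ = k * n ^ n.sqrt * 3 ^ (k / 2) * 4 ^ k := by ring
        _ ≤ _ := by
          gcongr ?_ * _
          exact le_trans (by gcongr) h4
    have := Nat.le_of_mul_le_mul_left h5 (by positivity)
    omega

end Pool.Agent.P.MP_baf437_nt
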