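import Pool.Agent.P.MP_baf437_nt.Cls
import Pool.Agent.P.MP_baf437_nt.Link
import Pool.Agent.P.MP_baf437_nt.Sylv

/-! The exceptional set, uniformly in the length of the product. -/

namespace Pool.Agent.P.MP_baf437_nt

open Finset

theorem unif_count {ε : ℝ} (hε : 0 < ε) (hε1 : ε ≤ 1 / 50) : ∃ C : ℝ, 0 < C ∧ ∀ X : ℕ, 1 ≤ X →
    ∀ E : Finset ℕ, (∀ n ∈ E, n ≤ X ∧ ∃ m k, 2 ≤ k ∧ k ≤ m ∧ m < n ∧ n ≤ m + k ∧ Exc k m) →
      (E.card : ℝ) ≤ C * (X : ℝ) ^ (13 / 50 + ε) := by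
  classical
  obtain ⟨C1, C10, h1⟩ := exc_count hε
  obtain ⟨C2, C20, h2⟩ := class_count (ε := ε / 3) (by positivity) (by linarith)
  obtain ⟨k1, hk1⟩ := link (δ := ε / 1260) (by positivity) (by linarith)
  obtain ⟨k2, hk2⟩ := sylv
  obtain ⟨k3, hk3⟩ := log_ev (ε := ε / 9) (by positivity) 1
  obtain ⟨k0, l1, l2⟩ : ∃ k0, k1 ≤ k0 ∧ k2 ≤ k0 := ⟨k1 + k2, by omega, by omega⟩
  obtain ⟨C3, hC3⟩ : ∃ C3 : ℝ, C3 = C2 * 2 ^ 420 := ⟨_, rfl⟩
  have C30 : 0 < C3 := by rw [hC3]; positivity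
  refine ⟨k3 + (k0 + 1) * (k0 + 1) * (C1 * (k0 + 1) ^ 28 * 2) + C3, by positivity,
    fun X hX E hE => ?_⟩
  have X1 : (1 : ℝ) ≤ X := by exact_mod_cast hX
  have P1 : 1 ≤ (X : ℝ) ^ (13 / 50 + ε) := Real.one_le_rpow X1 (by positivity)
  choose! hn m k hk2' hkm hmn hnm hx using hE
  have hm : ∀ n ∈ E, m n ≤ X := fun n h => (hmn n h).le.trans (hn n h)
  have e : (E.card : ℝ) =
      (E.filter fun n => k n ≤ k0).card + (E.filter fun n => ¬ k n ≤ k0).card := by
    exact_mod_cast (card_filter_add_card_filter_not _).symm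
  have a1 : ((E.filter fun n => k n ≤ k0).card : ℝ) ≤
      (k0 + 1) * (k0 + 1) * (C1 * (k0 + 1) ^ 28 * 2 * (X : ℝ) ^ (13 / 50 + ε)) := by
    refine (((Col.of_fun _ (range (k0 + 1)) k fun n h =>
      mem_range.2 (Nat.lt_succ_of_le (mem_filter.1 h).2)).mul (Col.of_fun _ (range (k0 + 1))
        (fun n => n - m n) fun n h => mem_range.2 (by
          have := hnm n (mem_filter.1 h).1; have := (mem_filter.1 h).2; omega))).mono
      (fun _ _ _ _ h => h) (by simp)).card_le (by positivity) fun T hT hr => ?_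
    rcases T.eq_empty_or_nonempty with rfl | ⟨n0, h0⟩
    · simp only [card_empty, Nat.cast_zero]; positivity
    obtain ⟨b1, b2⟩ := mem_filter.1 (hT h0)
    have TE : T ⊆ E := hT.trans (filter_subset _ _)
    have inj : Set.InjOn m T := fun n h n' h' e => by
      have := (hr n h n' h').2
      have := hmn n (TE h)
      have := hmn n' (TE h')
      omega
    rw [← card_image_of_injOn inj]
    refine (h1 (k n0) X (hk2' n0 b1) _ fun x h => ?_).trans ?_
    · obtain ⟨n, h', rfl⟩ := mem_image.1 h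
      exact ⟨hm n (TE h'), (hr n h' n0 h0).1 ▸ hx n (TE h')⟩
    have b3 : ((X + k n0 : ℕ) : ℝ) ^ (13 / 50 + ε) ≤ 2 * (X : ℝ) ^ (13 / 50 + ε) :=
      calc _ ≤ (2 * X : ℝ) ^ (13 / 50 + ε) := by
            gcongr
            exact_mod_cast (by have := hkm n0 b1; have := hm n0 b1; omega : X + k n0 ≤ 2 * X)
        _ = (2 : ℝ) ^ (13 / 50 + ε) * (X : ℝ) ^ (13 / 50 + ε) :=
            Real.mul_rpow (by norm_num) (by positivity)
        _ ≤ (2 : ℝ) ^ (1 : ℝ) * (X : ℝ) ^ (13 / 50 + ε) := by gcongr <;> linarith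
        _ = _ := by rw [Real.rpow_one]
    rw [mul_assoc _ 2]
    gcongr
    exact_mod_cast (by omega : k n0 ≤ k0 + 1)
  have a2 : ((E.filter fun n => ¬ k n ≤ k0).card : ℝ) ≤ k3 + C3 * (X : ℝ) ^ (13 / 50 + ε) := by
    rcases lt_or_ge X k3 with hX3 | hX3
    · have : (E.filter fun n => ¬ k n ≤ k0).card ≤ k3 := (card_le_card (t := range k3) fun n h =>
        mem_range.2 ((hn n (mem_filter.1 h).1).trans_lt hX3)).trans (by simp)
      exact le_trans (by exact_mod_cast this) (le_add_of_nonneg_right (by positivity))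
    refine le_trans ?_ (le_add_of_nonneg_left (by positivity))
    set E2 := E.filter fun n => ¬ k n ≤ k0
    set H := ⌈(X : ℝ) ^ (ε / 1260)⌉₊ with hH
    have Y1 : 1 ≤ (X : ℝ) ^ (ε / 1260) := Real.one_le_rpow X1 (by positivity)
    have H1 : 1 ≤ H := Nat.one_le_ceil_iff.2 (by linarith)
    have H2 : (H : ℝ) ≤ 2 * (X : ℝ) ^ (ε / 1260) := by
      linarith [Nat.ceil_lt_add_one (show 0 ≤ (X : ℝ) ^ (ε / 1260) by linarith)]
    have EE2 : E2 ⊆ E := filter_subset _ _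
    have kX : ∀ n ∈ E2, k n ≤ X := fun n h => (hkm n (EE2 h)).trans (hm n (EE2 h))
    have ex : ∀ n ∈ E2, ∃ j : ℕ, 2 ^ j ≤ k n ∧
        k n ≤ H * ((Icc 1 (k n)).filter fun i => Good (2 ^ j) H (m n + i)).card := by
      intro n h
      obtain ⟨b1, b2⟩ := mem_filter.1 h
      refine hk1 (k n) (m n) H (by omega) (hx n b1) (le_trans ?_ (Nat.le_ceil _))
      gcongr
      exact kX n h
    choose! j j1 j2 using ex
    have lg : ∀ n ≤ X, Nat.log 2 n ∈ range (Nat.log 2 X + 1) := fun n hn =>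
      mem_range.2 (Nat.lt_succ_of_le (Nat.log_mono_right hn))
    have col := ((Col.of_fun E2 _ (fun n => Nat.log 2 (m n)) fun n h => lg _ (hm n (EE2 h))).mul
      (Col.of_fun E2 _ (fun n => Nat.log 2 (k n)) fun n h => lg _ (kX n h))).mul
      (Col.of_fun E2 (range (Nat.log 2 X + 1)) j fun n h => by
        have := lg _ ((j1 n h).trans (kX n h))
        rwa [Nat.log_pow (by norm_num)] at this)
    refine (col.card_le (K := C2 * (H : ℝ) ^ 420 * (X : ℝ) ^ (13 / 50 + ε / 3)) (by positivity)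
      fun T hT hr => ?_).trans ?_
    · rcases T.eq_empty_or_nonempty with rfl | ⟨n0, h0⟩
      · simp only [card_empty, Nat.cast_zero]; positivity
      have dy : ∀ n : ℕ, n ≠ 0 → 2 ^ Nat.log 2 n ≤ n ∧ n < 2 * 2 ^ Nat.log 2 n := fun n hn =>
        ⟨Nat.pow_log_le_self 2 hn, by
          rw [← pow_succ']; exact Nat.lt_pow_succ_log_self (by norm_num) _⟩
      have pos : ∀ n ∈ T, k n ≠ 0 ∧ m n ≠ 0 := fun n h => by
        have := hk2' n (EE2 (hT h)); have := hkm n (EE2 (hT h)); omega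
      obtain ⟨b1, b2⟩ := dy _ (pos n0 h0).1
      obtain ⟨b3, b4⟩ := dy _ (pos n0 h0).2
      refine (h2 (2 ^ Nat.log 2 (m n0)) (2 ^ Nat.log 2 (k n0)) (2 ^ j n0) H H1 Nat.one_le_two_pow
        ((j1 n0 (hT h0)).trans b2.le) ?_ T fun n h => ?_).trans ?_
      · have c1 : k n0 ^ 3 < m n0 ^ 2 := not_le.1 fun hh => hk2 (k n0) (m n0)
          (by have := (mem_filter.1 (hT h0)).2; omega) (hkm n0 (EE2 (hT h0))) hh
          (hx n0 (EE2 (hT h0)))
        calc _ ≤ k n0 ^ 3 := Nat.pow_le_pow_left b1 3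
          _ ≤ (2 * 2 ^ Nat.log 2 (m n0)) ^ 2 := c1.le.trans (Nat.pow_le_pow_left b4.le 2)
          _ = _ := by ring
      · obtain ⟨⟨e1, e2⟩, e3⟩ := hr n h n0 h0
        obtain ⟨c1, c2⟩ := dy _ (pos n h).1
        rw [← e1, ← e2, ← e3]
        refine ⟨m n, ⟨hmn n (EE2 (hT h)), (hnm n (EE2 (hT h))).trans (by omega)⟩,
          (dy _ (pos n h).2).1, (dy _ (pos n h).2).2, c1.trans ((j2 n (hT h)).trans
          (Nat.mul_le_mul_left _ (card_le_card_of_injOn (m n + ·) (fun i hi => ?_)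
            fun _ _ _ _ e => Nat.add_left_cancel e)))⟩
        simp only [coe_filter, mem_Icc, mem_Ioc, Set.mem_ofPred_eq] at hi ⊢
        exact ⟨by omega, hi.2⟩
      · gcongr
        exact b3.trans (hm n0 (EE2 (hT h0)))
    · have b1 := hk3 X hX3
      have pw : ∀ (x : ℝ) (n : ℕ), ((X : ℝ) ^ x) ^ n = (X : ℝ) ^ (x * n) := fun x n => by
        rw [← Real.rpow_natCast, ← Real.rpow_mul (by linarith)]
      rw [one_mul] at b1
      simp only [card_range]
      push_cast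
      calc _ ≤ (X : ℝ) ^ (ε / 9) * (X : ℝ) ^ (ε / 9) * (X : ℝ) ^ (ε / 9) *
            (C2 * (2 * (X : ℝ) ^ (ε / 1260)) ^ 420 * (X : ℝ) ^ (13 / 50 + ε / 3)) := by gcongr
        _ = C3 * (((X : ℝ) ^ (ε / 9)) ^ 3 * ((X : ℝ) ^ (ε / 1260)) ^ 420 *
            (X : ℝ) ^ (13 / 50 + ε / 3)) := by
            rw [mul_pow, hC3]
            generalize (2 : ℝ) ^ 420 = a
            generalize ((X : ℝ) ^ (ε / 1260)) ^ 420 = b
            ring
        _ = _ := by
            rw [pw, pw, ← Real.rpow_add (by linarith), ← Real.rpow_add (by linarith)]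
            congr 2; push_cast; ring
  rw [e]
  have a3 := mul_le_mul_of_nonneg_left P1 (Nat.cast_nonneg (α := ℝ) k3)
  linarith

end Pool.Agent.P.MP_baf437_nt
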